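import Pool.Agent.Helper114.AB.Defs2

/-!
# MP_aef7b4_an: part A
-/

open Set Filter Topology

namespace Pool.Agent.Helper114.AB

section

theorem JC.mul {X : Type*} [TopologicalSpace X] {g h : Pm → (X ≃ₜ X)} (hg : JC g) (hh : JC h) :
    JC (fun a => g a * h a) := by
  refine ⟨?_, ?_⟩
  · exact hg.1.comp (continuous_fst.prodMk hh.1)
  · have h2 := hh.2.comp (continuous_fst.prodMk hg.2)
    refine h2.congr ?_
    intro q
    show (h q.1)⁻¹ ((g q.1)⁻¹ q.2) = (g q.1 * h q.1)⁻¹ q.2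
    rw [mul_inv_rev]; rfl

theorem JC.inv {X : Type*} [TopologicalSpace X] {g : Pm → (X ≃ₜ X)} (hg : JC g) :
    JC (fun a => (g a)⁻¹) := by
  refine ⟨hg.2, ?_⟩
  refine hg.1.congr ?_
  intro q
  show g q.1 q.2 = ((g q.1)⁻¹)⁻¹ q.2
  rw [inv_inv]

theorem jc_const {X : Type*} [TopologicalSpace X] (f : X ≃ₜ X) : JC (fun _ : Pm => f) :=
  ⟨f.continuous.comp continuous_snd, (f⁻¹).continuous.comp continuous_snd⟩

theorem jc_cT (n : ℕ) : Continuous (fun a : Pm => cT a n) :=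
  (AddCircle.continuous_mk' 1).comp (continuous_subtype_val.comp (continuous_apply n))

theorem jc_hsh (u : C(T1, ℝ)) (n : ℕ) : JC (fun a => hsh u (cT a n)) := by
  have h0 : Continuous (fun q : Pm × T2 => ((u (q.2.2 - cT q.1 n) : ℝ) : T1)) :=
    (AddCircle.continuous_mk' 1).comp (u.continuous.comp
      ((continuous_snd.comp continuous_snd).sub ((jc_cT n).comp continuous_fst)))
  refine ⟨?_, ?_⟩
  · show Continuous (fun q : Pm × T2 => (q.2.1 + ((u (q.2.2 - cT q.1 n) : ℝ) : T1), q.2.2))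
    exact ((continuous_fst.comp continuous_snd).add h0).prodMk (continuous_snd.comp continuous_snd)
  · show Continuous (fun q : Pm × T2 => (q.2.1 - ((u (q.2.2 - cT q.1 n) : ℝ) : T1), q.2.2))
    exact ((continuous_fst.comp continuous_snd).sub h0).prodMk (continuous_snd.comp continuous_snd)

-- A1
theorem jc_pr (N : ℕ) (v : ℕ → C(T1, ℝ)) (j : ℕ) : JC (fun a => pr N v (cT a) j) := by
  induction j with
  | zero => exact jc_const 1
  | succ n ih =>
    show JC (fun a => pr N v (cT a) n * el (sinF (ll n * amp N) N) (v n) (cT a n))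
    refine ih.mul ?_
    exact ((jc_const _).mul (jc_hsh (v n) n)).mul (jc_const _)

theorem jc_Hs (N : ℕ → ℕ) (v : ℕ → ℕ → C(T1, ℝ)) (k : ℕ) :
    JC (fun a => Hs N v (cT a) k) := by
  induction k with
  | zero => exact jc_const 1
  | succ k ih => exact ih.mul (jc_pr (N k) (v k) k)

end

section

theorem jc_constC {X : Type*} [TopologicalSpace X] (f : X ≃ₜ X) : JC (fun _ : Pm => f) :=
  ⟨f.continuous.comp continuous_snd, (f⁻¹).continuous.comp continuous_snd⟩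

theorem jc_cR (n : ℕ) : Continuous (fun a : Pm => cR a n) :=
  continuous_subtype_val.comp (continuous_apply n)

theorem jc_hshC (u : EP) (n : ℕ) : JC (fun a => hshC u (cR a n)) := by
  have h0 : Continuous (fun q : Pm × C2 => u.c (q.2.2 - ((cR q.1 n : ℝ) : ℂ))) :=
    u.diff.continuous.comp ((continuous_snd.comp continuous_snd).sub
      (Complex.continuous_ofReal.comp ((jc_cR n).comp continuous_fst)))
  refine ⟨?_, ?_⟩
  · show Continuous (fun q : Pm × C2 => (q.2.1 + u.c (q.2.2 - ((cR q.1 n : ℝ) : ℂ)), q.2.2))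
    exact ((continuous_fst.comp continuous_snd).add h0).prodMk (continuous_snd.comp continuous_snd)
  · show Continuous (fun q : Pm × C2 => (q.2.1 - u.c (q.2.2 - ((cR q.1 n : ℝ) : ℂ)), q.2.2))
    exact ((continuous_fst.comp continuous_snd).sub h0).prodMk (continuous_snd.comp continuous_snd)

theorem jc_prC (N : ℕ) (v : ℕ → EP) (j : ℕ) : JC (fun a => prC N v (cR a) j) := by
  induction j with
  | zero => exact jc_constC 1
  | succ n ih =>
    show JC (fun a => prC N v (cR a) n * elC (sinE (ll n * amp N) N) (v n) (cR a n))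
    refine ih.mul ?_
    exact ((jc_constC _).mul (jc_hshC (v n) n)).mul (jc_constC _)

-- A1C
theorem jc_HsC (N : ℕ → ℕ) (v : ℕ → ℕ → EP) (k : ℕ) :
    JC (fun a => HsC N v (cR a) k) := by
  induction k with
  | zero => exact jc_constC 1
  | succ k ih => exact ih.mul (jc_prC (N k) (v k) k)

end

section

theorem zsm_dl (N : ℕ) (m : ℤ) : ((2:ℤ)^N) • (((m * dl N : ℝ)) : T1) = 0 := by
  rw [← AddCircle.coe_zsmul, AddCircle.coe_eq_zero_iff]
  refine ⟨m, ?_⟩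
  rw [zsmul_eq_mul, zsmul_eq_mul, mul_one]
  unfold dl
  push_cast
  have h : ((2:ℝ)^N) * ((1/2 : ℝ))^N = 1 := by
    rw [← mul_pow]; norm_num
  calc (m : ℝ) = m * (((2:ℝ)^N) * ((1/2 : ℝ))^N) := by rw [h, mul_one]
    _ = (2:ℝ)^N * (m * (1/2)^N) := by ring

theorem sinF_shift (A : ℝ) (N : ℕ) (m : ℤ) (θ : T1) :
    sinF A N (θ + (((m * dl N : ℝ)) : T1)) = sinF A N θ := by
  unfold sinF
  simp only [ContinuousMap.coe_mk]
  rw [fourier_apply, fourier_apply, zsmul_add, zsm_dl, add_zero]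

theorem rot_hsh (t : ℝ) (u : C(T1, ℝ)) (a : T1) : Commute (hsh u a) (rot t) := by
  refine Homeomorph.ext fun p => ?_
  show ((p.1 + (t : T1)) + ((u (p.2 - a) : ℝ) : T1), p.2) = ((p.1 + ((u (p.2 - a) : ℝ) : T1)) + (t : T1), p.2)
  rw [add_right_comm]

theorem rot_vsh (A : ℝ) (N : ℕ) (m : ℤ) : Commute (vsh (sinF A N)) (rot (m * dl N)) := by
  refine Homeomorph.ext fun p => ?_
  show ((p.1 + ((m * dl N : ℝ) : T1)), p.2 + ((sinF A N (p.1 + ((m * dl N : ℝ) : T1)) : ℝ) : T1))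
    = ((p.1 + ((m * dl N : ℝ) : T1)), p.2 + ((sinF A N p.1 : ℝ) : T1))
  rw [sinF_shift]

theorem rot_el (A : ℝ) (N : ℕ) (m : ℤ) (u : C(T1, ℝ)) (a : T1) :
    Commute (el (sinF A N) u a) (rot (m * dl N)) := by
  unfold el
  exact ((rot_vsh A N m).inv_left.mul_left (rot_hsh _ u a)).mul_left (rot_vsh A N m)

theorem pr_commute (N : ℕ) (v : ℕ → C(T1, ℝ)) (a : ℕ → T1) (j : ℕ) (m : ℤ) :
    Commute (pr N v a j) (rot (m * dl N)) := by
  induction j with
  | zero => exact Commute.one_left _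
  | succ j ih => exact ih.mul_left (rot_el _ N m _ _)

-- A2
theorem pr_comm (N : ℕ) (v : ℕ → C(T1, ℝ)) (a : ℕ → T1) (j : ℕ) (m : ℤ) :
    pr N v a j * rot (m * dl N) = rot (m * dl N) * pr N v a j :=
  (pr_commute N v a j m).eq

end

section

theorem prC_comm_aux_hsh (u : EP) (a t : ℝ) : Commute (hshC u a) (rotC t) := by
  refine Homeomorph.ext fun p => ?_
  show ((p.1 + (t : ℂ)) + u.c (p.2 - a), p.2) = ((p.1 + u.c (p.2 - a)) + (t : ℂ), p.2)
  ext
  · show (p.1 + (t : ℂ)) + u.c (p.2 - a) = (p.1 + u.c (p.2 - a)) + (t : ℂ)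
    ring
  · rfl

theorem prC_comm_aux_vsh (A : ℝ) (N : ℕ) (m : ℤ) :
    Commute (vshC (sinE A N)) (rotC (m * dl N)) := by
  refine Homeomorph.ext fun p => ?_
  show (p.1 + ((m * dl N : ℝ) : ℂ),
      p.2 + A * Complex.sin (2 * Real.pi * 2 ^ N * (p.1 + ((m * dl N : ℝ) : ℂ)))) =
    (p.1 + ((m * dl N : ℝ) : ℂ), p.2 + A * Complex.sin (2 * Real.pi * 2 ^ N * p.1))
  have e : (2 * Real.pi * 2 ^ N * (p.1 + ((m * dl N : ℝ) : ℂ)) : ℂ) =
      2 * Real.pi * 2 ^ N * p.1 + (m : ℂ) * (2 * Real.pi) := by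
    have h2 : (2 : ℂ) ^ N * (((dl N : ℝ)) : ℂ) = 1 := by
      unfold dl
      push_cast
      rw [← mul_pow]
      norm_num
    push_cast
    linear_combination (2 * Real.pi * m : ℂ) * h2
  rw [e, Complex.sin_add_int_mul_two_pi]

theorem prC_comm (N : ℕ) (v : ℕ → EP) (a : ℕ → ℝ) (j : ℕ) (m : ℤ) :
    prC N v a j * rotC (m * dl N) = rotC (m * dl N) * prC N v a j := by
  have h : Commute (prC N v a j) (rotC (m * dl N)) := by
    induction j with
    | zero => exact Commute.one_left _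
    | succ n ih =>
      show Commute (prC N v a n * elC (sinE (ll n * amp N) N) (v n) (a n)) _
      refine ih.mul_left ?_
      unfold elC
      exact ((prC_comm_aux_vsh _ _ _).inv_left.mul_left (prC_comm_aux_hsh _ _ _)).mul_left
        (prC_comm_aux_vsh _ _ _)
  exact h

end

section

theorem me_comm_sinF (A : ℝ) (N : ℕ) (m : ℤ) (θ : T1) :
    sinF A N (θ + ((m * dl N : ℝ) : T1)) = sinF A N θ := by
  have h1 : ((2 : ℤ) ^ N) • ((m * dl N : ℝ) : T1) = 0 := by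
    rw [← AddCircle.coe_zsmul]
    have e : ((2 : ℤ) ^ N) • (m * dl N : ℝ) = (m : ℝ) := by
      unfold dl
      rw [zsmul_eq_mul]
      push_cast
      have h2 : (2 : ℝ) ^ N * (1 / 2) ^ N = 1 := by
        rw [← mul_pow]
        norm_num
      calc (2 : ℝ) ^ N * (m * (1 / 2) ^ N) = m * (2 ^ N * (1 / 2) ^ N) := by ring
        _ = m := by rw [h2, mul_one]
    rw [e, AddCircle.coe_eq_zero_iff]
    exact ⟨m, by simp⟩
  have h2 : fourier ((2 : ℤ) ^ N) (θ + ((m * dl N : ℝ) : T1)) = fourier ((2 : ℤ) ^ N) θ := by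
    rw [fourier_apply, fourier_apply, smul_add, h1, add_zero]
  show A * (fourier ((2 : ℤ) ^ N) (θ + ((m * dl N : ℝ) : T1))).im = A * (fourier ((2 : ℤ) ^ N) θ).im
  rw [h2]

theorem me_comm_mh (N : ℕ) (t : ℝ) : Commute (mh N) (mrot t) := by
  apply Homeomorph.ext
  rintro ⟨p, x⟩
  show (p + (t : T1) + ((dl (N + 1) * plat N |x| : ℝ) : T1), x) =
    (p + ((dl (N + 1) * plat N |x| : ℝ) : T1) + (t : T1), x)
  rw [add_right_comm]

theorem me_comm_mv (N : ℕ) (m : ℤ) : Commute (mv N) (mrot (m * dl N)) := by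
  apply Homeomorph.ext
  rintro ⟨p, x⟩
  show (p + ((m * dl N : ℝ) : T1), x + sinF (amp N) N (p + ((m * dl N : ℝ) : T1))) =
    (p + ((m * dl N : ℝ) : T1), x + sinF (amp N) N p)
  rw [me_comm_sinF]

-- the model maps commute as well
theorem me_comm (N : ℕ) (m : ℤ) : me N * mrot (m * dl N) = mrot (m * dl N) * me N := by
  have h1 := me_comm_mv N m
  have h2 := me_comm_mh N (m * dl N)
  exact ((h1.inv_left).mul_left h2).mul_left h1

end

section

theorem dl_scale (a n : ℕ) (h : a ≤ n) : dl a = 2 ^ (n - a) * dl n := by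
  unfold dl
  have : (1 / 2 : ℝ) ^ n = (1 / 2) ^ a * (1 / 2) ^ (n - a) := by
    rw [← pow_add]
    congr 1
    omega
  rw [this]
  have h2 : (2 : ℝ) ^ (n - a) * (1 / 2) ^ (n - a) = 1 := by
    rw [← mul_pow]
    norm_num
  calc (1 / 2 : ℝ) ^ a = (1 / 2) ^ a * (2 ^ (n - a) * (1 / 2) ^ (n - a)) := by rw [h2, mul_one]
    _ = _ := by ring

theorem al_int {N M : ℕ → ℕ} {k : ℕ} (h : ExpoLt N M k) (n : ℕ) (hn : Mp M k ≤ n) :
    ∃ m : ℤ, al M k = m * dl n := by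
  induction k generalizing n with
  | zero => exact ⟨0, by simp [al]⟩
  | succ k ih =>
    have hk : ExpoLt N M k := ⟨fun i hi => h.c0 i (by omega), fun i hi => h.c0'' i (by omega)⟩
    have h1 := h.c0 k (by omega)
    have h2 := h.c0'' k (by omega)
    have hn' : M k ≤ n := hn
    obtain ⟨m, hm⟩ := ih hk n (by omega)
    refine ⟨m + 2 ^ (n - M k), ?_⟩
    have e : al M (k + 1) = al M k + dl (M k) := rfl
    rw [e, hm, dl_scale (M k) n hn']
    push_cast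
    ring

theorem al_odd {N M : ℕ → ℕ} (h : Expo N M) (k : ℕ) :
    ∃ m : ℤ, al M (k + 1) = (2 * m + 1) * dl (M k) := by
  have hk : ExpoLt N M k := ⟨fun i _ => h.c0 i, fun i _ => h.c0'' i⟩
  have h1 := h.c0 k
  have h2 := h.c0'' k
  obtain ⟨m, hm⟩ := al_int hk (M k - 1) (by omega)
  refine ⟨m, ?_⟩
  have e : al M (k + 1) = al M k + dl (M k) := rfl
  have e2 : M k - (M k - 1) = 1 := by omega
  rw [e, hm, dl_scale (M k - 1) (M k) (by omega), e2]
  ring

end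

section

theorem conj_grp {G : Type*} [Group G] (H P R : G) (h : P * R = R * P) :
    H * R * H⁻¹ = H * P * R * (H * P)⁻¹ := by
  rw [mul_inv_rev, mul_assoc H P R, h]
  group

-- A4: telescoping: `f_{k}` can be computed with `H_{k+1}`
theorem fs_eq {N M : ℕ → ℕ} {k : ℕ} (h : ExpoLt N M k) (hk : Mp M k ≤ N k)
    (v : ℕ → ℕ → C(T1, ℝ)) (a : ℕ → T1) :
    fs N M v a k = Hs N v a (k + 1) * rot (al M k) * (Hs N v a (k + 1))⁻¹ := by
  obtain ⟨m, hm⟩ := al_int h (N k) hk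
  have hc := pr_comm (N k) (v k) a k m
  rw [← hm] at hc
  exact conj_grp _ _ _ hc

theorem fC_eq {N M : ℕ → ℕ} {k : ℕ} (h : ExpoLt N M k) (hk : Mp M k ≤ N k)
    (v : ℕ → ℕ → EP) (a : ℕ → ℝ) :
    fC N M v a k = HsC N v a (k + 1) * rotC (al M k) * (HsC N v a (k + 1))⁻¹ := by
  obtain ⟨m, hm⟩ := al_int h (N k) hk
  have hc := prC_comm (N k) (v k) a k m
  rw [← hm] at hc
  exact conj_grp _ _ _ hc

theorem fm_eq {N M : ℕ → ℕ} {k : ℕ} (h : ExpoLt N M k) (hk : Mp M k ≤ N k) (n : ℕ) :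
    fm N M n k = Gm N n (k + 1) * mrot (al M k) * (Gm N n (k + 1))⁻¹ := by
  obtain ⟨m, hm⟩ := al_int h (N k) hk
  have hc : (if n < k then me (N k) else 1) * mrot (al M k) =
      mrot (al M k) * (if n < k then me (N k) else 1) := by
    split_ifs
    · have := me_comm (N k) m
      rwa [← hm] at this
    · rw [one_mul, mul_one]
  exact conj_grp _ _ _ hc

end

section

theorem equiA_per (u : EP) (z : ℂ) (n : ℤ) : u.c (z + n) = u.c z := by
  have h : Function.Periodic u.c 1 := u.per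
  have h2 := h.int_mul n z
  rwa [mul_one] at h2

theorem equiA_one : Equi ⇑(1 : C2 ≃ₜ C2) := by
  intro z m n
  rfl

theorem equiA_mul {f g : C2 ≃ₜ C2} (hf : Equi f) (hg : Equi g) : Equi ⇑(f * g) := by
  intro z m n
  show f (g (z.1 + m, z.2 + n)) = ((f (g z)).1 + m, (f (g z)).2 + n)
  rw [hg z m n, hf (g z) m n]

theorem equiA_inv {f : C2 ≃ₜ C2} (hf : Equi f) : Equi ⇑f⁻¹ := by
  intro z m n
  show f.symm (z.1 + m, z.2 + n) = ((f.symm z).1 + m, (f.symm z).2 + n)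
  rw [Homeomorph.symm_apply_eq, hf (f.symm z) m n, Homeomorph.apply_symm_apply]

theorem equiA_hsh (u : EP) (a : ℝ) : Equi ⇑(hshC u a) := by
  intro z m n
  show (z.1 + m + u.c (z.2 + n - a), z.2 + n) = (z.1 + u.c (z.2 - a) + m, z.2 + n)
  have h := equiA_per u (z.2 - a) n
  have e : z.2 + n - (a:ℂ) = z.2 - a + n := by ring
  rw [e, h]
  refine Prod.ext ?_ rfl
  show z.1 + m + u.c (z.2 - a) = z.1 + u.c (z.2 - a) + m
  ring

theorem equiA_vsh (b : EP) : Equi ⇑(vshC b) := by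
  intro z m n
  show (z.1 + m, z.2 + n + b.c (z.1 + m)) = (z.1 + m, z.2 + b.c z.1 + n)
  rw [equiA_per b z.1 m]
  refine Prod.ext rfl ?_
  show z.2 + n + b.c z.1 = z.2 + b.c z.1 + n
  ring

theorem equiA_el (b u : EP) (a : ℝ) : Equi ⇑(elC b u a) :=
  equiA_mul (equiA_mul (equiA_inv (equiA_vsh b)) (equiA_hsh u a)) (equiA_vsh b)

theorem equiA_pr (N : ℕ) (v : ℕ → EP) (a : ℕ → ℝ) (n : ℕ) : Equi ⇑(prC N v a n) := by
  induction n with
  | zero => exact equiA_one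
  | succ n ih => exact equiA_mul ih (equiA_el _ _ _)

theorem equi_HsC (N : ℕ → ℕ) (v : ℕ → ℕ → EP) (a : ℕ → ℝ) (k : ℕ) :
    Equi (HsC N v a k) ∧ Equi ⇑(HsC N v a k)⁻¹ := by
  have h : Equi ⇑(HsC N v a k) := by
    induction k with
    | zero => exact equiA_one
    | succ k ih => exact equiA_mul ih (equiA_pr _ _ _ _)
  exact ⟨h, equiA_inv h⟩

end

section

theorem dfC_one : Differentiable ℂ ⇑(1 : C2 ≃ₜ C2) ∧ Differentiable ℂ ⇑(1 : C2 ≃ₜ C2)⁻¹ :=
  ⟨differentiable_id, differentiable_id⟩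

theorem dfC_mul {f g : C2 ≃ₜ C2} (hf : Differentiable ℂ f ∧ Differentiable ℂ ⇑f⁻¹)
    (hg : Differentiable ℂ g ∧ Differentiable ℂ ⇑g⁻¹) :
    Differentiable ℂ ⇑(f * g) ∧ Differentiable ℂ ⇑(f * g)⁻¹ := by
  refine ⟨hf.1.comp hg.1, ?_⟩
  rw [mul_inv_rev]
  exact hg.2.comp hf.2

theorem dfC_inv {f : C2 ≃ₜ C2} (hf : Differentiable ℂ f ∧ Differentiable ℂ ⇑f⁻¹) :
    Differentiable ℂ ⇑f⁻¹ ∧ Differentiable ℂ ⇑(f⁻¹)⁻¹ := by
  rw [inv_inv]
  exact ⟨hf.2, hf.1⟩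

theorem dfC_hsh (u : EP) (a : ℝ) :
    Differentiable ℂ ⇑(hshC u a) ∧ Differentiable ℂ ⇑(hshC u a)⁻¹ := by
  have hu := u.diff
  constructor
  · show Differentiable ℂ (fun p : C2 => ((p.1 + u.c (p.2 - a), p.2) : C2))
    have h1 : Differentiable ℂ (fun p : C2 => u.c (p.2 - a)) := by
      exact hu.comp (by fun_prop : Differentiable ℂ (fun p : C2 => p.2 - (a : ℂ)))
    exact (differentiable_fst.add h1).prodMk differentiable_snd
  · show Differentiable ℂ (fun p : C2 => ((p.1 - u.c (p.2 - a), p.2) : C2))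
    have h1 : Differentiable ℂ (fun p : C2 => u.c (p.2 - a)) := by
      exact hu.comp (by fun_prop : Differentiable ℂ (fun p : C2 => p.2 - (a : ℂ)))
    exact (differentiable_fst.sub h1).prodMk differentiable_snd

theorem dfC_vsh (b : EP) :
    Differentiable ℂ ⇑(vshC b) ∧ Differentiable ℂ ⇑(vshC b)⁻¹ := by
  have hu := b.diff
  have h1 : Differentiable ℂ (fun p : C2 => b.c p.1) := hu.comp differentiable_fst
  constructor
  · show Differentiable ℂ (fun p : C2 => ((p.1, p.2 + b.c p.1) : C2))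
    exact differentiable_fst.prodMk (differentiable_snd.add h1)
  · show Differentiable ℂ (fun p : C2 => ((p.1, p.2 - b.c p.1) : C2))
    exact differentiable_fst.prodMk (differentiable_snd.sub h1)

theorem dfC_el (b u : EP) (a : ℝ) :
    Differentiable ℂ ⇑(elC b u a) ∧ Differentiable ℂ ⇑(elC b u a)⁻¹ :=
  dfC_mul (dfC_mul (dfC_inv (dfC_vsh b)) (dfC_hsh u a)) (dfC_vsh b)

theorem dfC_pr (N : ℕ) (v : ℕ → EP) (a : ℕ → ℝ) (n : ℕ) :
    Differentiable ℂ ⇑(prC N v a n) ∧ Differentiable ℂ ⇑(prC N v a n)⁻¹ := by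
  induction n with
  | zero => exact dfC_one
  | succ n ih => exact dfC_mul ih (dfC_el _ _ _)

theorem diff_HsC (N : ℕ → ℕ) (v : ℕ → ℕ → EP) (a : ℕ → ℝ) (k : ℕ) :
    Differentiable ℂ (HsC N v a k) ∧ Differentiable ℂ ⇑(HsC N v a k)⁻¹ := by
  induction k with
  | zero => exact dfC_one
  | succ k ih => exact dfC_mul ih (dfC_pr _ _ _ _)

end

section

theorem Rel.comp {F G : C2 → C2} {f g : T2 → T2} (hF : Rel F f) (hG : Rel G g) :
    Rel (F ∘ G) (f ∘ g) := by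
  intro θ x
  obtain ⟨θ1, x1, h1, h1'⟩ := hG θ x
  obtain ⟨θ2, x2, h2, h2'⟩ := hF θ1 x1
  refine ⟨θ2, x2, ?_, ?_⟩
  · change F (G ((θ : ℂ), (x : ℂ))) = _
    rw [h1, h2]
  · change f (g ((θ : T1), (x : T1))) = _
    rw [h1', h2']

/-- relation together with the inverses -/
def RR (F : C2 ≃ₜ C2) (f : T2 ≃ₜ T2) : Prop := Rel ⇑F ⇑f ∧ Rel ⇑F⁻¹ ⇑f⁻¹

theorem RR.one : RR 1 1 := by
  constructor
  · intro θ x
    exact ⟨θ, x, rfl, rfl⟩
  · intro θ x
    rw [inv_one, inv_one]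
    exact ⟨θ, x, rfl, rfl⟩

theorem RR.mul {F G : C2 ≃ₜ C2} {f g : T2 ≃ₜ T2} (hF : RR F f) (hG : RR G g) :
    RR (F * G) (f * g) := by
  constructor
  · change Rel (⇑F ∘ ⇑G) (⇑f ∘ ⇑g)
    exact Rel.comp hF.1 hG.1
  · rw [mul_inv_rev, mul_inv_rev]
    change Rel (⇑G⁻¹ ∘ ⇑F⁻¹) (⇑g⁻¹ ∘ ⇑f⁻¹)
    exact Rel.comp hG.2 hF.2

theorem RR.inv {F : C2 ≃ₜ C2} {f : T2 ≃ₜ T2} (hF : RR F f) : RR F⁻¹ f⁻¹ := by
  refine ⟨hF.2, ?_⟩
  rw [inv_inv, inv_inv]
  exact hF.1

theorem RR.hsh (u : EP) (c : ℝ) : RR (hshC u c) (hsh u.r (c : T1)) := by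
  constructor
  · intro θ x
    refine ⟨θ + u.r ((x - c : ℝ) : T1), x, ?_, ?_⟩
    · change ((θ : ℂ) + u.c ((x : ℂ) - (c : ℂ)), (x : ℂ)) = _
      rw [← Complex.ofReal_sub, u.compat, Complex.ofReal_add]
    · change ((θ : T1) + ((u.r ((x : T1) - (c : T1)) : ℝ) : T1), (x : T1)) = _
      rw [← AddCircle.coe_sub, AddCircle.coe_add]
  · intro θ x
    refine ⟨θ - u.r ((x - c : ℝ) : T1), x, ?_, ?_⟩
    · change ((θ : ℂ) - u.c ((x : ℂ) - (c : ℂ)), (x : ℂ)) = _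
      rw [← Complex.ofReal_sub, u.compat, Complex.ofReal_sub]
    · change ((θ : T1) - ((u.r ((x : T1) - (c : T1)) : ℝ) : T1), (x : T1)) = _
      rw [← AddCircle.coe_sub]
      rfl

theorem RR.vsh (b : EP) : RR (vshC b) (vsh b.r) := by
  constructor
  · intro θ x
    refine ⟨θ, x + b.r ((θ : ℝ) : T1), ?_, ?_⟩
    · change ((θ : ℂ), (x : ℂ) + b.c (θ : ℂ)) = _
      rw [b.compat, Complex.ofReal_add]
    · change ((θ : T1), (x : T1) + ((b.r (θ : T1) : ℝ) : T1)) = _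
      rw [AddCircle.coe_add]
  · intro θ x
    refine ⟨θ, x - b.r ((θ : ℝ) : T1), ?_, ?_⟩
    · change ((θ : ℂ), (x : ℂ) - b.c (θ : ℂ)) = _
      rw [b.compat, Complex.ofReal_sub]
    · change ((θ : T1), (x : T1) - ((b.r (θ : T1) : ℝ) : T1)) = _
      rw [AddCircle.coe_sub]

theorem RR.rot (t : ℝ) : RR (rotC t) (rot t) := by
  constructor
  · intro θ x
    refine ⟨θ + t, x, ?_, ?_⟩
    · change ((θ : ℂ) + (t : ℂ), (x : ℂ)) = _
      rw [Complex.ofReal_add]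
    · change ((θ : T1) + (t : T1), (x : T1)) = _
      rw [AddCircle.coe_add]
  · intro θ x
    refine ⟨θ - t, x, ?_, ?_⟩
    · change ((θ : ℂ) - (t : ℂ), (x : ℂ)) = _
      rw [Complex.ofReal_sub]
    · change ((θ : T1) - (t : T1), (x : T1)) = _
      rw [AddCircle.coe_sub]

theorem RR.el (b u : EP) (c : ℝ) : RR (elC b u c) (el b.r u.r (c : T1)) :=
  RR.mul (RR.mul (RR.inv (RR.vsh b)) (RR.hsh u c)) (RR.vsh b)

theorem RR.pr (N : ℕ) (v : ℕ → EP) (a : Pm) (n : ℕ) :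
    RR (prC N v (cR a) n) (pr N (fun n => (v n).r) (cT a) n) := by
  induction n with
  | zero => exact RR.one
  | succ n ih => exact RR.mul ih (RR.el (sinE (ll n * amp N) N) (v n) (a n))

theorem RR.Hs (N : ℕ → ℕ) (v : ℕ → ℕ → EP) (a : Pm) (k : ℕ) :
    RR (HsC N v (cR a) k) (Hs N (fun k n => (v k n).r) (cT a) k) := by
  induction k with
  | zero => exact RR.one
  | succ k ih => exact RR.mul ih (RR.pr (N k) (v k) a k)

theorem rel_HsC (N : ℕ → ℕ) (v : ℕ → ℕ → EP) (a : Pm) (k : ℕ) :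
    Rel (HsC N v (cR a) k) (Hs N (fun k n => (v k n).r) (cT a) k) ∧
    Rel ⇑(HsC N v (cR a) k)⁻¹ ⇑(Hs N (fun k n => (v k n).r) (cT a) k)⁻¹ :=
  RR.Hs N v a k

theorem rel_rotC (t : ℝ) : Rel (rotC t) (rot t) := (RR.rot t).1

theorem rel_fC (N M : ℕ → ℕ) (v : ℕ → ℕ → EP) (a : Pm) (k : ℕ) :
    Rel (fC N M v (cR a) k) (fs N M (fun k n => (v k n).r) (cT a) k) ∧
    Rel ⇑(fC N M v (cR a) k)⁻¹ ⇑(fs N M (fun k n => (v k n).r) (cT a) k)⁻¹ :=
  RR.mul (RR.mul (RR.Hs N v a k) (RR.rot (al M k))) (RR.inv (RR.Hs N v a k))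

end

end Pool.Agent.Helper114.AB
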