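import Pool.Agent.Helper114.AB.A

/-!
# MP_aef7b4_an: part C
-/

open Set Filter Topology

namespace Pool.Agent.Helper114.AB

section

-- general recursion
theorem exists_seq {E : Type} [Inhabited E] (C : ℕ → (ℕ → E) → Prop)
    (hloc : ∀ k d d', (∀ i ≤ k, d i = d' i) → C k d → C k d')
    (hstep : ∀ k d, (∀ i < k, C i d) → ∃ x, C k (Function.update d k x)) :
    ∃ d, ∀ k, C k d := by
  classical
  have hnext : ∀ (k : ℕ) (d : {d : ℕ → E // ∀ i < k, C i d}),
      ∀ i < k + 1, C i (Function.update d.1 k (hstep k d.1 d.2).choose) := by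
    intro k d i hi
    rcases Nat.lt_succ_iff_lt_or_eq.1 hi with h | h
    · refine hloc i d.1 _ (fun j hj => ?_) (d.2 i h)
      rw [Function.update_of_ne (by omega)]
    · subst h
      exact (hstep i d.1 d.2).choose_spec
  let D : (k : ℕ) → {d : ℕ → E // ∀ i < k, C i d} := fun k =>
    Nat.rec (motive := fun k => {d : ℕ → E // ∀ i < k, C i d})
      ⟨fun _ => default, fun i hi => absurd hi (Nat.not_lt_zero i)⟩
      (fun k d => ⟨Function.update d.1 k (hstep k d.1 d.2).choose, hnext k d⟩) k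
  have hD : ∀ k, (D (k + 1)).1 = Function.update (D k).1 k (hstep k (D k).1 (D k).2).choose :=
    fun k => rfl
  have hval : ∀ n i, i < n → (D n).1 i = (D (i + 1)).1 i := by
    intro n
    induction n with
    | zero => intro i hi; exact absurd hi (Nat.not_lt_zero i)
    | succ n ih =>
      intro i hi
      rcases Nat.lt_succ_iff_lt_or_eq.1 hi with h | h
      · rw [hD n, Function.update_of_ne (by omega)]
        exact ih i h
      · subst h
        rfl
  refine ⟨fun k => (D (k + 1)).1 k, fun k => ?_⟩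
  exact hloc k (D (k + 1)).1 _ (fun i hi => hval (k + 1) i (by omega)) ((D (k + 1)).2 k (by omega))

end

section

theorem cl_Hs (N N' : ℕ → ℕ) (v v' : ℕ → ℕ → C(T1, ℝ)) (a : ℕ → T1) (j : ℕ)
    (h1 : ∀ i < j, N i = N' i) (h2 : ∀ i < j, v i = v' i) : Hs N v a j = Hs N' v' a j := by
  induction j with
  | zero => rfl
  | succ j ih =>
    simp only [Hs]
    rw [ih (fun i hi => h1 i (by omega)) (fun i hi => h2 i (by omega)), h1 j (by omega), h2 j (by omega)]

theorem cl_HsC (N N' : ℕ → ℕ) (v v' : ℕ → ℕ → EP) (a : ℕ → ℝ) (j : ℕ)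
    (h1 : ∀ i < j, N i = N' i) (h2 : ∀ i < j, v i = v' i) : HsC N v a j = HsC N' v' a j := by
  induction j with
  | zero => rfl
  | succ j ih =>
    simp only [HsC]
    rw [ih (fun i hi => h1 i (by omega)) (fun i hi => h2 i (by omega)), h1 j (by omega), h2 j (by omega)]

theorem cl_al (M M' : ℕ → ℕ) (j : ℕ) (h1 : ∀ i < j, M i = M' i) : al M j = al M' j := by
  induction j with
  | zero => rfl
  | succ j ih =>
    simp only [al]
    rw [ih (fun i hi => h1 i (by omega)), h1 j (by omega)]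

theorem cl_Gm (N N' : ℕ → ℕ) (n j : ℕ) (h1 : ∀ i < j, N i = N' i) : Gm N n j = Gm N' n j := by
  induction j with
  | zero => rfl
  | succ j ih =>
    simp only [Gm]
    rw [ih (fun i hi => h1 i (by omega)), h1 j (by omega)]

theorem cl_fC (N N' M M' : ℕ → ℕ) (v v' : ℕ → ℕ → EP) (a : ℕ → ℝ) (j : ℕ)
    (h1 : ∀ i < j, N i = N' i) (h2 : ∀ i < j, v i = v' i) (h3 : ∀ i < j, M i = M' i) :
    fC N M v a j = fC N' M' v' a j := by
  unfold fC
  rw [cl_HsC N N' v v' a j h1 h2, cl_al M M' j h3]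

theorem cl_Mp (M M' : ℕ → ℕ) (j : ℕ) (h3 : ∀ i < j, M i = M' i) : Mp M j = Mp M' j := by
  cases j with
  | zero => rfl
  | succ j => exact h3 j (by omega)

theorem cond_loc (k : ℕ) (d d' : ℕ → D) (h : ∀ i ≤ k, d i = d' i) (hC : Cond k d) :
    Cond k d' := by
  have eN : ∀ i ≤ k, dN d i = dN d' i := fun i hi => by unfold dN; rw [h i hi]
  have eM : ∀ i ≤ k, dM d i = dM d' i := fun i hi => by unfold dM; rw [h i hi]
  have eU : ∀ i ≤ k, dU d i = dU d' i := fun i hi => by unfold dU; rw [h i hi]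
  have eV : ∀ i ≤ k, dV d i = dV d' i := fun i hi => by unfold dV; rw [h i hi]
  have eI : ∀ i ≤ k, idl (dN d) i = idl (dN d') i := fun i hi => by
    unfold idl; rw [eN i hi]
  have hMp : Mp (dM d) k = Mp (dM d') k := cl_Mp _ _ k (fun i hi => eM i (by omega))
  have hf : ∀ a, ∀ j ≤ k + 1, fC (dN d) (dM d) (dU d) a j = fC (dN d') (dM d') (dU d') a j :=
    fun a j hj => cl_fC _ _ _ _ _ _ a j (fun i hi => eN i (by omega)) (fun i hi => eU i (by omega))
      (fun i hi => eM i (by omega))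
  have hV : ∀ a, ∀ j ≤ k + 1, Hs (dN d) (dV d) a j = Hs (dN d') (dV d') a j :=
    fun a j hj => cl_Hs _ _ _ _ a j (fun i hi => eN i (by omega)) (fun i hi => eV i (by omega))
  have hI : ∀ a, ∀ j ≤ k + 1, Hs (dN d) (idl (dN d)) a j = Hs (dN d') (idl (dN d')) a j :=
    fun a j hj => cl_Hs _ _ _ _ a j (fun i hi => eN i (by omega)) (fun i hi => eI i (by omega))
  have hG : ∀ n, ∀ j ≤ k + 1, Gm (dN d) n j = Gm (dN d') n j :=
    fun n j hj => cl_Gm _ _ n j (fun i hi => eN i (by omega))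
  refine ⟨?_, ?_, ?_, ?_, ?_, ?_, ?_, ?_, ?_⟩
  · rw [← hMp, ← eN k le_rfl]; exact hC.c0
  · rw [← eN k le_rfl]; exact hC.c0'
  · rw [← eN k le_rfl, ← eM k le_rfl]; exact hC.c0''
  · intro a z h1 h2
    rw [← hf _ (k + 1) le_rfl, ← hf _ k (by omega)]
    exact hC.c1 a z h1 h2
  · intro a z h1 h2
    rw [← hf _ (k + 1) le_rfl, ← hf _ k (by omega)]
    exact hC.c1' a z h1 h2
  · intro a p
    rw [← hV _ (k + 1) le_rfl, ← hV _ k (by omega), ← hI _ (k + 1) le_rfl, ← hI _ k (by omega)]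
    exact hC.c2 a p
  · intro a p
    rw [← hV _ (k + 1) le_rfl, ← hV _ k (by omega), ← hI _ (k + 1) le_rfl, ← hI _ k (by omega)]
    exact hC.c2' a p
  · intro n hn p hp t ht
    rw [← hMp, ← eM k le_rfl] at ht
    rw [← hG _ (k + 1) le_rfl]
    exact hC.c3 n hn p hp t ht
  · intro n hn p hp
    rw [← hG _ (k + 1) le_rfl]
    exact hC.c4 n hn p hp

end

section

theorem x16276_sinF (A : ℝ) (N : ℕ) (x : ℝ) :
    sinF A N (x : T1) = A * Real.sin (2 * Real.pi * 2 ^ N * x) := by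
  simp only [sinF, ContinuousMap.coe_mk]
  rw [fourier_coe_apply]
  have e : (2 * Real.pi * Complex.I * ((2 ^ N : ℤ) : ℂ) * (x : ℂ) / ((1 : ℝ) : ℂ))
      = ((2 * Real.pi * 2 ^ N * x : ℝ) : ℂ) * Complex.I := by push_cast; ring
  rw [e, Complex.exp_ofReal_mul_I_im]

theorem x16276_dl (N : ℕ) (hN : 2 ≤ N) : 0 < dl N ∧ dl N ≤ 1 / 4 := by
  refine ⟨by unfold dl; positivity, ?_⟩
  unfold dl
  calc ((1 : ℝ) / 2) ^ N ≤ (1 / 2) ^ 2 := pow_le_pow_of_le_one (by norm_num) (by norm_num) hN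
    _ = 1 / 4 := by norm_num

theorem x16276_me (N : ℕ) (hN : 2 ≤ N) (t : ℝ) :
    me N ((t : T1), 0) = (((t + dl (N + 1) : ℝ) : T1),
      2 * amp N * Real.sin (2 * Real.pi * 2 ^ N * t)) := by
  obtain ⟨hd0, hd4⟩ := x16276_dl N hN
  have hA : 0 < amp N := by unfold amp; linarith
  have hs : |amp N * Real.sin (2 * Real.pi * 2 ^ N * t)| ≤ amp N := by
    rw [abs_mul, abs_of_pos hA]
    have := Real.abs_sin_le_one (2 * Real.pi * 2 ^ N * t)
    nlinarith
  have hpl : plat N |amp N * Real.sin (2 * Real.pi * 2 ^ N * t)| = 1 := by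
    unfold plat
    have h1 : 1 ≤ (1 / 4 + dl N / 2 - |amp N * Real.sin (2 * Real.pi * 2 ^ N * t)|) / dl N := by
      rw [le_div_iff₀ hd0]
      have : amp N = 1 / 4 - dl N / 2 := rfl
      linarith
    rw [min_eq_left h1]
    norm_num
  have hshift : Real.sin (2 * Real.pi * 2 ^ N * (t + dl (N + 1))) =
      - Real.sin (2 * Real.pi * 2 ^ N * t) := by
    have : 2 * Real.pi * 2 ^ N * (t + dl (N + 1)) = 2 * Real.pi * 2 ^ N * t + Real.pi := by
      have h2 : (2 : ℝ) ^ N * dl (N + 1) = 1 / 2 := by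
        unfold dl
        rw [pow_succ, ← mul_assoc, ← mul_pow]
        norm_num
      have : 2 * Real.pi * 2 ^ N * (t + dl (N + 1)) =
          2 * Real.pi * 2 ^ N * t + 2 * Real.pi * (2 ^ N * dl (N + 1)) := by ring
      rw [this, h2]
      ring
    rw [this, Real.sin_add_pi]
  have h1 : mv N ((t : T1), 0) = ((t : T1), amp N * Real.sin (2 * Real.pi * 2 ^ N * t)) := by
    show (((t : T1), (0 : ℝ) + sinF (amp N) N (t : T1)) : A1) = _
    rw [x16276_sinF, zero_add]
  have h2 : mh N ((t : T1), amp N * Real.sin (2 * Real.pi * 2 ^ N * t)) =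
      (((t + dl (N + 1) : ℝ) : T1), amp N * Real.sin (2 * Real.pi * 2 ^ N * t)) := by
    show (((t : T1) + ((dl (N + 1) * plat N |amp N * Real.sin (2 * Real.pi * 2 ^ N * t)| : ℝ) : T1),
      amp N * Real.sin (2 * Real.pi * 2 ^ N * t)) : A1) = _
    rw [hpl, mul_one]
    rfl
  have h3 : (mv N)⁻¹ (((t + dl (N + 1) : ℝ) : T1), amp N * Real.sin (2 * Real.pi * 2 ^ N * t)) =
      (((t + dl (N + 1) : ℝ) : T1), 2 * amp N * Real.sin (2 * Real.pi * 2 ^ N * t)) := by
    show ((((t + dl (N + 1) : ℝ) : T1), amp N * Real.sin (2 * Real.pi * 2 ^ N * t) -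
      sinF (amp N) N ((t + dl (N + 1) : ℝ) : T1)) : A1) = _
    rw [x16276_sinF, hshift]
    congr 1
    ring
  show (mv N)⁻¹ (mh N (mv N ((t : T1), 0))) = _
  rw [h1, h2, h3]

-- density of the image of the central circle
theorem me_dense (N : ℕ) (hN : 2 ≤ N) (p : A1) (hp : |p.2| ≤ 1 / 2) :
    ∃ θ : T1, dist (me N (θ, 0)) p ≤ dl N := by
  obtain ⟨hd0, hd4⟩ := x16276_dl N hN
  obtain ⟨θs, xs⟩ := p
  have hp' : |xs| ≤ 1 / 2 := hp
  obtain ⟨ts, rfl⟩ : ∃ ts : ℝ, (ts : T1) = θs := QuotientAddGroup.mk_surjective θs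
  have hAd : amp N = 1 / 4 - dl N / 2 := rfl
  have hA : 0 < amp N := by rw [hAd]; linarith
  set s : ℝ := max (-1) (min 1 (xs / (2 * amp N))) with hs
  have hs1 : -1 ≤ s := le_max_left _ _
  have hs2 : s ≤ 1 := max_le (by norm_num) (min_le_left _ _)
  have hdist : |2 * amp N * s - xs| ≤ dl N := by
    have h2A : 0 < 2 * amp N := by linarith
    have hx := abs_le.mp hp'
    rcases le_total (xs / (2 * amp N)) 1 with h1 | h1
    · rcases le_total (-1) (xs / (2 * amp N)) with h2 | h2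
      · have : s = xs / (2 * amp N) := by
          rw [hs, min_eq_right h1, max_eq_right h2]
        rw [this, mul_div_cancel₀ _ h2A.ne', sub_self, abs_zero]
        exact hd0.le
      · have h3 : s = -1 := by
          rw [hs, min_eq_right h1, max_eq_left h2]
        rw [div_le_iff₀ h2A] at h2
        rw [h3, abs_le]
        constructor <;> linarith
    · have h3 : s = 1 := by
        rw [hs, min_eq_left h1, max_eq_right (by norm_num)]
      rw [le_div_iff₀ h2A] at h1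
      rw [h3, abs_le]
      constructor <;> linarith
  have hq : (0 : ℝ) < 2 ^ N := by positivity
  have hpi := Real.pi_pos
  set m : ℤ := round ((2 : ℝ) ^ N * ts - 1 / 2 - Real.arcsin s / (2 * Real.pi)) with hm
  set t : ℝ := (Real.arcsin s / (2 * Real.pi) + m) / 2 ^ N with ht
  have hsin : Real.sin (2 * Real.pi * 2 ^ N * t) = s := by
    have h1 : 2 * Real.pi * 2 ^ N * t = Real.arcsin s + m * (2 * Real.pi) := by
      rw [ht]
      field_simp
    rw [h1, Real.sin_add_int_mul_two_pi, Real.sin_arcsin hs1 hs2]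
  refine ⟨(t : T1), ?_⟩
  rw [x16276_me N hN, hsin, Prod.dist_eq]
  refine max_le ?_ ?_
  · show dist (((t + dl (N + 1) : ℝ) : T1)) ((ts : ℝ) : T1) ≤ dl N
    rw [dist_eq_norm, ← AddCircle.coe_sub, UnitAddCircle.norm_eq]
    refine (round_le _ 0).trans ?_
    rw [Int.cast_zero, sub_zero]
    have hdl : dl (N + 1) = 1 / 2 / 2 ^ N := by
      unfold dl
      rw [pow_succ, one_div_pow]
      ring
    have hdlN : dl N = 1 / 2 ^ N := by
      unfold dl
      rw [one_div_pow]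
    have h1 : t + dl (N + 1) - ts =
        - (((2 : ℝ) ^ N * ts - 1 / 2 - Real.arcsin s / (2 * Real.pi)) - m) / 2 ^ N := by
      rw [hdl, ht]
      field_simp
      ring
    rw [h1, abs_div, abs_neg, abs_of_pos hq, hdlN]
    have h2 := abs_sub_round ((2 : ℝ) ^ N * ts - 1 / 2 - Real.arcsin s / (2 * Real.pi))
    rw [← hm] at h2
    exact div_le_div_of_nonneg_right (h2.trans (by norm_num)) hq.le
  · show dist (2 * amp N * s) xs ≤ dl N
    rw [Real.dist_eq]
    exact hdist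

end

section

theorem h74_sinF_le (A : ℝ) (hA : 0 ≤ A) (N : ℕ) (θ : T1) : |sinF A N θ| ≤ A := by
  show |A * (fourier ((2 : ℤ) ^ N) θ).im| ≤ A
  rw [abs_mul, abs_of_nonneg hA]
  have h1 : |(fourier ((2 : ℤ) ^ N) θ).im| ≤ 1 := by
    refine (Complex.abs_im_le_norm _).trans ?_
    rw [fourier_apply]
    exact (Circle.norm_coe _).le
  nlinarith [abs_nonneg (fourier ((2 : ℤ) ^ N) θ).im]

theorem h74_me_apply (N : ℕ) (p : A1) : me N p =
    (p.1 + ((dl (N + 1) * plat N |p.2 + sinF (amp N) N p.1| : ℝ) : T1),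
      (p.2 + sinF (amp N) N p.1) - sinF (amp N) N
        (p.1 + ((dl (N + 1) * plat N |p.2 + sinF (amp N) N p.1| : ℝ) : T1))) := rfl

theorem h74_me_cases (N : ℕ) (hN : 2 ≤ N) (p : A1) :
    (me N p).2 = p.2 ∨ (|p.2| < 1 / 2 ∧ |(me N p).2| < 1 / 2) := by
  have hd0 : 0 < dl N := by unfold dl; positivity
  have hd : dl N ≤ 1 / 4 := by
    unfold dl
    calc ((1 : ℝ) / 2) ^ N ≤ (1 / 2) ^ 2 := pow_le_pow_of_le_one (by norm_num) (by norm_num) hN
      _ = 1 / 4 := by norm_num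
  have hA : amp N = 1 / 4 - dl N / 2 := rfl
  have hA0 : 0 ≤ amp N := by rw [hA]; linarith
  rw [h74_me_apply]
  set y : ℝ := p.2 + sinF (amp N) N p.1 with hy
  set θ' : T1 := p.1 + ((dl (N + 1) * plat N |y| : ℝ) : T1) with hθ'
  have hb1 := abs_le.1 (h74_sinF_le (amp N) hA0 N p.1)
  have hb2 := abs_le.1 (h74_sinF_le (amp N) hA0 N θ')
  rcases le_or_gt (1 / 4 + dl N / 2) |y| with h | h
  · left
    have hp : plat N |y| = 0 := by
      unfold plat
      refine max_eq_left ?_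
      refine (min_le_right _ _).trans ?_
      exact div_nonpos_of_nonpos_of_nonneg (by linarith) hd0.le
    have hθ : θ' = p.1 := by
      rw [hθ', hp, mul_zero]
      simp
    show y - sinF (amp N) N θ' = p.2
    rw [hθ, hy]
    ring
  · right
    have hy' := abs_lt.1 h
    refine ⟨?_, ?_⟩
    · rw [abs_lt]
      constructor <;> linarith [hb1.1, hb1.2, hy'.1, hy'.2]
    · show |y - sinF (amp N) N θ'| < 1 / 2
      rw [abs_lt]
      constructor <;> linarith [hb2.1, hb2.2, hy'.1, hy'.2]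

theorem strip_me (N : ℕ) (hN : 2 ≤ N) : Strip (me N) := by
  constructor
  · intro p
    rcases h74_me_cases N hN p with h | ⟨h1, h2⟩
    · rw [h]
    · exact ⟨fun _ => h2.le, fun _ => h1.le⟩
  · intro p
    rcases h74_me_cases N hN p with h | ⟨h1, h2⟩
    · rw [h]
    · exact ⟨fun _ => h2, fun _ => h1⟩

theorem strip_Gm (N : ℕ → ℕ) (n k : ℕ) (hN : ∀ i < k, 2 ≤ N i) : Strip (Gm N n k) := by
  induction k with
  | zero => exact ⟨fun p => Iff.rfl, fun p => Iff.rfl⟩
  | succ k ih =>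
    have ih' := ih (fun i hi => hN i (by omega))
    have hs : Strip (if n < k then me (N k) else 1) := by
      split_ifs
      · exact strip_me (N k) (hN k (by omega))
      · exact ⟨fun p => Iff.rfl, fun p => Iff.rfl⟩
    refine ⟨fun p => ?_, fun p => ?_⟩
    · exact (hs.1 p).trans (ih'.1 _)
    · exact (hs.2 p).trans (ih'.2 _)

end

section

theorem choose_N_aux (G : ℕ → (A1 ≃ₜ A1)) (k : ℕ) (ε : ℝ) (hε : 0 < ε) :
    ∃ δ > 0, ∀ n < k, ∀ x y : A1, |x.2| ≤ 1 → |y.2| ≤ 1 → dist x y < δ →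
      dist (G n x) (G n y) < ε := by
  induction k with
  | zero => exact ⟨1, one_pos, fun n hn => absurd hn (Nat.not_lt_zero n)⟩
  | succ k ih =>
    obtain ⟨δ, hδ, h⟩ := ih
    have hK : IsCompact ((Set.univ : Set T1) ×ˢ (Set.Icc (-1 : ℝ) 1)) :=
      isCompact_univ.prod isCompact_Icc
    have hu := hK.uniformContinuousOn_of_continuous (G k).continuous.continuousOn
    rw [Metric.uniformContinuousOn_iff] at hu
    obtain ⟨δ', hδ', h'⟩ := hu ε hε
    refine ⟨min δ δ', lt_min hδ hδ', ?_⟩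
    intro n hn x y hx hy hxy
    rcases Nat.lt_succ_iff_lt_or_eq.mp hn with h1 | h1
    · exact h n h1 x y hx hy (lt_of_lt_of_le hxy (min_le_left _ _))
    · subst h1
      exact h' x ⟨Set.mem_univ _, abs_le.mp hx⟩ y ⟨Set.mem_univ _, abs_le.mp hy⟩
        (lt_of_lt_of_le hxy (min_le_right _ _))

theorem choose_N (G : ℕ → (A1 ≃ₜ A1)) (hG : ∀ n, Strip (G n)) (k N0 : ℕ) (ε : ℝ) (hε : 0 < ε) :
    ∃ N ≥ N0, ∀ n < k, ∀ p : A1, |p.2| ≤ 1 / 2 →
      ∃ θ : T1, dist ((G n * me N) (θ, 0)) p ≤ ε := by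
  obtain ⟨δ, hδ, h⟩ := choose_N_aux G k ε hε
  obtain ⟨N1, hN1⟩ := exists_pow_lt_of_lt_one hδ (by norm_num : (1 / 2 : ℝ) < 1)
  refine ⟨max N0 (max N1 2), le_max_left _ _, ?_⟩
  set N := max N0 (max N1 2) with hN
  have hN1' : N1 ≤ N := le_trans (le_max_left _ _) (le_max_right _ _)
  have hN2' : 2 ≤ N := le_trans (le_max_right _ _) (le_max_right _ _)
  have hdl1 : dl N < δ := by
    unfold dl
    exact lt_of_le_of_lt (pow_le_pow_of_le_one (by norm_num) (by norm_num) hN1') hN1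
  have hdl2 : dl N ≤ 1 / 4 := by
    unfold dl
    calc ((1 / 2 : ℝ)) ^ N ≤ (1 / 2) ^ 2 :=
          pow_le_pow_of_le_one (by norm_num) (by norm_num) hN2'
      _ = 1 / 4 := by norm_num
  intro n hn p hp
  have hGq : G n ((G n).symm p) = p := (G n).apply_symm_apply p
  have hq : |((G n).symm p).2| ≤ 1 / 2 := by
    rw [(hG n).1 ((G n).symm p), hGq]
    exact hp
  obtain ⟨θ, hθ⟩ := me_dense N hN2' ((G n).symm p) hq
  refine ⟨θ, ?_⟩
  have hle : |(me N (θ, 0)).2| ≤ 1 := by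
    have h1 : dist (me N (θ, 0)).2 ((G n).symm p).2 ≤ dl N :=
      le_trans (le_max_right _ _) hθ
    rw [Real.dist_eq] at h1
    have h2 := abs_add_le ((me N (θ, 0)).2 - ((G n).symm p).2) ((G n).symm p).2
    rw [sub_add_cancel] at h2
    linarith
  have h3 := h n hn (me N (θ, 0)) ((G n).symm p) hle (by linarith) (lt_of_le_of_lt hθ hdl1)
  rw [hGq] at h3
  exact h3.le

end

section

theorem span_ext (P : C(T1, ℂ)) (hP : P ∈ Submodule.span ℂ (Set.range (@fourier 1))) :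
    ∃ h h' : ℂ → ℂ, Differentiable ℂ h ∧ Differentiable ℂ h' ∧ (∀ z, h (z + 1) = h z) ∧
      (∀ z, h' (z + 1) = h' z) ∧ (∀ x : ℝ, h (x : ℂ) = P ((x : ℝ) : T1)) ∧
      (∀ x : ℝ, h' (x : ℂ) = (starRingEnd ℂ) (P ((x : ℝ) : T1))) := by
  induction hP using Submodule.span_induction with
  | mem P hP =>
    obtain ⟨n, rfl⟩ := hP
    refine ⟨fun z => Complex.exp (2 * Real.pi * Complex.I * n * z),
      fun z => Complex.exp (-(2 * Real.pi * Complex.I * n * z)), by fun_prop, by fun_prop, ?_, ?_, ?_, ?_⟩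
    · intro z
      have e : (2 * Real.pi * Complex.I * n * (z + 1) : ℂ) =
        2 * Real.pi * Complex.I * n * z + n * (2 * Real.pi * Complex.I) := by ring
      simp only [e]
      rw [Complex.exp_add, Complex.exp_int_mul_two_pi_mul_I, mul_one]
    · intro z
      have e : (-(2 * Real.pi * Complex.I * n * (z + 1)) : ℂ) =
        -(2 * Real.pi * Complex.I * n * z) + ((-n : ℤ) : ℂ) * (2 * Real.pi * Complex.I) := by
        push_cast; ring
      simp only [e]
      rw [Complex.exp_add, Complex.exp_int_mul_two_pi_mul_I, mul_one]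
    · intro x
      rw [fourier_coe_apply]
      push_cast; ring_nf
    · intro x
      rw [fourier_coe_apply, ← Complex.exp_conj]
      simp only [map_div₀, map_mul, Complex.conj_ofReal, Complex.conj_I, map_ofNat, map_intCast]
      push_cast; ring_nf
  | zero =>
    exact ⟨fun _ => 0, fun _ => 0, by fun_prop, by fun_prop, fun _ => rfl, fun _ => rfl,
      fun _ => rfl, fun _ => by simp⟩
  | add P R _ _ h1 h2 =>
    obtain ⟨a, a', ha, ha', b1, b2, b3, b4⟩ := h1
    obtain ⟨c, c', hc, hc', d1, d2, d3, d4⟩ := h2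
    refine ⟨fun z => a z + c z, fun z => a' z + c' z, ha.add hc, ha'.add hc', ?_, ?_, ?_, ?_⟩
    · intro z; simp only [b1, d1]
    · intro z; simp only [b2, d2]
    · intro x; simp only [b3, d3, ContinuousMap.add_apply]
    · intro x; simp only [b4, d4, ContinuousMap.add_apply, map_add]
  | smul k P _ h1 =>
    obtain ⟨a, a', ha, ha', b1, b2, b3, b4⟩ := h1
    refine ⟨fun z => k * a z, fun z => (starRingEnd ℂ) k * a' z, ha.const_mul k,
      ha'.const_mul _, ?_, ?_, ?_, ?_⟩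
    · intro z; simp only [b1]
    · intro z; simp only [b2]
    · intro x; simp only [b3, ContinuousMap.smul_apply, smul_eq_mul]
    · intro x; simp only [b4, ContinuousMap.smul_apply, smul_eq_mul, map_mul]

theorem trig (v : C(T1, ℝ)) (ε : ℝ) (hε : 0 < ε) : ∃ p : EP, ∀ y, |p.r y - v y| ≤ ε := by
  let vC : C(T1, ℂ) := ⟨fun y => ((v y : ℝ) : ℂ), Complex.continuous_ofReal.comp v.continuous⟩
  have hmem : vC ∈ closure ((Submodule.span ℂ (Set.range (@fourier 1)) : Submodule ℂ C(T1, ℂ)) : Set C(T1, ℂ)) := by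
    have h := span_fourier_closure_eq_top (T := 1)
    have h2 : vC ∈ (Submodule.span ℂ (Set.range (@fourier 1))).topologicalClosure := by
      rw [h]; trivial
    exact h2
  obtain ⟨P, hP, hd⟩ := Metric.mem_closure_iff.1 hmem ε hε
  obtain ⟨h, h', e1, e2, e3, e4, e5, e6⟩ := span_ext P hP
  refine ⟨⟨fun z => (h z + h' z) / 2, ⟨fun y => (P y).re, Complex.continuous_re.comp P.continuous⟩,
    (e1.add e2).div_const 2, fun z => by simp only [e3, e4], fun x => ?_⟩, fun y => ?_⟩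
  · simp only [e5, e6, ContinuousMap.coe_mk]
    rw [Complex.add_conj]
    push_cast; ring
  · simp only [ContinuousMap.coe_mk]
    have h1 : ‖P y - vC y‖ ≤ dist vC P := by
      rw [dist_comm, dist_eq_norm]
      exact (P - vC).norm_coe_le_norm y
    have h2 : |((P y - vC y)).re| ≤ ‖P y - vC y‖ := Complex.abs_re_le_norm _
    have h3 : (P y - vC y).re = (P y).re - v y := by
      simp [vC]
    rw [h3] at h2
    linarith

end

section

theorem unif_JC (Φ : Pm → (T2 ≃ₜ T2)) (hΦ : JC Φ) (ε : ℝ) (hε : 0 < ε) :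
    ∃ ρ > 0, ∀ (a : Pm) (p q : T2), dist p q ≤ ρ → dist (Φ a p) (Φ a q) ≤ ε := by
  have hc : Continuous (fun x : Pm × (T2 × T2) => dist (Φ x.1 x.2.1) (Φ x.1 x.2.2)) := by
    have h1 : Continuous (fun x : Pm × (T2 × T2) => Φ x.1 x.2.1) :=
      hΦ.1.comp (f := fun x : Pm × (T2 × T2) => (x.1, x.2.1)) (by fun_prop)
    have h2 : Continuous (fun x : Pm × (T2 × T2) => Φ x.1 x.2.2) :=
      hΦ.1.comp (f := fun x : Pm × (T2 × T2) => (x.1, x.2.2)) (by fun_prop)
    exact h1.dist h2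
  have hS : IsCompact {x : Pm × (T2 × T2) | ε ≤ dist (Φ x.1 x.2.1) (Φ x.1 x.2.2)} :=
    (isClosed_le continuous_const hc).isCompact
  have hd : Continuous (fun x : Pm × (T2 × T2) => dist x.2.1 x.2.2) := by fun_prop
  rcases {x : Pm × (T2 × T2) | ε ≤ dist (Φ x.1 x.2.1) (Φ x.1 x.2.2)}.eq_empty_or_nonempty
    with he | hne
  · refine ⟨1, one_pos, ?_⟩
    intro a p q _
    by_contra hcon
    push Not at hcon
    have : (a, (p, q)) ∈ {x : Pm × (T2 × T2) | ε ≤ dist (Φ x.1 x.2.1) (Φ x.1 x.2.2)} := hcon.le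
    rw [he] at this
    exact this
  · obtain ⟨x, hx, hmin⟩ := hS.exists_isMinOn hne hd.continuousOn
    have hpos : 0 < dist x.2.1 x.2.2 := by
      rw [dist_pos]
      intro h
      have h2 : ε ≤ dist (Φ x.1 x.2.1) (Φ x.1 x.2.2) := hx
      rw [h, dist_self] at h2
      linarith
    refine ⟨dist x.2.1 x.2.2 / 2, by positivity, ?_⟩
    intro a p q hpq
    by_contra hcon
    push Not at hcon
    have h1 : (a, (p, q)) ∈ {x : Pm × (T2 × T2) | ε ≤ dist (Φ x.1 x.2.1) (Φ x.1 x.2.2)} := hcon.le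
    have h2 := isMinOn_iff.1 hmin (a, (p, q)) h1
    dsimp only at h2
    linarith

end

section

theorem ec_norm_le (x : ℝ) : ‖((x : ℝ) : T1)‖ ≤ |x| := by
  have := QuotientAddGroup.norm_mk_le_norm (S := AddSubgroup.zmultiples (1:ℝ)) (m := x)
  simpa using this

theorem el_close (b v : C(T1, ℝ)) (ε : ℝ) (hε : 0 < ε) :
    ∃ ρ > 0, ∀ u : C(T1, ℝ), (∀ y, |u y - v y| ≤ ρ) → ∀ (a : T1) (p : T2),
      dist (el b u a ((el b v a)⁻¹ p)) p ≤ ε := by
  have huc : UniformContinuous (vsh b).symm :=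
    CompactSpace.uniformContinuous_of_continuous (vsh b).symm.continuous
  obtain ⟨ρ₀, hρ₀, h⟩ := Metric.uniformContinuous_iff.1 huc ε hε
  refine ⟨ρ₀ / 2, by positivity, fun u hu a p => ?_⟩
  have h1 : el b u a ((el b v a)⁻¹ p)
      = (vsh b).symm (hsh u a ((hsh v a).symm (vsh b p))) := by
    change (vsh b).symm (hsh u a (vsh b ((vsh b).symm ((hsh v a).symm (vsh b p))))) = _
    rw [Homeomorph.apply_symm_apply]
  have h2 : p = (vsh b).symm (vsh b p) := by rw [Homeomorph.symm_apply_apply]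
  rw [h1]
  conv_lhs => rw [h2]
  rw [Homeomorph.apply_symm_apply]
  apply le_of_lt
  apply h
  generalize vsh b p = q
  have h3 : hsh u a ((hsh v a).symm q)
      = (q.1 - ((v (q.2 - a) : ℝ) : T1) + ((u (q.2 - a) : ℝ) : T1), q.2) := rfl
  rw [h3, Prod.dist_eq]
  have h4 : dist (q.1 - ((v (q.2 - a) : ℝ) : T1) + ((u (q.2 - a) : ℝ) : T1)) q.1 ≤ ρ₀ / 2 := by
    rw [dist_eq_norm]
    have h5 : q.1 - ((v (q.2 - a) : ℝ) : T1) + ((u (q.2 - a) : ℝ) : T1) - q.1
        = ((u (q.2 - a) - v (q.2 - a) : ℝ) : T1) := by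
      rw [AddCircle.coe_sub]
      abel
    rw [h5]
    exact (ec_norm_le _).trans (hu _)
  simp only [dist_self]
  exact max_lt (by linarith) hρ₀

end

section

theorem pr_congr_h433 (N : ℕ) (v v' : ℕ → C(T1, ℝ)) (a : ℕ → T1) (j : ℕ)
    (h : ∀ n < j, v n = v' n) : pr N v a j = pr N v' a j := by
  induction j with
  | zero => rfl
  | succ j ih =>
    simp only [pr]
    rw [ih (fun n hn => h n (hn.trans (Nat.lt_succ_self j))), h j (Nat.lt_succ_self j)]

theorem pr_close (N : ℕ) (v : ℕ → C(T1, ℝ)) (j : ℕ) (ε : ℝ) (hε : 0 < ε) :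
    ∃ u : ℕ → EP, ∀ (a : Pm) (p : T2),
      dist (pr N (fun n => (u n).r) (cT a) j ((pr N v (cT a) j)⁻¹ p)) p ≤ ε := by
  classical
  induction j generalizing ε with
  | zero =>
    refine ⟨fun _ => sinE 0 0, fun a p => ?_⟩
    have : dist (pr N (fun n => ((fun _ => sinE 0 0 : ℕ → EP) n).r) (cT a) 0
      ((pr N v (cT a) 0)⁻¹ p)) p = 0 := dist_self p
    rw [this]
    exact hε.le
  | succ j ih =>
    obtain ⟨u, hu⟩ := ih (ε / 2) (half_pos hε)
    obtain ⟨ρ, hρ, hunif⟩ := unif_JC _ (jc_pr N (fun n => (u n).r) j) (ε / 2) (half_pos hε)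
    obtain ⟨ρ', hρ', hel⟩ := el_close (sinF (ll j * amp N) N) (v j) ρ hρ
    obtain ⟨q, hq⟩ := trig (v j) ρ' hρ'
    refine ⟨Function.update u j q, fun a p => ?_⟩
    have hc : pr N (fun n => ((Function.update u j q) n).r) (cT a) j =
        pr N (fun n => (u n).r) (cT a) j := by
      apply pr_congr_h433
      intro n hn
      show ((Function.update u j q) n).r = (u n).r
      rw [Function.update_of_ne hn.ne]
    have h1 : pr N (fun n => ((Function.update u j q) n).r) (cT a) (j + 1) =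
        pr N (fun n => (u n).r) (cT a) j * el (sinF (ll j * amp N) N) q.r (cT a j) := by
      show pr N (fun n => ((Function.update u j q) n).r) (cT a) j *
        el (sinF (ll j * amp N) N) ((Function.update u j q) j).r (cT a j) = _
      rw [hc, Function.update_self]
    have h2 : pr N v (cT a) (j+1) =
        pr N v (cT a) j * el (sinF (ll j * amp N) N) (v j) (cT a j) := rfl
    rw [h1, h2, mul_inv_rev]
    show dist (pr N (fun n => (u n).r) (cT a) j (el (sinF (ll j * amp N) N) q.r (cT a j)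
      ((el (sinF (ll j * amp N) N) (v j) (cT a j))⁻¹ ((pr N v (cT a) j)⁻¹ p)))) p ≤ ε
    refine (dist_triangle _ (pr N (fun n => (u n).r) (cT a) j ((pr N v (cT a) j)⁻¹ p)) _).trans ?_
    have h3 := hunif a _ _ (hel q.r hq (cT a j) ((pr N v (cT a) j)⁻¹ p))
    have h4 := hu a p
    linarith

end

section

theorem choose_u (N : ℕ) (Φ Ψ : Pm → (T2 ≃ₜ T2)) (hΦ : JC Φ) (hΨ : JC Ψ) (k : ℕ)
    (ε : ℝ) (hε : 0 < ε) :
    ∃ u : ℕ → EP, ∀ (a : Pm) (p : T2),
      dist (Φ a (pr N (fun n => (u n).r) (cT a) k ((pr N (bump N) (cT a) k)⁻¹ p))) (Φ a p) ≤ ε ∧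
      dist (Ψ a (pr N (bump N) (cT a) k ((pr N (fun n => (u n).r) (cT a) k)⁻¹ p))) (Ψ a p) ≤ ε := by
  obtain ⟨ρ1, hρ1, h1⟩ := unif_JC Φ hΦ ε hε
  obtain ⟨ρ2, hρ2, h2⟩ := unif_JC Ψ hΨ ε hε
  obtain ⟨u, hu⟩ := pr_close N (bump N) k (min ρ1 ρ2) (lt_min hρ1 hρ2)
  refine ⟨u, fun a p => ⟨?_, ?_⟩⟩
  · exact h1 a _ _ ((hu a p).trans (min_le_left _ _))
  · apply h2 a
    generalize hg : pr N (fun n => (u n).r) (cT a) k = g
    generalize hh : pr N (bump N) (cT a) k = h
    have hu' := hu a (h (g⁻¹ p))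
    rw [hg, hh] at hu'
    have e1 : h⁻¹ (h (g⁻¹ p)) = g⁻¹ p := Homeomorph.symm_apply_apply h _
    have e2 : g (g⁻¹ p) = p := Homeomorph.apply_symm_apply g p
    rw [e1, e2, dist_comm] at hu'
    exact hu'.trans (min_le_right _ _)

end

section

theorem choose_M (Φ : Pm → (C2 ≃ₜ C2)) (hΦ : JC Φ) (hE : ∀ a, Equi (Φ a) ∧ Equi ⇑(Φ a)⁻¹)
    (α R ε : ℝ) (hε : 0 < ε) :
    ∃ t0 > 0, ∀ t : ℝ, |t| ≤ t0 → ∀ (a : Pm) (z : C2), |z.1.im| ≤ R → |z.2.im| ≤ R →
      ‖(Φ a * rotC (α + t) * (Φ a)⁻¹) z - (Φ a * rotC α * (Φ a)⁻¹) z‖ ≤ ε := by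
  obtain ⟨h1, h2⟩ := hΦ
  let F : ℝ → Pm × C2 → C2 := fun t q => (Φ q.1 * rotC (α + t) * (Φ q.1)⁻¹) q.2
  have hF : Continuous (fun p : ℝ × (Pm × C2) => F p.1 p.2) := by
    have hw : Continuous (fun p : ℝ × (Pm × C2) => (Φ p.2.1)⁻¹ p.2.2) :=
      h2.comp continuous_snd
    have hr : Continuous (fun p : ℝ × (Pm × C2) =>
        (p.2.1, ((((Φ p.2.1)⁻¹ p.2.2).1 + ((α + p.1 : ℝ) : ℂ), ((Φ p.2.1)⁻¹ p.2.2).2) : C2))) := by
      refine Continuous.prodMk (continuous_fst.comp continuous_snd) (Continuous.prodMk ?_ ?_)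
      · refine (continuous_fst.comp hw).add ?_
        exact Complex.continuous_ofReal.comp (continuous_const.add continuous_fst)
      · exact continuous_snd.comp hw
    exact h1.comp hr
  let K : Set C2 := (Set.Icc (0 : ℝ) 1 ×ℂ Set.Icc (-R) R) ×ˢ (Set.Icc (0 : ℝ) 1 ×ℂ Set.Icc (-R) R)
  have hK : IsCompact K :=
    (isCompact_Icc.reProdIm isCompact_Icc).prod (isCompact_Icc.reProdIm isCompact_Icc)
  have hK0 : IsCompact ((Set.univ : Set Pm) ×ˢ K) := isCompact_univ.prod hK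
  have hev : ∀ᶠ t in 𝓝 (0 : ℝ), ∀ q ∈ (Set.univ : Set Pm) ×ˢ K, ‖F t q - F 0 q‖ < ε := by
    apply hK0.eventually_forall_of_forall_eventually
    intro q _
    have hc : Continuous (fun p : ℝ × (Pm × C2) => ‖F p.1 p.2 - F 0 p.2‖) := by
      refine (hF.sub ?_).norm
      exact hF.comp (continuous_const.prodMk continuous_snd)
    have h0 : (fun p : ℝ × (Pm × C2) => ‖F p.1 p.2 - F 0 p.2‖) (0, q) < ε := by
      simpa using hε
    exact hc.continuousAt.eventually_lt continuousAt_const h0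
  obtain ⟨δ, hδ, hδ2⟩ := Metric.eventually_nhds_iff.1 hev
  refine ⟨δ / 2, by positivity, ?_⟩
  intro t ht a z hz1 hz2
  have hdist : dist t 0 < δ := by
    rw [Real.dist_eq, sub_zero]
    linarith
  have key := hδ2 hdist
  let m : ℤ := ⌊z.1.re⌋
  let n : ℤ := ⌊z.2.re⌋
  let z0 : C2 := (z.1 - m, z.2 - n)
  have hzz : z = (z0.1 + m, z0.2 + n) := by
    apply Prod.ext <;> simp [z0]
  have hmem : (a, z0) ∈ (Set.univ : Set Pm) ×ˢ K := by
    refine ⟨Set.mem_univ _, ?_, ?_⟩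
    · rw [Complex.mem_reProdIm]
      refine ⟨⟨?_, ?_⟩, ⟨?_, ?_⟩⟩
      · simp only [z0, Complex.sub_re, Complex.intCast_re]
        have := Int.floor_le z.1.re
        simp only [m]
        linarith
      · simp only [z0, Complex.sub_re, Complex.intCast_re]
        have := Int.lt_floor_add_one z.1.re
        simp only [m]
        linarith
      · simp only [z0, Complex.sub_im, Complex.intCast_im, sub_zero]
        exact (abs_le.1 hz1).1
      · simp only [z0, Complex.sub_im, Complex.intCast_im, sub_zero]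
        exact (abs_le.1 hz1).2
    · rw [Complex.mem_reProdIm]
      refine ⟨⟨?_, ?_⟩, ⟨?_, ?_⟩⟩
      · simp only [z0, Complex.sub_re, Complex.intCast_re]
        have := Int.floor_le z.2.re
        simp only [n]
        linarith
      · simp only [z0, Complex.sub_re, Complex.intCast_re]
        have := Int.lt_floor_add_one z.2.re
        simp only [n]
        linarith
      · simp only [z0, Complex.sub_im, Complex.intCast_im, sub_zero]
        exact (abs_le.1 hz2).1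
      · simp only [z0, Complex.sub_im, Complex.intCast_im, sub_zero]
        exact (abs_le.1 hz2).2
  have hk := (key (a, z0) hmem).le
  have hform : ∀ β : ℝ, (Φ a * rotC β * (Φ a)⁻¹) z
      = (((Φ a * rotC β * (Φ a)⁻¹) z0).1 + m, ((Φ a * rotC β * (Φ a)⁻¹) z0).2 + n) := by
    intro β
    show Φ a (rotC β ((Φ a)⁻¹ z)) = ((Φ a (rotC β ((Φ a)⁻¹ z0))).1 + m,
      (Φ a (rotC β ((Φ a)⁻¹ z0))).2 + n)
    rw [hzz, (hE a).2 z0 m n, ← (hE a).1 (rotC β ((Φ a)⁻¹ z0)) m n]
    congr 1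
    show (((Φ a)⁻¹ z0).1 + m + (β : ℂ), ((Φ a)⁻¹ z0).2 + n)
      = (((Φ a)⁻¹ z0).1 + (β : ℂ) + m, ((Φ a)⁻¹ z0).2 + n)
    rw [add_right_comm]
  rw [hform (α + t), hform α]
  have hF0 : F 0 (a, z0) = (Φ a * rotC α * (Φ a)⁻¹) z0 := by
    simp only [F, add_zero]
  rw [hF0] at hk
  have e : ((((Φ a * rotC (α + t) * (Φ a)⁻¹) z0).1 + m,
        ((Φ a * rotC (α + t) * (Φ a)⁻¹) z0).2 + n) : C2)
      - (((Φ a * rotC α * (Φ a)⁻¹) z0).1 + m, ((Φ a * rotC α * (Φ a)⁻¹) z0).2 + n)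
      = (Φ a * rotC (α + t) * (Φ a)⁻¹) z0 - (Φ a * rotC α * (Φ a)⁻¹) z0 := by
    apply Prod.ext
    · simp
    · simp
  rw [e]
  exact hk

end

section

theorem choose_M' (G : A1 ≃ₜ A1) (ε : ℝ) (hε : 0 < ε) :
    ∃ t0 > 0, ∀ p : A1, |p.2| ≤ 1 / 2 → ∀ t : ℝ, |t| ≤ t0 →
      dist (G (p.1 + (t : T1), p.2)) (G p) ≤ ε := by
  have hc : Continuous fun q : ℝ × A1 => dist (G (q.2.1 + (q.1 : T1), q.2.2)) (G q.2) := by
    have h1 : Continuous fun q : ℝ × A1 => ((q.1 : ℝ) : T1) :=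
      (AddCircle.continuous_mk' 1).comp continuous_fst
    have h2 : Continuous fun q : ℝ × A1 => ((q.2.1 + (q.1 : T1), q.2.2) : A1) :=
      ((continuous_fst.comp continuous_snd).add h1).prodMk (continuous_snd.comp continuous_snd)
    exact (G.continuous.comp h2).dist (G.continuous.comp continuous_snd)
  have hK : IsCompact ((univ : Set T1) ×ˢ Icc (-(1 / 2) : ℝ) (1 / 2)) :=
    isCompact_univ.prod isCompact_Icc
  have hop : IsOpen {q : ℝ × A1 | dist (G (q.2.1 + (q.1 : T1), q.2.2)) (G q.2) < ε} :=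
    isOpen_lt hc continuous_const
  obtain ⟨u, v, hu, _, h0u, hKv, huv⟩ := generalized_tube_lemma (isCompact_singleton (x := (0 : ℝ)))
    hK hop (by
      rintro ⟨t, p⟩ ⟨ht, _⟩
      have ht0 : t = 0 := ht
      subst ht0
      show dist (G (p.1 + ((0 : ℝ) : T1), p.2)) (G p) < ε
      rw [AddCircle.coe_zero, add_zero, dist_self]
      exact hε)
  obtain ⟨δ, hδ, hb⟩ := Metric.isOpen_iff.1 hu 0 (h0u rfl)
  refine ⟨δ / 2, half_pos hδ, fun p hp t ht => ?_⟩
  have h1 : t ∈ u := hb (by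
    rw [Metric.mem_ball, Real.dist_eq, sub_zero]
    linarith)
  have h2 : p ∈ v := hKv ⟨mem_univ _, abs_le.1 hp⟩
  have h3 : ((t, p) : ℝ × A1) ∈ {q : ℝ × A1 | dist (G (q.2.1 + (q.1 : T1), q.2.2)) (G q.2) < ε} :=
    huv ⟨h1, h2⟩
  exact le_of_lt h3

end

section

theorem dN_up16288 (d : ℕ → D) (k : ℕ) (x : D) :
    dN (Function.update d k x) = Function.update (dN d) k x.N := by
  funext i
  unfold dN
  by_cases h : i = k
  · subst h; simp
  · simp [h]

theorem dM_up16288 (d : ℕ → D) (k : ℕ) (x : D) :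
    dM (Function.update d k x) = Function.update (dM d) k x.M := by
  funext i
  unfold dM
  by_cases h : i = k
  · subst h; simp
  · simp [h]

theorem dU_up16288 (d : ℕ → D) (k : ℕ) (x : D) :
    dU (Function.update d k x) = Function.update (dU d) k x.u := by
  funext i
  unfold dU
  by_cases h : i = k
  · subst h; simp
  · simp [h]

theorem dV_up16288 (d : ℕ → D) (k : ℕ) (x : D) :
    dV (Function.update d k x) = Function.update (dV d) k (fun n => (x.u n).r) := by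
  funext i
  unfold dV
  by_cases h : i = k
  · subst h; simp
  · simp [h]

theorem Gm_congr16288 {N N' : ℕ → ℕ} (n : ℕ) : ∀ k : ℕ, (∀ i < k, N i = N' i) →
    Gm N n k = Gm N' n k := by
  intro k
  induction k with
  | zero => intro _; rfl
  | succ k ih =>
    intro h
    show Gm N n k * (if n < k then me (N k) else 1) = Gm N' n k * (if n < k then me (N' k) else 1)
    rw [ih (fun i hi => h i (by omega)), h k (by omega)]

theorem Hs_congr16288 {N N' : ℕ → ℕ} {v v' : ℕ → ℕ → C(T1, ℝ)} (a : ℕ → T1) : ∀ k : ℕ,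
    (∀ i < k, N i = N' i) → (∀ i < k, v i = v' i) → Hs N v a k = Hs N' v' a k := by
  intro k
  induction k with
  | zero => intro _ _; rfl
  | succ k ih =>
    intro h h'
    show Hs N v a k * pr (N k) (v k) a k = Hs N' v' a k * pr (N' k) (v' k) a k
    rw [ih (fun i hi => h i (by omega)) (fun i hi => h' i (by omega)), h k (by omega),
      h' k (by omega)]

theorem al_congr16288 {M M' : ℕ → ℕ} : ∀ k : ℕ, (∀ i < k, M i = M' i) → al M k = al M' k := by
  intro k
  induction k with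
  | zero => intro _; rfl
  | succ k ih =>
    intro h
    show al M k + dl (M k) = al M' k + dl (M' k)
    rw [ih (fun i hi => h i (by omega)), h k (by omega)]

theorem Mp_congr16288 {M M' : ℕ → ℕ} (k : ℕ) (h : ∀ i < k, M i = M' i) : Mp M k = Mp M' k := by
  cases k with
  | zero => rfl
  | succ k => exact h k (by omega)

theorem min_seq16288 (t : ℕ → ℝ) (ht : ∀ n, 0 < t n) : ∀ k : ℕ, ∃ s > 0, ∀ n ≤ k, s ≤ t n := by
  intro k
  induction k with
  | zero =>
    refine ⟨t 0, ht 0, fun n hn => ?_⟩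
    have : n = 0 := by omega
    rw [this]
  | succ k ih =>
    obtain ⟨s, hs, hsk⟩ := ih
    refine ⟨min s (t (k + 1)), lt_min hs (ht _), fun n hn => ?_⟩
    rcases Nat.lt_or_ge n (k + 1) with h | h
    · exact le_trans (min_le_left _ _) (hsk n (by omega))
    · have : n = k + 1 := by omega
      rw [this]; exact min_le_right _ _

theorem rotC_inv16288 (s : ℝ) : (rotC s)⁻¹ = rotC (-s) := by
  apply Homeomorph.ext
  intro p
  show (p.1 - (s : ℂ), p.2) = (p.1 + ((-s : ℝ) : ℂ), p.2)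
  push_cast
  rw [sub_eq_add_neg]

theorem stage (k : ℕ) (d : ℕ → D) (h : ∀ i < k, Cond i d) :
    ∃ x, Cond k (Function.update d k x) := by
  have hε : (0 : ℝ) < (1 / 2) ^ k := by positivity
  have hExp : ExpoLt (dN d) (dM d) k := ⟨fun i hi => (h i hi).c0, fun i hi => (h i hi).c0''⟩
  -- choice of `N`
  obtain ⟨Nk, hNk, hN4⟩ := choose_N (fun n => Gm (dN d) n k)
    (fun n => strip_Gm (dN d) n k (fun i hi => le_trans (by omega) (h i hi).c0')) k
    (max (Mp (dM d) k) (k + 2)) ((1 / 2) ^ k) hε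
  have hNk1 : Mp (dM d) k ≤ Nk := le_trans (le_max_left _ _) hNk
  have hNk2 : k + 2 ≤ Nk := le_trans (le_max_right _ _) hNk
  -- choice of `u`
  obtain ⟨uk, huk⟩ := choose_u Nk (fun a => Hs (dN d) (dV d) (cT a) k)
    (fun a => Hs (dN d) (idl (dN d)) (cT a) k) (jc_Hs (dN d) (dV d) k)
    (jc_Hs (dN d) (idl (dN d)) k) k ((1 / 2) ^ k) hε
  obtain ⟨N', hN'⟩ : ∃ N' : ℕ → ℕ, N' = Function.update (dN d) k Nk := ⟨_, rfl⟩
  obtain ⟨U', hU'⟩ : ∃ U' : ℕ → ℕ → EP, U' = Function.update (dU d) k uk := ⟨_, rfl⟩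
  -- choice of `M`
  obtain ⟨t1, ht1, hM1⟩ := choose_M (fun a => HsC N' U' (cR a) (k + 1)) (jc_HsC N' U' (k + 1))
    (fun a => equi_HsC N' U' (cR a) (k + 1)) (al (dM d) k) k ((1 / 2) ^ k) hε
  obtain ⟨t2, ht2, hM2⟩ := choose_M (fun a => HsC N' U' (cR a) (k + 1)) (jc_HsC N' U' (k + 1))
    (fun a => equi_HsC N' U' (cR a) (k + 1)) (-(al (dM d) k)) k ((1 / 2) ^ k) hε
  choose t3 ht3 hM3 using fun n => choose_M' (Gm N' n (k + 1)) ((1 / 2) ^ k) hε
  obtain ⟨t4, ht4, hM4⟩ := min_seq16288 t3 ht3 k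
  obtain ⟨τ, hτ, hτ1, hτ2, hτ4⟩ : ∃ τ > 0, τ ≤ t1 ∧ τ ≤ t2 ∧ τ ≤ t4 :=
    ⟨min t1 (min t2 t4), lt_min ht1 (lt_min ht2 ht4), min_le_left _ _,
      le_trans (min_le_right _ _) (min_le_left _ _), le_trans (min_le_right _ _) (min_le_right _ _)⟩
  obtain ⟨Mk, hMk1, hMk2⟩ : ∃ Mk, Nk < Mk ∧ 2 ^ (Mp (dM d) k) * dl Mk ≤ τ := by
    have hp : (0 : ℝ) < 2 ^ (Mp (dM d) k) := by positivity
    obtain ⟨m, hm⟩ := exists_pow_lt_of_lt_one (div_pos hτ hp) (by norm_num : (1 / 2 : ℝ) < 1)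
    refine ⟨m + Nk + 1, by omega, ?_⟩
    have h1 : dl (m + Nk + 1) ≤ (1 / 2) ^ m := by
      unfold dl
      exact pow_le_pow_of_le_one (by norm_num) (by norm_num) (by omega)
    have h2 : dl (m + Nk + 1) ≤ τ / 2 ^ (Mp (dM d) k) := le_trans h1 hm.le
    rw [le_div_iff₀ hp] at h2
    linarith
  have hdl : 0 < dl Mk := by unfold dl; positivity
  have hdlτ : dl Mk ≤ τ := by
    have h1 : (1 : ℝ) ≤ 2 ^ (Mp (dM d) k) := one_le_pow₀ (by norm_num)
    have h2 := mul_le_mul_of_nonneg_right h1 hdl.le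
    linarith
  obtain ⟨M', hM'⟩ : ∃ M' : ℕ → ℕ, M' = Function.update (dM d) k Mk := ⟨_, rfl⟩
  have eN : dN (Function.update d k ⟨Nk, Mk, uk⟩) = N' := by rw [hN']; exact dN_up16288 _ _ _
  have eM : dM (Function.update d k ⟨Nk, Mk, uk⟩) = M' := by rw [hM']; exact dM_up16288 _ _ _
  have eU : dU (Function.update d k ⟨Nk, Mk, uk⟩) = U' := by rw [hU']; exact dU_up16288 _ _ _
  obtain ⟨V', hV'⟩ : ∃ V' : ℕ → ℕ → C(T1, ℝ), V' = Function.update (dV d) k
    (fun n => (uk n).r) := ⟨_, rfl⟩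
  have eV : dV (Function.update d k ⟨Nk, Mk, uk⟩) = V' := by rw [hV']; exact dV_up16288 _ _ _
  -- values
  have N'k : N' k = Nk := by rw [hN', Function.update_self]
  have M'k : M' k = Mk := by rw [hM', Function.update_self]
  have V'k : V' k = fun n => (uk n).r := by rw [hV', Function.update_self]
  have N'i : ∀ i < k, N' i = dN d i := fun i hi => by
    rw [hN', Function.update_of_ne (by omega)]
  have M'i : ∀ i < k, M' i = dM d i := fun i hi => by
    rw [hM', Function.update_of_ne (by omega)]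
  have V'i : ∀ i < k, V' i = dV d i := fun i hi => by
    rw [hV', Function.update_of_ne (by omega)]
  have eMp : Mp M' k = Mp (dM d) k := Mp_congr16288 k M'i
  have eal : al M' k = al (dM d) k := al_congr16288 k M'i
  have hExp' : ExpoLt N' M' k := by
    refine ⟨fun i hi => ?_, fun i hi => ?_⟩
    · rw [Mp_congr16288 i (fun j hj => M'i j (by omega)), N'i i hi]
      exact hExp.c0 i hi
    · rw [N'i i hi, M'i i hi]
      exact hExp.c0'' i hi
  have hMpN : Mp M' k ≤ N' k := by rw [eMp, N'k]; exact hNk1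
  have eG : ∀ n, Gm N' n k = Gm (dN d) n k := fun n => Gm_congr16288 n k N'i
  have eHV : ∀ a, Hs N' V' a k = Hs (dN d) (dV d) a k := fun a => Hs_congr16288 a k N'i V'i
  have eHI : ∀ a, Hs N' (idl N') a k = Hs (dN d) (idl (dN d)) a k := fun a =>
    Hs_congr16288 a k N'i (fun i hi => by unfold idl; rw [N'i i hi])
  have sHV : ∀ a, Hs N' V' a (k + 1) = Hs (dN d) (dV d) a k *
      pr Nk (fun n => (uk n).r) a k := by
    intro a
    show Hs N' V' a k * pr (N' k) (V' k) a k = _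
    rw [eHV, N'k, V'k]
  have sHI : ∀ a, Hs N' (idl N') a (k + 1) = Hs (dN d) (idl (dN d)) a k *
      pr Nk (bump Nk) a k := by
    intro a
    have e1 : idl N' k = bump Nk := by
      unfold idl
      rw [N'k]
    show Hs N' (idl N') a k * pr (N' k) (idl N' k) a k = _
    rw [eHI, e1, N'k]
  have hal1 : al M' (k + 1) = al (dM d) k + dl Mk := by
    show al M' k + dl (M' k) = _
    rw [eal, M'k]
  refine ⟨⟨Nk, Mk, uk⟩, ?_⟩
  refine ⟨?_, ?_, ?_, ?_, ?_, ?_, ?_, ?_, ?_⟩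
  · rw [eM, eN]; exact hMpN
  · rw [eN, N'k]; exact hNk2
  · rw [eN, eM, N'k, M'k]; exact hMk1
  · intro a z hz1 hz2
    rw [eN, eM, eU, fC_eq hExp' hMpN U' (cR a)]
    have e1 : fC N' M' U' (cR a) (k + 1) = HsC N' U' (cR a) (k + 1) *
        rotC (al (dM d) k + dl Mk) * (HsC N' U' (cR a) (k + 1))⁻¹ := by
      unfold fC
      rw [hal1]
    rw [e1, eal]
    exact hM1 (dl Mk) (by rw [abs_of_pos hdl]; linarith) a z hz1 hz2
  · intro a z hz1 hz2
    rw [eN, eM, eU, fC_eq hExp' hMpN U' (cR a)]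
    have e1 : fC N' M' U' (cR a) (k + 1) = HsC N' U' (cR a) (k + 1) *
        rotC (al (dM d) k + dl Mk) * (HsC N' U' (cR a) (k + 1))⁻¹ := by
      unfold fC
      rw [hal1]
    have e2 : ∀ (F : C2 ≃ₜ C2) (s : ℝ), (F * rotC s * F⁻¹)⁻¹ = F * rotC (-s) * F⁻¹ := by
      intro F s
      rw [mul_inv_rev, mul_inv_rev, inv_inv, rotC_inv16288, mul_assoc]
    rw [e1, eal, e2, e2]
    have e3 : -(al (dM d) k + dl Mk) = -(al (dM d) k) + -(dl Mk) := by ring
    rw [e3]
    exact hM2 (-(dl Mk)) (by rw [abs_neg, abs_of_pos hdl]; linarith) a z hz1 hz2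
  · intro a p
    rw [eN, eV, sHV, sHI, mul_inv_rev, eHV, eHI]
    exact (huk a ((Hs (dN d) (idl (dN d)) (cT a) k)⁻¹ p)).1
  · intro a p
    rw [eN, eV, sHV, sHI, mul_inv_rev, eHV, eHI]
    exact (huk a ((Hs (dN d) (dV d) (cT a) k)⁻¹ p)).2
  · intro n hn p hp t ht
    rw [eM, eMp, M'k] at ht
    rw [eN]
    exact hM3 n p hp t (by have := hM4 n hn; linarith)
  · intro n hn p hp
    obtain ⟨θ, hθ⟩ := hN4 n hn p hp
    refine ⟨θ, ?_⟩
    rw [eN]
    have e1 : Gm N' n (k + 1) = Gm (dN d) n k * me Nk := by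
      show Gm N' n k * (if n < k then me (N' k) else 1) = _
      rw [if_pos hn, eG, N'k]
    rw [e1]
    exact hθ

end

section

theorem exists_data : ∃ d : ℕ → D, ∀ k, Cond k d := by
  haveI : Inhabited D := ⟨⟨0, 0, fun _ => sinE 0 0⟩⟩
  exact exists_seq (fun k d => Cond k d) cond_loc stage

end

end Pool.Agent.Helper114.AB
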