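import Pool.Agent.Helper114.AB.C

/-!
# MP_aef7b4_an: part D
-/

open Set Filter Topology

namespace Pool.Agent.Helper114.AB

section

lemma mul_lim_aux {X : Type*} [MetricSpace X] [CompactSpace X] (f g : ℕ → (X ≃ₜ X))
    (F G : X ≃ₜ X) (hf : TendstoUniformly (fun k p => f k p) F atTop)
    (hg : TendstoUniformly (fun k p => g k p) G atTop) :
    TendstoUniformly (fun k p => (f k * g k) p) (⇑(F * G)) atTop := by
  have hF : UniformContinuous F := CompactSpace.uniformContinuous_of_continuous F.continuous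
  rw [Metric.tendstoUniformly_iff] at *
  rw [Metric.uniformContinuous_iff] at hF
  intro ε hε
  obtain ⟨δ, hδ, h⟩ := hF (ε / 2) (half_pos hε)
  filter_upwards [hf (ε / 2) (half_pos hε), hg δ hδ] with k h1 h2 p
  have e1 : dist (F (G p)) (F (g k p)) < ε / 2 := h (h2 p)
  have e2 : dist (F (g k p)) (f k (g k p)) < ε / 2 := h1 (g k p)
  calc dist ((F * G) p) ((f k * g k) p) = dist (F (G p)) (f k (g k p)) := rfl
    _ ≤ dist (F (G p)) (F (g k p)) + dist (F (g k p)) (f k (g k p)) := dist_triangle _ _ _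
    _ < ε := by linarith


theorem inv_lim {X : Type*} [MetricSpace X] [CompactSpace X] (f : ℕ → (X ≃ₜ X))
    (F : X ≃ₜ X) (hf : TendstoUniformly (fun k p => f k p) F atTop) :
    TendstoUniformly (fun k p => (f k)⁻¹ p) (⇑F⁻¹) atTop := by
  have hF : UniformContinuous F.symm :=
    CompactSpace.uniformContinuous_of_continuous F.symm.continuous
  rw [Metric.tendstoUniformly_iff] at *
  rw [Metric.uniformContinuous_iff] at hF
  intro ε hε
  obtain ⟨δ, hδ, h⟩ := hF ε hε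
  filter_upwards [hf δ hδ] with k h1 p
  have e1 := h (h1 ((f k).symm p))
  rw [F.symm_apply_apply, (f k).apply_symm_apply] at e1
  rw [dist_comm] at e1
  exact e1


theorem conj_lim {X : Type*} [MetricSpace X] [CompactSpace X] (f g K : ℕ → (X ≃ₜ X))
    (F G L : X ≃ₜ X) (hf : TendstoUniformly (fun k p => f k p) F atTop)
    (hg : TendstoUniformly (fun k p => g k p) G atTop)
    (hK : TendstoUniformly (fun k p => K k p) L atTop)
    (hc : ∀ k, K k * f k = g k * K k) : ∀ p, L (F p) = G (L p) := by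
  intro p
  have h1 := (mul_lim_aux K f L F hK hf).tendsto_at p
  have h2 := (mul_lim_aux g K G L hg hK).tendsto_at p
  have h3 : (fun k => (K k * f k) p) = fun k => (g k * K k) p := by
    funext k; rw [hc]
  have h1' : Tendsto (fun k => (K k * f k) p) atTop (𝓝 ((L * F) p)) := h1
  rw [h3] at h1'
  exact tendsto_nhds_unique h1' h2


theorem mul_lim {X : Type*} [MetricSpace X] [CompactSpace X] (f g : ℕ → (X ≃ₜ X))
    (F G : X ≃ₜ X) (hf : TendstoUniformly (fun k p => f k p) F atTop)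
    (hg : TendstoUniformly (fun k p => g k p) G atTop) :
    TendstoUniformly (fun k p => (f k * g k) p) (⇑(F * G)) atTop :=
  mul_lim_aux f g F G hf hg

end

section

theorem hl_unif {X : Type*} [MetricSpace X] [CompactSpace X] (f : ℕ → X → X)
    (hc : ∀ k, Continuous (f k))
    (h : ∀ ε > 0, ∃ k0, ∀ k ≥ k0, ∀ k' ≥ k0, ∀ p, dist (f k p) (f k' p) ≤ ε) :
    ∃ g : X → X, Continuous g ∧ TendstoUniformly f g atTop := by
  have hcau : ∀ p, CauchySeq (fun k => f k p) := by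
    intro p
    rw [Metric.cauchySeq_iff]
    intro ε hε
    obtain ⟨k0, hk0⟩ := h (ε / 2) (half_pos hε)
    exact ⟨k0, fun m hm n hn => (hk0 m hm n hn p).trans_lt (half_lt_self hε)⟩
  choose g hg using fun p => cauchySeq_tendsto_of_complete (hcau p)
  have hu : TendstoUniformly f g atTop := by
    rw [Metric.tendstoUniformly_iff]
    intro ε hε
    obtain ⟨k0, hk0⟩ := h (ε / 2) (half_pos hε)
    filter_upwards [eventually_ge_atTop k0] with k hk p
    refine lt_of_le_of_lt ?_ (half_lt_self hε)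
    have ht : Tendsto (fun k' => dist (f k' p) (f k p)) atTop (𝓝 (dist (g p) (f k p))) :=
      (hg p).dist tendsto_const_nhds
    refine le_of_tendsto ht ?_
    filter_upwards [eventually_ge_atTop k0] with k' hk'
    exact hk0 k' hk' k hk p
  exact ⟨g, hu.continuous (Frequently.of_forall hc), hu⟩

theorem homeo_lim {X : Type*} [MetricSpace X] [CompactSpace X] (f : ℕ → (X ≃ₜ X))
    (h : ∀ ε > 0, ∃ k0, ∀ k ≥ k0, ∀ k' ≥ k0, ∀ p, dist (f k p) (f k' p) ≤ ε)
    (h' : ∀ ε > 0, ∃ k0, ∀ k ≥ k0, ∀ k' ≥ k0, ∀ p, dist ((f k)⁻¹ p) ((f k')⁻¹ p) ≤ ε) :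
    ∃ g : X ≃ₜ X, TendstoUniformly (fun k p => f k p) g atTop ∧
      TendstoUniformly (fun k p => (f k)⁻¹ p) (⇑g⁻¹) atTop := by
  obtain ⟨g, hgc, hg⟩ := hl_unif (fun k p => f k p) (fun k => (f k).continuous) h
  obtain ⟨g', hgc', hg'⟩ := hl_unif (fun k p => (f k)⁻¹ p) (fun k => ((f k)⁻¹).continuous) h'
  have e1 : ∀ p, g (g' p) = p := by
    intro p
    have h1 : Tendsto (fun k => f k ((f k)⁻¹ p)) atTop (𝓝 (g (g' p))) :=
      hg.tendsto_comp hgc.continuousAt (hg'.tendsto_at p)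
    have h2 : (fun k => f k ((f k)⁻¹ p)) = fun _ => p := by
      funext k
      exact (f k).apply_symm_apply p
    rw [h2] at h1
    exact tendsto_nhds_unique h1 tendsto_const_nhds
  have e2 : ∀ p, g' (g p) = p := by
    intro p
    have h1 : Tendsto (fun k => (f k)⁻¹ (f k p)) atTop (𝓝 (g' (g p))) :=
      hg'.tendsto_comp hgc'.continuousAt (hg.tendsto_at p)
    have h2 : (fun k => (f k)⁻¹ (f k p)) = fun _ => p := by
      funext k
      exact (f k).symm_apply_apply p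
    rw [h2] at h1
    exact tendsto_nhds_unique h1 tendsto_const_nhds
  refine ⟨⟨⟨g, g', e2, e1⟩, hgc, hgc'⟩, hg, hg'⟩

theorem hl_geo {X : Type*} [MetricSpace X] (f : ℕ → X → X)
    (h : ∀ k p, dist (f (k + 1) p) (f k p) ≤ (1 / 2) ^ k) :
    ∀ ε > 0, ∃ k0, ∀ k ≥ k0, ∀ k' ≥ k0, ∀ p, dist (f k p) (f k' p) ≤ ε := by
  have h1 : ∀ j d p, dist (f (j + d) p) (f j p) ≤ 2 * (1 / 2) ^ j - 2 * (1 / 2) ^ (j + d) := by
    intro j d p
    induction d with
    | zero => simp
    | succ d ih =>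
      have a1 := h (j + d) p
      have a2 := dist_triangle (f (j + d + 1) p) (f (j + d) p) (f j p)
      have a3 : ((1 / 2 : ℝ)) ^ (j + (d + 1)) = (1 / 2) ^ (j + d) * (1 / 2) := by
        rw [← add_assoc, pow_succ]
      change dist (f (j + d + 1) p) (f j p) ≤ _
      rw [a3]
      linarith
  have h2 : ∀ j k, j ≤ k → ∀ p, dist (f k p) (f j p) ≤ 2 * (1 / 2) ^ j := by
    intro j k hjk p
    obtain ⟨d, rfl⟩ := Nat.exists_eq_add_of_le hjk
    have := h1 j d p
    have h3 : (0 : ℝ) ≤ (1 / 2) ^ (j + d) := by positivity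
    linarith
  intro ε hε
  obtain ⟨k0, hk0⟩ := exists_pow_lt_of_lt_one (show 0 < ε / 4 by linarith)
    (show (1 / 2 : ℝ) < 1 by norm_num)
  refine ⟨k0, fun k hk k' hk' p => ?_⟩
  have a1 := h2 k0 k hk p
  have a2 := h2 k0 k' hk' p
  have a3 := dist_triangle_right (f k p) (f k' p) (f k0 p)
  linarith

theorem homeo_lim2 {X : Type*} [MetricSpace X] [CompactSpace X] (f : ℕ → (X ≃ₜ X))
    (h : ∀ k p, dist (f (k + 1) p) (f k p) ≤ (1 / 2) ^ k)
    (h' : ∀ k p, dist ((f (k + 1))⁻¹ p) ((f k)⁻¹ p) ≤ (1 / 2) ^ k) :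
    ∃ g : X ≃ₜ X, TendstoUniformly (fun k p => f k p) g atTop ∧
      TendstoUniformly (fun k p => (f k)⁻¹ p) (⇑g⁻¹) atTop :=
  homeo_lim f (hl_geo (fun k p => f k p) h) (hl_geo (fun k p => (f k)⁻¹ p) h')

end

section

theorem diff_lim_aux (g : C2 → C2) (hg : Differentiable ℂ g) (z : C2) (B : ℝ) (hB0 : 0 ≤ B)
    (hB : ∀ w ∈ Metric.closedBall z 1, ‖g w‖ ≤ B) : ‖fderiv ℂ g z‖ ≤ B := by
  refine ContinuousLinearMap.opNorm_le_bound _ hB0 (fun v => ?_)
  by_cases hv : v = 0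
  · subst hv; simp
  have hv0 : 0 < ‖v‖ := norm_pos_iff.mpr hv
  have hd : HasDerivAt (fun t : ℂ => g (z + t • v)) (fderiv ℂ g z v) 0 := by
    have h1 : HasDerivAt (fun t : ℂ => z + t • v) v 0 := by
      have h2 := ((hasDerivAt_id (0 : ℂ)).smul_const v).const_add z
      simpa using h2
    have h3 : HasFDerivAt g (fderiv ℂ g z) (z + (0 : ℂ) • v) := by
      rw [zero_smul, add_zero]
      exact (hg z).hasFDerivAt
    exact h3.comp_hasDerivAt (0 : ℂ) h1
  have hdiff : Differentiable ℂ (fun t : ℂ => g (z + t • v)) :=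
    hg.comp ((differentiable_const z).add (differentiable_id.smul_const v))
  have h4 := Complex.norm_deriv_le_of_forall_mem_sphere_norm_le (c := 0) (R := 1 / ‖v‖) (C := B)
    (f := fun t : ℂ => g (z + t • v)) (by positivity) hdiff.diffContOnCl (by
      intro t ht
      apply hB
      rw [Metric.mem_closedBall, dist_eq_norm, add_sub_cancel_left, norm_smul]
      rw [mem_sphere_zero_iff_norm] at ht
      rw [ht]
      field_simp
      exact le_refl _)
  rw [hd.deriv] at h4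
  calc ‖fderiv ℂ g z v‖ ≤ B / (1 / ‖v‖) := h4
    _ = B * ‖v‖ := by field_simp

-- Weierstrass theorem on `ℂ²`
theorem diff_lim (f : ℕ → C2 → C2) (hf : ∀ k, Differentiable ℂ (f k)) (F : C2 → C2)
    (h : TendstoLocallyUniformly f F atTop) : Differentiable ℂ F := by
  intro z0
  have hK : TendstoUniformlyOn f F atTop (Metric.closedBall z0 2) :=
    tendstoLocallyUniformly_iff_forall_isCompact.mp h _ (isCompact_closedBall z0 2)
  rw [Metric.tendstoUniformlyOn_iff] at hK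
  have hC : UniformCauchySeqOn (fun k z => fderiv ℂ (f k) z) atTop (Metric.ball z0 1) := by
    rw [Metric.uniformCauchySeqOn_iff]
    intro ε hε
    obtain ⟨n0, hn0⟩ := Filter.eventually_atTop.1 (hK (ε / 4) (by positivity))
    refine ⟨n0, fun m hm n hn z hz => ?_⟩
    rw [dist_eq_norm]
    have h1 : fderiv ℂ (f m) z - fderiv ℂ (f n) z = fderiv ℂ (fun w => f m w - f n w) z :=
      (fderiv_fun_sub (hf m z) (hf n z)).symm
    rw [h1]
    refine (diff_lim_aux _ ((hf m).sub (hf n)) z (ε / 2) (by positivity) ?_).trans_lt (by linarith)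
    intro w hw
    have hw2 : w ∈ Metric.closedBall z0 2 := by
      rw [Metric.mem_closedBall] at hw ⊢
      rw [Metric.mem_ball] at hz
      linarith [dist_triangle w z z0]
    have h2 := hn0 m hm w hw2
    have h3 := hn0 n hn w hw2
    show ‖f m w - f n w‖ ≤ ε / 2
    rw [← dist_eq_norm]
    have h4 := dist_triangle (f m w) (F w) (f n w)
    rw [dist_comm (f m w) (F w)] at h4
    linarith
  have hlim : ∀ z ∈ Metric.ball z0 1, ∃ L : C2 →L[ℂ] C2,
      Tendsto (fun k => fderiv ℂ (f k) z) atTop (𝓝 L) := by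
    intro z hz
    exact cauchySeq_tendsto_of_complete (hC.cauchySeq hz)
  have hlim2 : ∀ z, ∃ L : C2 →L[ℂ] C2, z ∈ Metric.ball z0 1 →
      Tendsto (fun k => fderiv ℂ (f k) z) atTop (𝓝 L) := by
    intro z
    by_cases hz : z ∈ Metric.ball z0 1
    · obtain ⟨L, hL⟩ := hlim z hz
      exact ⟨L, fun _ => hL⟩
    · exact ⟨0, fun h => absurd h hz⟩
  choose L hL using hlim2
  have hU : TendstoUniformlyOn (fun k z => fderiv ℂ (f k) z) L atTop (Metric.ball z0 1) :=
    hC.tendstoUniformlyOn_of_tendsto hL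
  have hfin := hasFDerivAt_of_tendstoUniformlyOn (Metric.isOpen_ball) hU
    (fun n x _ => (hf n x).hasFDerivAt)
    (fun x _ => (tendstoLocallyUniformlyOn_univ.2 h).tendsto_at (Set.mem_univ x)) (Metric.mem_ball_self one_pos)
  exact hfin.differentiableAt

end

section

-- complex limits (only `c1` and joint continuity, holomorphy are used)
theorem limC (f : ℕ → Pm → (C2 ≃ₜ C2)) (hJ : ∀ k, JC (f k))
    (hd : ∀ k a, Differentiable ℂ (f k a))
    (h : ∀ (k : ℕ) (a : Pm) (z : C2), |z.1.im| ≤ k → |z.2.im| ≤ k →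
      ‖f (k + 1) a z - f k a z‖ ≤ (1 / 2) ^ k) :
    ∃ F : Pm → C2 → C2, Continuous (fun q : Pm × C2 => F q.1 q.2) ∧
      (∀ a, Differentiable ℂ (F a)) ∧
      (∀ a z, Tendsto (fun k => f k a z) atTop (𝓝 (F a z))) := by
  have key : ∀ (R : ℕ) (a : Pm) (z : C2), |z.1.im| ≤ R → |z.2.im| ≤ R →
      ∃ L : C2, Tendsto (fun k => f k a z) atTop (𝓝 L) ∧
        ∀ k, R ≤ k → dist (f k a z) L ≤ 2 * (1 / 2 : ℝ) ^ k := by
    intro R a z h1 h2
    have hg : ∀ j : ℕ, dist (f (j + R) a z) (f (j + 1 + R) a z) ≤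
        (1 / 2 : ℝ) ^ R * (1 / 2 : ℝ) ^ j := by
      intro j
      have hR : (R : ℝ) ≤ ((j + R : ℕ) : ℝ) := by push_cast; linarith [Nat.cast_nonneg (α := ℝ) j]
      have := h (j + R) a z (h1.trans hR) (h2.trans hR)
      rw [dist_comm, dist_eq_norm, show j + 1 + R = j + R + 1 by ring]
      calc _ ≤ (1 / 2 : ℝ) ^ (j + R) := this
        _ = _ := by rw [pow_add]; ring
    have hc : CauchySeq (fun j => f (j + R) a z) :=
      cauchySeq_of_le_geometric (1 / 2 : ℝ) ((1 / 2 : ℝ) ^ R) (by norm_num) hg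
    obtain ⟨L, hL⟩ := cauchySeq_tendsto_of_complete hc
    refine ⟨L, (tendsto_add_atTop_iff_nat (f := fun k => f k a z) R).mp hL, fun k hk => ?_⟩
    have := dist_le_of_le_geometric_of_tendsto (1 / 2 : ℝ) ((1 / 2 : ℝ) ^ R) (by norm_num) hg hL
      (k - R)
    simp only [Nat.sub_add_cancel hk] at this
    calc _ ≤ _ := this
      _ = 2 * ((1 / 2 : ℝ) ^ R * (1 / 2 : ℝ) ^ (k - R)) := by ring
      _ = 2 * (1 / 2 : ℝ) ^ k := by rw [← pow_add, Nat.add_sub_cancel' hk]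
  have hex : ∀ (a : Pm) (z : C2), ∃ L : C2, Tendsto (fun k => f k a z) atTop (𝓝 L) := by
    intro a z
    obtain ⟨R, hR⟩ := exists_nat_ge (max |z.1.im| |z.2.im|)
    obtain ⟨L, hL, -⟩ := key R a z ((le_max_left _ _).trans hR) ((le_max_right _ _).trans hR)
    exact ⟨L, hL⟩
  choose F hF using hex
  have hb : ∀ (R : ℕ) (a : Pm) (z : C2), |z.1.im| ≤ R → |z.2.im| ≤ R → ∀ k, R ≤ k →
      dist (f k a z) (F a z) ≤ 2 * (1 / 2 : ℝ) ^ k := by
    intro R a z h1 h2 k hk
    obtain ⟨L, hL, hb⟩ := key R a z h1 h2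
    rw [tendsto_nhds_unique (hF a z) hL]
    exact hb k hk
  have hlu : TendstoLocallyUniformly (fun k (q : Pm × C2) => f k q.1 q.2)
      (fun q => F q.1 q.2) atTop := by
    rw [Metric.tendstoLocallyUniformly_iff]
    intro ε hε q0
    obtain ⟨R, hR⟩ := exists_nat_gt (max |q0.2.1.im| |q0.2.2.im|)
    refine ⟨{q : Pm × C2 | |q.2.1.im| < R ∧ |q.2.2.im| < R}, ?_, ?_⟩
    · have c1 : Continuous (fun q : Pm × C2 => |q.2.1.im|) :=
        (Complex.continuous_im.comp (continuous_fst.comp continuous_snd)).abs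
      have c2 : Continuous (fun q : Pm × C2 => |q.2.2.im|) :=
        (Complex.continuous_im.comp (continuous_snd.comp continuous_snd)).abs
      have o1 : IsOpen {q : Pm × C2 | |q.2.1.im| < R} := isOpen_lt c1 continuous_const
      have o2 : IsOpen {q : Pm × C2 | |q.2.2.im| < R} := isOpen_lt c2 continuous_const
      exact (o1.inter o2).mem_nhds
        ⟨(le_max_left _ _).trans_lt hR, (le_max_right _ _).trans_lt hR⟩
    · have ht : Tendsto (fun k : ℕ => 2 * (1 / 2 : ℝ) ^ k) atTop (𝓝 (2 * 0)) :=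
        (tendsto_pow_atTop_nhds_zero_of_lt_one (by norm_num) (by norm_num)).const_mul 2
      rw [mul_zero] at ht
      filter_upwards [ht.eventually (gt_mem_nhds hε), eventually_ge_atTop R] with k hk hkR q hq
      rw [dist_comm]
      exact (hb R q.1 q.2 hq.1.le hq.2.le k hkR).trans_lt hk
  refine ⟨F, ?_, fun a => ?_, hF⟩
  · exact hlu.continuous (Eventually.frequently (Eventually.of_forall fun k => (hJ k).1))
  · refine diff_lim (fun k => f k a) (fun k => hd k a) (F a) ?_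
    exact hlu.comp (fun z : C2 => (a, z)) (by fun_prop)

end

section

theorem dist_of_rel_coe (a a' : ℝ) : dist (a : T1) (a' : T1) ≤ |a - a'| := by
  rw [dist_eq_norm, ← AddCircle.coe_sub, UnitAddCircle.norm_eq]
  have := round_le (a - a') 0
  simpa using this

/-- from closeness at real points upstairs to closeness downstairs -/
theorem dist_of_rel {F G : C2 → C2} {f g : T2 → T2} (hF : Rel F f) (hG : Rel G g) (ε : ℝ)
    (h : ∀ z : C2, z.1.im = 0 → z.2.im = 0 → ‖F z - G z‖ ≤ ε) (p : T2) : dist (f p) (g p) ≤ ε := by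
  obtain ⟨θ, hθ⟩ := QuotientAddGroup.mk_surjective p.1
  obtain ⟨x, hx⟩ := QuotientAddGroup.mk_surjective p.2
  have hp : p = ((θ : T1), (x : T1)) := Prod.ext hθ.symm hx.symm
  obtain ⟨a, b, h1, h2⟩ := hF θ x
  obtain ⟨a', b', h3, h4⟩ := hG θ x
  have h5 := h ((θ : ℂ), (x : ℂ)) (Complex.ofReal_im θ) (Complex.ofReal_im x)
  rw [h1, h3] at h5
  have h6 : ‖((a : ℂ) - (a' : ℂ))‖ ≤ ε := (norm_fst_le _).trans h5
  have h7 : ‖((b : ℂ) - (b' : ℂ))‖ ≤ ε := (norm_snd_le _).trans h5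
  rw [← Complex.ofReal_sub, Complex.norm_real, Real.norm_eq_abs] at h6 h7
  rw [hp, h2, h4, Prod.dist_eq]
  exact max_le ((dist_of_rel_coe a a').trans h6) ((dist_of_rel_coe b b').trans h7)

theorem rel_lim {F : ℕ → C2 → C2} {f : ℕ → T2 → T2} (h : ∀ k, Rel (F k) (f k)) (F' : C2 → C2)
    (f' : T2 → T2) (hF : ∀ z, Tendsto (fun k => F k z) atTop (𝓝 (F' z)))
    (hf : ∀ p, Tendsto (fun k => f k p) atTop (𝓝 (f' p))) : Rel F' f' := by
  intro θ x
  have h1 := fun k => h k θ x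
  choose a b hab hab' using h1
  have hF1 := hF ((θ : ℂ), (x : ℂ))
  simp only [hab] at hF1
  have hf1 := hf ((θ : T1), (x : T1))
  simp only [hab'] at hf1
  have hA : Tendsto (fun k => (a k : ℂ)) atTop (𝓝 (F' ((θ : ℂ), (x : ℂ))).1) :=
    (continuous_fst.tendsto _).comp hF1
  have hB : Tendsto (fun k => (b k : ℂ)) atTop (𝓝 (F' ((θ : ℂ), (x : ℂ))).2) :=
    (continuous_snd.tendsto _).comp hF1
  have key : ∀ (c : ℕ → ℝ) (C : ℂ), Tendsto (fun k => (c k : ℂ)) atTop (𝓝 C) →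
      C = (C.re : ℂ) ∧ Tendsto c atTop (𝓝 C.re) := by
    intro c C hc
    have h1 : Tendsto (fun k => ((c k : ℂ)).re) atTop (𝓝 C.re) :=
      (Complex.continuous_re.tendsto _).comp hc
    have h2 : Tendsto (fun k => ((c k : ℂ)).im) atTop (𝓝 C.im) :=
      (Complex.continuous_im.tendsto _).comp hc
    simp only [Complex.ofReal_re] at h1
    simp only [Complex.ofReal_im] at h2
    have h3 : (0 : ℝ) = C.im := tendsto_nhds_unique tendsto_const_nhds h2
    exact ⟨Complex.ext rfl (by rw [← h3, Complex.ofReal_im]), h1⟩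
  obtain ⟨hA1, hA2⟩ := key a _ hA
  obtain ⟨hB1, hB2⟩ := key b _ hB
  refine ⟨(F' ((θ : ℂ), (x : ℂ))).1.re, (F' ((θ : ℂ), (x : ℂ))).2.re, Prod.ext hA1 hB1, ?_⟩
  have hc : Continuous (fun r : ℝ => (r : T1)) := AddCircle.continuous_mk' 1
  have h4 : Tendsto (fun k => (((a k : ℝ) : T1), ((b k : ℝ) : T1))) atTop
      (𝓝 ((((F' ((θ : ℂ), (x : ℂ))).1.re : ℝ) : T1), (((F' ((θ : ℂ), (x : ℂ))).2.re : ℝ) : T1))) :=
    ((hc.tendsto _).comp hA2).prodMk_nhds ((hc.tendsto _).comp hB2)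
  exact tendsto_nhds_unique hf1 h4

end

section

theorem jc_const_fam {X : Type*} [TopologicalSpace X] (g : X ≃ₜ X) : JC (fun _ : Pm => g) :=
  ⟨g.continuous.comp continuous_snd, (g⁻¹).continuous.comp continuous_snd⟩

/-- Main output of the analytic construction. -/
theorem family : ∃ (N M : ℕ → ℕ) (f Fh : Pm → (T2 ≃ₜ T2)) (F G : Pm → C2 → C2),
    Expo N M ∧
    (∀ k, ∀ n ≤ k, ∀ p : A1, |p.2| ≤ 1 / 2 → ∀ t : ℝ, |t| ≤ 2 ^ (Mp M k) * dl (M k) →
      dist (Gm N n (k + 1) (p.1 + (t : T1), p.2)) (Gm N n (k + 1) p) ≤ (1 / 2) ^ k) ∧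
    (∀ k, ∀ n < k, ∀ p : A1, |p.2| ≤ 1 / 2 → ∃ θ : T1,
      dist (Gm N n (k + 1) (θ, 0)) p ≤ (1 / 2) ^ k) ∧
    (∀ a, TendstoUniformly (fun k p => fs N M (idl N) (cT a) k p) (Fh a) atTop) ∧
    (∀ a, ∃ C : T2 ≃ₜ T2, ∀ p, f a (C p) = C (Fh a p)) ∧
    (∀ a, Differentiable ℂ (F a)) ∧ (∀ a, Differentiable ℂ (G a)) ∧
    (∀ a, Rel (F a) (f a)) ∧ (∀ a, Rel (G a) ⇑(f a)⁻¹) ∧
    Continuous (fun q : Pm × T2 => f q.1 q.2) := by
  obtain ⟨d, hd⟩ := exists_data
  -- closeness of the real approximations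
  have hb1 : ∀ (a : Pm) (k : ℕ) (p : T2),
      dist (fs (dN d) (dM d) (dV d) (cT a) (k + 1) p) (fs (dN d) (dM d) (dV d) (cT a) k p) ≤ (1 / 2) ^ k := by
    intro a k p
    refine dist_of_rel (rel_fC (dN d) (dM d) (dU d) a (k + 1)).1 (rel_fC (dN d) (dM d) (dU d) a k).1 _ ?_ p
    intro z h1 h2
    refine (hd k).c1 a z ?_ ?_
    · rw [h1, abs_zero]; exact Nat.cast_nonneg k
    · rw [h2, abs_zero]; exact Nat.cast_nonneg k
  have hb2 : ∀ (a : Pm) (k : ℕ) (p : T2),
      dist ((fs (dN d) (dM d) (dV d) (cT a) (k + 1))⁻¹ p) ((fs (dN d) (dM d) (dV d) (cT a) k)⁻¹ p) ≤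
        (1 / 2) ^ k := by
    intro a k p
    refine dist_of_rel (rel_fC (dN d) (dM d) (dU d) a (k + 1)).2 (rel_fC (dN d) (dM d) (dU d) a k).2 _ ?_ p
    intro z h1 h2
    refine (hd k).c1' a z ?_ ?_
    · rw [h1, abs_zero]; exact Nat.cast_nonneg k
    · rw [h2, abs_zero]; exact Nat.cast_nonneg k
  choose f hf1 hf2 using fun a => homeo_lim2 (fs (dN d) (dM d) (dV d) (cT a)) (hb1 a) (hb2 a)
  -- the conjugation
  have hCex : ∀ a : Pm, ∃ g : T2 ≃ₜ T2,
      TendstoUniformly (fun k p => (Hs (dN d) (dV d) (cT a) k * (Hs (dN d) (idl (dN d)) (cT a) k)⁻¹) p) g atTop ∧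
      TendstoUniformly (fun k p => (Hs (dN d) (dV d) (cT a) k * (Hs (dN d) (idl (dN d)) (cT a) k)⁻¹)⁻¹ p)
        (⇑g⁻¹) atTop := by
    intro a
    refine homeo_lim2 (fun k => Hs (dN d) (dV d) (cT a) k * (Hs (dN d) (idl (dN d)) (cT a) k)⁻¹) ?_ ?_
    · intro k p
      exact (hd k).c2 a p
    · intro k p
      have e : ∀ j, (Hs (dN d) (dV d) (cT a) j * (Hs (dN d) (idl (dN d)) (cT a) j)⁻¹)⁻¹ =
          Hs (dN d) (idl (dN d)) (cT a) j * (Hs (dN d) (dV d) (cT a) j)⁻¹ := by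
        intro j
        rw [mul_inv_rev, inv_inv]
      rw [e, e]
      exact (hd k).c2' a p
  choose C hC1 hC2 using hCex
  -- complex limits
  have jF : ∀ k, JC (fun a => fC (dN d) (dM d) (dU d) (cR a) k) := fun k =>
    ((jc_HsC (dN d) (dU d) k).mul (jc_const_fam (rotC (al (dM d) k)))).mul (jc_HsC (dN d) (dU d) k).inv
  have rd : ∀ t : ℝ, Differentiable ℂ (rotC t) := by
    intro t
    show Differentiable ℂ (fun p : C2 => (p.1 + (t : ℂ), p.2))
    fun_prop
  have rd' : ∀ t : ℝ, Differentiable ℂ ⇑(rotC t)⁻¹ := by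
    intro t
    show Differentiable ℂ (fun p : C2 => (p.1 - (t : ℂ), p.2))
    fun_prop
  obtain ⟨F, -, hFd, hFl⟩ := limC (fun k a => fC (dN d) (dM d) (dU d) (cR a) k) jF (by
    intro k a
    have h1 := (diff_HsC (dN d) (dU d) (cR a) k).1
    have h2 := (diff_HsC (dN d) (dU d) (cR a) k).2
    exact (h1.comp (rd _)).comp h2) (fun k a z h1 h2 => (hd k).c1 a z h1 h2)
  obtain ⟨G, -, hGd, hGl⟩ := limC (fun k a => (fC (dN d) (dM d) (dU d) (cR a) k)⁻¹) (fun k => (jF k).inv) (by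
    intro k a
    have h1 := (diff_HsC (dN d) (dU d) (cR a) k).1
    have h2 := (diff_HsC (dN d) (dU d) (cR a) k).2
    have e : (fC (dN d) (dM d) (dU d) (cR a) k)⁻¹ =
        HsC (dN d) (dU d) (cR a) k * (rotC (al (dM d) k))⁻¹ * (HsC (dN d) (dU d) (cR a) k)⁻¹ := by
      unfold fC
      group
    rw [e]
    exact (h1.comp (rd' _)).comp h2) (fun k a z h1 h2 => (hd k).c1' a z h1 h2)
  refine ⟨dN d, dM d, f, fun a => (C a)⁻¹ * f a * C a, F, G, ⟨fun k => (hd k).c0, fun k => (hd k).c0',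
    fun k => (hd k).c0''⟩, fun k => (hd k).c3, fun k => (hd k).c4, ?_, ?_, hFd, hGd, ?_, ?_, ?_⟩
  · intro a
    have h := mul_lim _ _ _ _ (mul_lim _ _ _ _ (hC2 a) (hf1 a)) (hC1 a)
    have e : ∀ k, fs (dN d) (dM d) (idl (dN d)) (cT a) k =
        (Hs (dN d) (dV d) (cT a) k * (Hs (dN d) (idl (dN d)) (cT a) k)⁻¹)⁻¹ *
        fs (dN d) (dM d) (dV d) (cT a) k *
        (Hs (dN d) (dV d) (cT a) k * (Hs (dN d) (idl (dN d)) (cT a) k)⁻¹) := by
      intro k
      unfold fs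
      group
    simp only [e]
    exact h
  · intro a
    refine ⟨C a, fun p => ?_⟩
    show f a (C a p) = C a ((C a)⁻¹ (f a (C a p)))
    exact ((C a).apply_symm_apply _).symm
  · intro a
    exact rel_lim (fun k => (rel_fC (dN d) (dM d) (dU d) a k).1) (F a) (f a) (hFl a)
      (fun p => (hf1 a).tendsto_at p)
  · intro a
    exact rel_lim (fun k => (rel_fC (dN d) (dM d) (dU d) a k).2) (G a) _ (hGl a)
      (fun p => (hf2 a).tendsto_at p)
  · have jf : ∀ k, JC (fun a => fs (dN d) (dM d) (dV d) (cT a) k) := fun k =>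
      ((jc_Hs (dN d) (dV d) k).mul (jc_const_fam (rot (al (dM d) k)))).mul (jc_Hs (dN d) (dV d) k).inv
    have hU : TendstoUniformly (fun (k : ℕ) (q : Pm × T2) => fs (dN d) (dM d) (dV d) (cT q.1) k q.2)
        (fun q : Pm × T2 => f q.1 q.2) atTop := by
      rw [Metric.tendstoUniformly_iff]
      intro ε hε
      have hlim : Tendsto (fun k : ℕ => (1 : ℝ) * (1 / 2) ^ k / (1 - 1 / 2)) atTop (𝓝 (1 * 0 / (1 - 1 / 2))) :=
        (((tendsto_pow_atTop_nhds_zero_of_lt_one (by norm_num) (by norm_num)).const_mul 1).div_const _)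
      rw [mul_zero, zero_div] at hlim
      filter_upwards [hlim.eventually (gt_mem_nhds hε)] with k hk q
      have h1 := dist_le_of_le_geometric_of_tendsto (1 / 2 : ℝ) 1 (by norm_num)
        (f := fun k => fs (dN d) (dM d) (dV d) (cT q.1) k q.2)
        (fun n => by rw [dist_comm, one_mul]; exact hb1 q.1 n q.2) ((hf1 q.1).tendsto_at q.2) k
      rw [dist_comm]
      exact lt_of_le_of_lt h1 hk
    exact hU.continuous (Frequently.of_forall fun k => (jf k).1)

end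

end Pool.Agent.Helper114.AB
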