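import Mathlib

/-!
# MP_aef7b4_an: definitions (annuli arranged in a linear order, entire shears)
-/

open Set Filter Topology

namespace Pool.Agent.Helper114.AB

/-- the circle `ℝ/ℤ` -/
abbrev T1 : Type := UnitAddCircle
/-- the torus `ℝ²/ℤ²` -/
abbrev T2 : Type := T1 × T1
/-- the parameters: centres of the annuli -/
abbrev Pm : Type := ℕ → Set.Icc (0 : ℝ) 1

/-! ### real shears of the torus -/

/-- horizontal shear `(θ, x) ↦ (θ + u (x - a), x)` -/
noncomputable def hsh (u : C(T1, ℝ)) (a : T1) : T2 ≃ₜ T2 where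
  toFun p := (p.1 + ((u (p.2 - a) : ℝ) : T1), p.2)
  invFun p := (p.1 - ((u (p.2 - a) : ℝ) : T1), p.2)
  left_inv p := by simp
  right_inv p := by simp
  continuous_toFun := by
    refine Continuous.prodMk (continuous_fst.add ?_) continuous_snd
    exact (AddCircle.continuous_mk' 1).comp (u.continuous.comp (continuous_snd.sub continuous_const))
  continuous_invFun := by
    refine Continuous.prodMk (continuous_fst.sub ?_) continuous_snd
    exact (AddCircle.continuous_mk' 1).comp (u.continuous.comp (continuous_snd.sub continuous_const))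

/-- vertical shear `(θ, x) ↦ (θ, x + b θ)` -/
noncomputable def vsh (b : C(T1, ℝ)) : T2 ≃ₜ T2 where
  toFun p := (p.1, p.2 + ((b p.1 : ℝ) : T1))
  invFun p := (p.1, p.2 - ((b p.1 : ℝ) : T1))
  left_inv p := by simp
  right_inv p := by simp
  continuous_toFun := by
    refine Continuous.prodMk continuous_fst (continuous_snd.add ?_)
    exact (AddCircle.continuous_mk' 1).comp (b.continuous.comp continuous_fst)
  continuous_invFun := by
    refine Continuous.prodMk continuous_fst (continuous_snd.sub ?_)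
    exact (AddCircle.continuous_mk' 1).comp (b.continuous.comp continuous_fst)

/-- rotation `(θ, x) ↦ (θ + t, x)` -/
noncomputable def rot (t : ℝ) : T2 ≃ₜ T2 where
  toFun p := (p.1 + (t : T1), p.2)
  invFun p := (p.1 - (t : T1), p.2)
  left_inv p := by simp
  right_inv p := by simp
  continuous_toFun := by fun_prop
  continuous_invFun := by fun_prop

/-- elementary map: conjugate of a horizontal shear by a vertical one -/
noncomputable def el (b u : C(T1, ℝ)) (a : T1) : T2 ≃ₜ T2 := (vsh b)⁻¹ * hsh u a * vsh b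

/-- `A sin (2 π 2^N θ)` -/
noncomputable def sinF (A : ℝ) (N : ℕ) : C(T1, ℝ) :=
  ⟨fun θ => A * (fourier ((2 : ℤ) ^ N) θ).im, by fun_prop⟩

/-- length of the `n`-th slot -/
noncomputable def w (n : ℕ) : ℝ := (1 / 2) ^ (n + 2)
/-- width of the `n`-th annulus -/
noncomputable def ll (n : ℕ) : ℝ := (1 / 2) ^ (n + 3)

/-- the small parameter `2^{-N}` -/
noncomputable def dl (N : ℕ) : ℝ := (1 / 2) ^ N

/-- plateau function: `1` for `s ≤ 1/4 - δ/2`, `0` for `s ≥ 1/4 + δ/2` -/
noncomputable def plat (N : ℕ) (s : ℝ) : ℝ := max 0 (min 1 ((1 / 4 + dl N / 2 - s) / dl N))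

/-- the ideal horizontal shear function of the `n`-th annulus, centred at `0` -/
noncomputable def bump (N n : ℕ) : C(T1, ℝ) :=
  ⟨fun y => dl (N + 1) * plat N (‖y‖ / ll n), by unfold plat; fun_prop⟩

/-- the amplitude of the vertical shears -/
noncomputable def amp (N : ℕ) : ℝ := 1 / 4 - dl N / 2

/-- product of the elementary maps of the annuli `0, …, j-1` -/
noncomputable def pr (N : ℕ) (v : ℕ → C(T1, ℝ)) (a : ℕ → T1) : ℕ → (T2 ≃ₜ T2)
  | 0 => 1
  | n + 1 => pr N v a n * el (sinF (ll n * amp N) N) (v n) (a n)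

/-- the conjugating maps `H_k = h_0 h_1 … h_{k-1}` -/
noncomputable def Hs (N : ℕ → ℕ) (v : ℕ → ℕ → C(T1, ℝ)) (a : ℕ → T1) : ℕ → (T2 ≃ₜ T2)
  | 0 => 1
  | k + 1 => Hs N v a k * pr (N k) (v k) a k

/-- partial sums of the rotation number -/
noncomputable def al (M : ℕ → ℕ) : ℕ → ℝ
  | 0 => 0
  | k + 1 => al M k + dl (M k)

/-- the parameters seen in the circle -/
noncomputable def cT (a : Pm) : ℕ → T1 := fun n => (((a n : ℝ)) : T1)
/-- the parameters seen in `ℝ` -/
noncomputable def cR (a : Pm) : ℕ → ℝ := fun n => (a n : ℝ)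

/-- the ideal shear functions -/
noncomputable def idl (N : ℕ → ℕ) : ℕ → ℕ → C(T1, ℝ) := fun k n => bump (N k) n

/-- the approximating diffeomorphisms `H_k R_{α_k} H_k⁻¹` -/
noncomputable def fs (N M : ℕ → ℕ) (v : ℕ → ℕ → C(T1, ℝ)) (a : ℕ → T1) (k : ℕ) : T2 ≃ₜ T2 :=
  Hs N v a k * rot (al M k) * (Hs N v a k)⁻¹

/-! ### the model maps of `T1 × ℝ` (supported in `T1 × [-1/2, 1/2]`) -/

abbrev A1 : Type := T1 × ℝ

/-- horizontal model shear -/
noncomputable def mh (N : ℕ) : A1 ≃ₜ A1 where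
  toFun p := (p.1 + ((dl (N + 1) * plat N |p.2| : ℝ) : T1), p.2)
  invFun p := (p.1 - ((dl (N + 1) * plat N |p.2| : ℝ) : T1), p.2)
  left_inv p := by simp
  right_inv p := by simp
  continuous_toFun := by
    refine Continuous.prodMk (continuous_fst.add ?_) continuous_snd
    refine (AddCircle.continuous_mk' 1).comp ?_
    unfold plat; fun_prop
  continuous_invFun := by
    refine Continuous.prodMk (continuous_fst.sub ?_) continuous_snd
    refine (AddCircle.continuous_mk' 1).comp ?_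
    unfold plat; fun_prop

/-- vertical model shear -/
noncomputable def mv (N : ℕ) : A1 ≃ₜ A1 where
  toFun p := (p.1, p.2 + sinF (amp N) N p.1)
  invFun p := (p.1, p.2 - sinF (amp N) N p.1)
  left_inv p := by simp
  right_inv p := by simp
  continuous_toFun := by fun_prop
  continuous_invFun := by fun_prop

/-- the model elementary map -/
noncomputable def me (N : ℕ) : A1 ≃ₜ A1 := (mv N)⁻¹ * mh N * mv N

/-- model rotation -/
noncomputable def mrot (t : ℝ) : A1 ≃ₜ A1 where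
  toFun p := (p.1 + (t : T1), p.2)
  invFun p := (p.1 - (t : T1), p.2)
  left_inv p := by simp
  right_inv p := by simp
  continuous_toFun := by fun_prop
  continuous_invFun := by fun_prop

/-- the model conjugating maps of the `n`-th annulus: product of `me (N j)` over `n < j < k` -/
noncomputable def Gm (N : ℕ → ℕ) (n : ℕ) : ℕ → (A1 ≃ₜ A1)
  | 0 => 1
  | k + 1 => Gm N n k * (if n < k then me (N k) else 1)

/-- the model approximations -/
noncomputable def fm (N M : ℕ → ℕ) (n k : ℕ) : A1 ≃ₜ A1 :=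
  Gm N n k * mrot (al M k) * (Gm N n k)⁻¹

/-- the embedding of the model annulus onto the `n`-th annulus with centre `c` -/
noncomputable def Sn (c : ℝ) (n : ℕ) (p : A1) : T2 := (p.1, ((c + ll n * p.2 : ℝ) : T1))

/-! ### the complex side -/

/-- entire `1`-periodic functions, real on the real axis -/
structure EP where
  c : ℂ → ℂ
  r : C(T1, ℝ)
  diff : Differentiable ℂ c
  per : ∀ z, c (z + 1) = c z
  compat : ∀ x : ℝ, c (x : ℂ) = ((r ((x : ℝ) : T1) : ℝ) : ℂ)

abbrev C2 : Type := ℂ × ℂ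

/-- complex horizontal shear -/
noncomputable def hshC (u : EP) (a : ℝ) : C2 ≃ₜ C2 where
  toFun p := (p.1 + u.c (p.2 - a), p.2)
  invFun p := (p.1 - u.c (p.2 - a), p.2)
  left_inv p := by simp
  right_inv p := by simp
  continuous_toFun := by
    have := u.diff.continuous
    fun_prop
  continuous_invFun := by
    have := u.diff.continuous
    fun_prop

/-- complex vertical shear -/
noncomputable def vshC (b : EP) : C2 ≃ₜ C2 where
  toFun p := (p.1, p.2 + b.c p.1)
  invFun p := (p.1, p.2 - b.c p.1)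
  left_inv p := by simp
  right_inv p := by simp
  continuous_toFun := by
    have := b.diff.continuous
    fun_prop
  continuous_invFun := by
    have := b.diff.continuous
    fun_prop

/-- complex rotation -/
noncomputable def rotC (t : ℝ) : C2 ≃ₜ C2 where
  toFun p := (p.1 + t, p.2)
  invFun p := (p.1 - t, p.2)
  left_inv p := by simp
  right_inv p := by simp
  continuous_toFun := by fun_prop
  continuous_invFun := by fun_prop

/-- complex elementary map -/
noncomputable def elC (b u : EP) (a : ℝ) : C2 ≃ₜ C2 := (vshC b)⁻¹ * hshC u a * vshC b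

/-- `A sin (2 π 2^N z)` as an element of `EP` -/
noncomputable def sinE (A : ℝ) (N : ℕ) : EP where
  c z := A * Complex.sin (2 * Real.pi * 2 ^ N * z)
  r := sinF A N
  diff := by fun_prop
  per z := by
    have h := Complex.sin_periodic.nat_mul (2 ^ N)
    have h2 := h (2 * Real.pi * 2 ^ N * z)
    have e : (2 * Real.pi * 2 ^ N * (z + 1) : ℂ)
        = 2 * Real.pi * 2 ^ N * z + ((2 ^ N : ℕ) : ℂ) * (2 * Real.pi) := by push_cast; ring
    rw [e, h2]
  compat x := by
    simp only [sinF, ContinuousMap.coe_mk]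
    rw [fourier_coe_apply]
    have e : (2 * Real.pi * Complex.I * ((2 ^ N : ℤ) : ℂ) * (x : ℂ) / ((1 : ℝ) : ℂ))
        = ((2 * Real.pi * 2 ^ N * x : ℝ) : ℂ) * Complex.I := by push_cast; ring
    rw [e, Complex.exp_ofReal_mul_I_im]
    push_cast
    ring

/-- product of the complex elementary maps -/
noncomputable def prC (N : ℕ) (v : ℕ → EP) (a : ℕ → ℝ) : ℕ → (C2 ≃ₜ C2)
  | 0 => 1
  | n + 1 => prC N v a n * elC (sinE (ll n * amp N) N) (v n) (a n)

/-- the complex conjugating maps -/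
noncomputable def HsC (N : ℕ → ℕ) (v : ℕ → ℕ → EP) (a : ℕ → ℝ) : ℕ → (C2 ≃ₜ C2)
  | 0 => 1
  | k + 1 => HsC N v a k * prC (N k) (v k) a k

/-- complex approximations -/
noncomputable def fC (N M : ℕ → ℕ) (v : ℕ → ℕ → EP) (a : ℕ → ℝ) (k : ℕ) : C2 ≃ₜ C2 :=
  HsC N v a k * rotC (al M k) * (HsC N v a k)⁻¹

/-- stage data -/
structure D where
  N : ℕ
  M : ℕ
  u : ℕ → EP

noncomputable def dN (d : ℕ → D) : ℕ → ℕ := fun k => (d k).N
noncomputable def dM (d : ℕ → D) : ℕ → ℕ := fun k => (d k).M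
noncomputable def dU (d : ℕ → D) : ℕ → ℕ → EP := fun k => (d k).u
noncomputable def dV (d : ℕ → D) : ℕ → ℕ → C(T1, ℝ) := fun k n => ((d k).u n).r

/-- the previous exponent -/
noncomputable def Mp (M : ℕ → ℕ) : ℕ → ℕ
  | 0 => 0
  | k + 1 => M k

/-- the conditions at stage `k` (they involve `d i` for `i ≤ k` only) -/
structure Cond (k : ℕ) (d : ℕ → D) : Prop where
  c0 : Mp (dM d) k ≤ dN d k
  c0' : k + 2 ≤ dN d k
  c0'' : dN d k < dM d k
  c1 : ∀ (a : Pm) (z : C2), |z.1.im| ≤ k → |z.2.im| ≤ k →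
    ‖fC (dN d) (dM d) (dU d) (cR a) (k + 1) z - fC (dN d) (dM d) (dU d) (cR a) k z‖ ≤ (1 / 2) ^ k
  c1' : ∀ (a : Pm) (z : C2), |z.1.im| ≤ k → |z.2.im| ≤ k →
    ‖(fC (dN d) (dM d) (dU d) (cR a) (k + 1))⁻¹ z - (fC (dN d) (dM d) (dU d) (cR a) k)⁻¹ z‖
      ≤ (1 / 2) ^ k
  c2 : ∀ (a : Pm) (p : T2),
    dist (Hs (dN d) (dV d) (cT a) (k + 1) ((Hs (dN d) (idl (dN d)) (cT a) (k + 1))⁻¹ p))
      (Hs (dN d) (dV d) (cT a) k ((Hs (dN d) (idl (dN d)) (cT a) k)⁻¹ p)) ≤ (1 / 2) ^ k
  c2' : ∀ (a : Pm) (p : T2),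
    dist (Hs (dN d) (idl (dN d)) (cT a) (k + 1) ((Hs (dN d) (dV d) (cT a) (k + 1))⁻¹ p))
      (Hs (dN d) (idl (dN d)) (cT a) k ((Hs (dN d) (dV d) (cT a) k)⁻¹ p)) ≤ (1 / 2) ^ k
  c3 : ∀ n ≤ k, ∀ p : A1, |p.2| ≤ 1 / 2 → ∀ t : ℝ, |t| ≤ 2 ^ (Mp (dM d) k) * dl (dM d k) →
    dist (Gm (dN d) n (k + 1) (p.1 + (t : T1), p.2)) (Gm (dN d) n (k + 1) p) ≤ (1 / 2) ^ k
  c4 : ∀ n < k, ∀ p : A1, |p.2| ≤ 1 / 2 → ∃ θ : T1,
    dist (Gm (dN d) n (k + 1) (θ, 0)) p ≤ (1 / 2) ^ k

/-- A map of the torus is covered by a map of `ℂ²` preserving `ℝ²`. -/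
noncomputable def Rel (F : C2 → C2) (f : T2 → T2) : Prop :=
  ∀ θ x : ℝ, ∃ θ' x' : ℝ, F ((θ : ℂ), (x : ℂ)) = ((θ' : ℂ), (x' : ℂ)) ∧
    f ((θ : T1), (x : T1)) = ((θ' : T1), (x' : T1))

/-- `ℤ²`-equivariance -/
noncomputable def Equi (F : C2 → C2) : Prop :=
  ∀ (z : C2) (m n : ℤ), F (z.1 + m, z.2 + n) = ((F z).1 + m, (F z).2 + n)

/-! ### orders -/

/-- left end points of the slots of the order `r` -/
noncomputable def aL (r : ℕ → ℕ → Prop) (n : ℕ) : ℝ := by
  classical exact ∑' m, if r m n then w m else 0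

/-- centres of the annuli of the order `r` -/
noncomputable def cen (r : ℕ → ℕ → Prop) (n : ℕ) : ℝ := aL r n + ll n / 2

end Pool.Agent.Helper114.AB
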