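import Pool.Agent.Helper114.AB.Defs

/-!
# MP_aef7b4_an: further definitions
-/

open Set Filter Topology

namespace Pool.Agent.Helper114.AB

/-- joint continuity of a family of homeomorphisms and of the inverses -/
def JC {X : Type*} [TopologicalSpace X] (g : Pm → (X ≃ₜ X)) : Prop :=
  Continuous (fun q : Pm × X => g q.1 q.2) ∧ Continuous (fun q : Pm × X => (g q.1)⁻¹ q.2)

-- A3 arithmetic of `al`
/-- the standing assumption on the exponents -/
structure Expo (N M : ℕ → ℕ) : Prop where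
  c0 : ∀ k, Mp M k ≤ N k
  c0' : ∀ k, k + 2 ≤ N k
  c0'' : ∀ k, N k < M k

/-- version up to stage `k` -/
structure ExpoLt (N M : ℕ → ℕ) (k : ℕ) : Prop where
  c0 : ∀ i < k, Mp M i ≤ N i
  c0'' : ∀ i < k, N i < M i

/-- a homeomorphism of `A1` preserving the closed strip -/
def Strip (g : A1 ≃ₜ A1) : Prop :=
  (∀ p : A1, |p.2| ≤ 1 / 2 ↔ |(g p).2| ≤ 1 / 2) ∧ (∀ p : A1, |p.2| < 1 / 2 ↔ |(g p).2| < 1 / 2)

/-- the open annuli -/
def Wo (c : ℕ → ℝ) (n : ℕ) : Set T2 := Sn (c n) n '' {p : A1 | |p.2| < 1 / 2}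
/-- the closed annuli -/
def Wc (c : ℕ → ℝ) (n : ℕ) : Set T2 := Sn (c n) n '' {p : A1 | |p.2| ≤ 1 / 2}

/-- the closed annuli do not meet the open ones (up to their own) -/
def Disj (c : ℕ → ℝ) : Prop :=
  ∀ m n, m ≠ n → ∀ t : ℝ, |t| ≤ 1 / 2 → ll n / 2 ≤ ‖((c m + ll m * t - c n : ℝ) : T1)‖

/-- `cT` for arbitrary real centres -/
noncomputable def cc (c : ℕ → ℝ) : ℕ → T1 := fun n => ((c n : ℝ) : T1)

/-- facts on an ideal system, packaged -/
structure Ideal (N M : ℕ → ℕ) (c : ℕ → ℝ) (Fh : T2 ≃ₜ T2) : Prop where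
  expo : Expo N M
  c3 : ∀ k, ∀ n ≤ k, ∀ p : A1, |p.2| ≤ 1 / 2 → ∀ t : ℝ, |t| ≤ 2 ^ (Mp M k) * dl (M k) →
      dist (Gm N n (k + 1) (p.1 + (t : T1), p.2)) (Gm N n (k + 1) p) ≤ (1 / 2) ^ k
  c4 : ∀ k, ∀ n < k, ∀ p : A1, |p.2| ≤ 1 / 2 → ∃ θ : T1,
      dist (Gm N n (k + 1) (θ, 0)) p ≤ (1 / 2) ^ k
  disj : Disj c
  lim : TendstoUniformly (fun k p => fs N M (idl N) (cc c) k p) Fh atTop

/-- `A` is an open invariant set on which `f` is topologically transitive -/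
def Tr (f : T2 ≃ₜ T2) (A : Set T2) : Prop :=
  IsOpen A ∧ A.Nonempty ∧ (∀ p, f p ∈ A ↔ p ∈ A) ∧
    ∀ U V : Set T2, U ⊆ A → V ⊆ A → IsOpen U → IsOpen V → U.Nonempty → V.Nonempty →
      ∃ p ∈ U, ∃ j : ℕ, (⇑f)^[j] p ∈ V

/-- strict total orders, in elementary terms -/
structure STO {A : Type*} (r : A → A → Prop) : Prop where
  irr : ∀ n, ¬ r n n
  tr : ∀ l m n, r l m → r m n → r l n
  tot : ∀ m n, m = n ∨ r m n ∨ r n m

/-- a nonempty set, each element of which is a limit from below of elements of the set -/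
def DL {A : Type*} (r : A → A → Prop) (S : Set A) : Prop :=
  S.Nonempty ∧ ∀ s ∈ S, (∃ m, r m s) ∧ ∀ m, r m s → ∃ s' ∈ S, r m s' ∧ r s' s

/-- product homeomorphism `(θ, x) ↦ (θ, κ x)` -/
def prodK (κ : T1 ≃ₜ T1) : T2 ≃ₜ T2 := (Homeomorph.refl T1).prodCongr κ

/-- the order `ω^L`: finitely supported functions, compared at the largest difference -/
def Ex {A : Type*} (L : A → A → Prop) (f g : A →₀ ℕ) : Prop :=
  ∃ a, f a < g a ∧ ∀ b, L a b → f b = g b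

/-- the order `ω^L (1 + η)` -/
def Ex2 {A : Type*} (L : A → A → Prop) (p q : WithBot ℚ × (A →₀ ℕ)) : Prop :=
  p.1 < q.1 ∨ (p.1 = q.1 ∧ Ex L p.2 q.2)

open scoped Manifold ContDiff

noncomputable def EM : T2 ≃ₜ Circle × Circle :=
  (AddCircle.homeomorphCircle (one_ne_zero (α := ℝ))).prodCongr
    (AddCircle.homeomorphCircle (one_ne_zero (α := ℝ)))

end Pool.Agent.Helper114.AB
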