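import Pool.Agent.Helper114.AB.D

/-!
# MP_aef7b4_an: part E
-/

open Set Filter Topology

namespace Pool.Agent.Helper114.AB

section

theorem mw_ll (n : ℕ) : 0 < ll n ∧ ll n ≤ 1 / 8 := by
  unfold ll
  constructor
  · positivity
  · rw [pow_add]
    have h : ((1 : ℝ) / 2) ^ n ≤ 1 := pow_le_one₀ (by norm_num) (by norm_num)
    nlinarith

theorem mw_norm (c : ℝ) (n : ℕ) (q : A1) (h : |ll n * q.2| ≤ 1 / 2) :
    ‖(Sn c n q).2 - (c : T1)‖ = |ll n * q.2| := by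
  have h1 : (Sn c n q).2 - (c : T1) = ((ll n * q.2 : ℝ) : T1) := by
    change ((c + ll n * q.2 : ℝ) : T1) - (c : T1) = _
    rw [AddCircle.coe_add, add_sub_cancel_left]
  rw [h1]
  exact (AddCircle.norm_coe_eq_abs_iff (p := 1) one_ne_zero).mpr (by rwa [abs_one])

theorem mw_ex (c : ℝ) (n : ℕ) (p : T2) :
    ∃ q : A1, Sn c n q = p ∧ ll n * |q.2| = ‖p.2 - (c : T1)‖ := by
  obtain ⟨x, hx⟩ : ∃ x : ℝ, (x : T1) = p.2 - (c : T1) := QuotientAddGroup.mk_surjective _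
  have hl := (mw_ll n).1
  have hs : ((x - round x : ℝ) : T1) = p.2 - (c : T1) := by
    rw [AddCircle.coe_sub, hx]
    have h0 : (((round x : ℤ) : ℝ) : T1) = 0 := by
      rw [AddCircle.coe_eq_zero_iff]
      exact ⟨round x, by simp⟩
    rw [h0, sub_zero]
  refine ⟨(p.1, (x - round x) / ll n), ?_, ?_⟩
  · apply Prod.ext
    · rfl
    · change ((c + ll n * ((x - round x) / ll n) : ℝ) : T1) = p.2
      rw [mul_div_cancel₀ _ hl.ne', AddCircle.coe_add, hs]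
      abel
  · change ll n * |(x - round x) / ll n| = _
    rw [abs_div, abs_of_pos hl, mul_div_cancel₀ _ hl.ne', ← hx, UnitAddCircle.norm_eq]

theorem mw_small (n : ℕ) {t : ℝ} (h : |t| ≤ 1 / 2) : |ll n * t| ≤ 1 / 2 := by
  obtain ⟨h1, h2⟩ := mw_ll n
  rw [abs_mul, abs_of_pos h1]
  nlinarith [abs_nonneg t]

theorem mem_Wo {c : ℕ → ℝ} {n : ℕ} {p : T2} : p ∈ Wo c n ↔ ‖p.2 - (c n : T1)‖ < ll n / 2 := by
  obtain ⟨hl, -⟩ := mw_ll n
  constructor
  · rintro ⟨q, hq, rfl⟩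
    have hq' : |q.2| < 1 / 2 := hq
    rw [mw_norm _ _ _ (mw_small n hq'.le), abs_mul, abs_of_pos hl]
    nlinarith
  · intro h
    obtain ⟨q, hq, hq2⟩ := mw_ex (c n) n p
    refine ⟨q, ?_, hq⟩
    rw [← hq2] at h
    change |q.2| < 1 / 2
    have h3 : ll n * |q.2| < ll n * (1 / 2) := by linarith
    exact lt_of_mul_lt_mul_left h3 hl.le

theorem mem_Wc {c : ℕ → ℝ} {n : ℕ} {p : T2} : p ∈ Wc c n ↔ ‖p.2 - (c n : T1)‖ ≤ ll n / 2 := by
  obtain ⟨hl, -⟩ := mw_ll n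
  constructor
  · rintro ⟨q, hq, rfl⟩
    have hq' : |q.2| ≤ 1 / 2 := hq
    rw [mw_norm _ _ _ (mw_small n hq'), abs_mul, abs_of_pos hl]
    nlinarith
  · intro h
    obtain ⟨q, hq, hq2⟩ := mw_ex (c n) n p
    refine ⟨q, ?_, hq⟩
    rw [← hq2] at h
    change |q.2| ≤ 1 / 2
    have h3 : ll n * |q.2| ≤ ll n * (1 / 2) := by linarith
    exact le_of_mul_le_mul_left h3 hl

theorem isOpen_Wo (c : ℕ → ℝ) (n : ℕ) : IsOpen (Wo c n) := by
  have h : Wo c n = {p : T2 | ‖p.2 - (c n : T1)‖ < ll n / 2} := by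
    ext p
    exact mem_Wo
  rw [h]
  exact isOpen_lt (by fun_prop) continuous_const

theorem isClosed_Wc (c : ℕ → ℝ) (n : ℕ) : IsClosed (Wc c n) := by
  have h : Wc c n = {p : T2 | ‖p.2 - (c n : T1)‖ ≤ ll n / 2} := by
    ext p
    exact mem_Wc
  rw [h]
  exact isClosed_le (by fun_prop) continuous_const

theorem mw_Sn_cont (c : ℝ) (n : ℕ) : Continuous (Sn c n) := by
  unfold Sn
  refine Continuous.prodMk continuous_fst ((AddCircle.continuous_mk' 1).comp ?_)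
  fun_prop

theorem interior_Wc (c : ℕ → ℝ) (n : ℕ) : interior (Wc c n) = Wo c n := by
  obtain ⟨hl, hl8⟩ := mw_ll n
  apply Set.Subset.antisymm
  · intro p hp
    by_contra hno
    have h1 : ‖p.2 - (c n : T1)‖ ≤ ll n / 2 := mem_Wc.mp (interior_subset hp)
    have h2 : ¬ ‖p.2 - (c n : T1)‖ < ll n / 2 := fun h => hno (mem_Wo.mpr h)
    obtain ⟨q, hq, hq2⟩ := mw_ex (c n) n p
    have h3 : |q.2| = 1 / 2 := by
      have h4 : ll n * |q.2| = ll n * (1 / 2) := by linarith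
      exact mul_left_cancel₀ hl.ne' h4
    have hφ : Continuous fun e : ℝ => Sn (c n) n (q.1, (1 + e) * q.2) :=
      (mw_Sn_cont (c n) n).comp (by fun_prop)
    have hnh : (fun e : ℝ => Sn (c n) n (q.1, (1 + e) * q.2)) ⁻¹' interior (Wc c n) ∈ 𝓝 (0 : ℝ) := by
      apply (isOpen_interior.preimage hφ).mem_nhds
      change Sn (c n) n (q.1, (1 + 0) * q.2) ∈ interior (Wc c n)
      rw [add_zero, one_mul]
      change Sn (c n) n q ∈ _
      rw [hq]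
      exact hp
    obtain ⟨δ, hδ, hball⟩ := Metric.mem_nhds_iff.mp hnh
    have he : min (δ / 2) 1 ∈ Metric.ball (0 : ℝ) δ := by
      rw [mem_ball_zero_iff, Real.norm_eq_abs, abs_of_pos (by positivity)]
      exact (min_le_left _ _).trans_lt (by linarith)
    set e := min (δ / 2) 1 with hedef
    have he0 : 0 < e := by positivity
    have he1 : e ≤ 1 := min_le_right _ _
    have h5 : Sn (c n) n (q.1, (1 + e) * q.2) ∈ Wc c n := interior_subset (hball he)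
    have h6 := mem_Wc.mp h5
    have h7 : |ll n * ((1 + e) * q.2)| = ll n * ((1 + e) * (1 / 2)) := by
      rw [abs_mul, abs_mul, h3, abs_of_pos hl, abs_of_pos (by linarith : 0 < 1 + e)]
    rw [mw_norm (c n) n (q.1, (1 + e) * q.2) (by
      change |ll n * ((1 + e) * q.2)| ≤ 1 / 2
      rw [h7]
      nlinarith)] at h6
    change |ll n * ((1 + e) * q.2)| ≤ ll n / 2 at h6
    rw [h7] at h6
    have h8 : 0 < ll n * e := by positivity
    nlinarith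
  · apply interior_maximal _ (isOpen_Wo c n)
    intro p hp
    exact mem_Wc.mpr (mem_Wo.mp hp).le

end

section

theorem Hs_aux_dl (N : ℕ) (hN : 2 ≤ N) : 0 < dl N ∧ dl N ≤ 1 / 4 := by
  unfold dl
  constructor
  · positivity
  · calc ((1:ℝ) / 2) ^ N ≤ (1 / 2) ^ 2 :=
        pow_le_pow_of_le_one (by norm_num) (by norm_num) hN
      _ = 1 / 4 := by norm_num

theorem Hs_aux_ll (n : ℕ) : 0 < ll n ∧ ll n ≤ 1 / 8 := by
  unfold ll
  constructor
  · positivity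
  · calc ((1:ℝ) / 2) ^ (n + 3) ≤ (1 / 2) ^ 3 :=
        pow_le_pow_of_le_one (by norm_num) (by norm_num) (by omega)
      _ = 1 / 8 := by norm_num

theorem Hs_aux_sin (A : ℝ) (N : ℕ) (θ : T1) : |sinF A N θ| ≤ |A| := by
  have h : sinF A N θ = A * (fourier ((2 : ℤ) ^ N) θ).im := rfl
  rw [h, abs_mul]
  have h1 : |(fourier ((2 : ℤ) ^ N) θ).im| ≤ 1 := by
    refine (Complex.abs_im_le_norm _).trans ?_
    rw [fourier_apply]
    exact (Circle.norm_coe _).le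
  calc |A| * |(fourier ((2 : ℤ) ^ N) θ).im| ≤ |A| * 1 :=
        mul_le_mul_of_nonneg_left h1 (abs_nonneg _)
    _ = |A| := mul_one _

theorem Hs_aux_sin_mul (L A : ℝ) (N : ℕ) (θ : T1) : sinF (L * A) N θ = L * sinF A N θ := by
  have h : sinF A N θ = A * (fourier ((2 : ℤ) ^ N) θ).im := rfl
  have h' : sinF (L * A) N θ = L * A * (fourier ((2 : ℤ) ^ N) θ).im := rfl
  rw [h, h']
  ring

theorem Hs_aux_amp (N : ℕ) (hN : 2 ≤ N) : 0 ≤ amp N ∧ amp N ≤ 1 / 4 := by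
  obtain ⟨h1, h2⟩ := Hs_aux_dl N hN
  unfold amp
  constructor <;> linarith

theorem Hs_aux_vsh (N n : ℕ) (c : ℝ) (q : A1) :
    vsh (sinF (ll n * amp N) N) (Sn c n q) = Sn c n (mv N q) := by
  show (q.1, ((c + ll n * q.2 : ℝ) : T1) + ((sinF (ll n * amp N) N q.1 : ℝ) : T1)) =
    (q.1, ((c + ll n * (q.2 + sinF (amp N) N q.1) : ℝ) : T1))
  rw [Hs_aux_sin_mul, ← AddCircle.coe_add]
  congr 2
  ring

theorem Hs_aux_vsh_inv (N n : ℕ) (c : ℝ) (q : A1) :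
    (vsh (sinF (ll n * amp N) N))⁻¹ (Sn c n q) = Sn c n ((mv N)⁻¹ q) := by
  show (q.1, ((c + ll n * q.2 : ℝ) : T1) - ((sinF (ll n * amp N) N q.1 : ℝ) : T1)) =
    (q.1, ((c + ll n * (q.2 - sinF (amp N) N q.1) : ℝ) : T1))
  rw [Hs_aux_sin_mul, ← AddCircle.coe_sub]
  congr 2
  ring

theorem Hs_aux_hsh (N n : ℕ) (c : ℝ) (q : A1) (hq : |q.2| ≤ 3 / 4) :
    hsh (bump N n) (c : T1) (Sn c n q) = Sn c n (mh N q) := by
  obtain ⟨hl0, hl1⟩ := Hs_aux_ll n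
  have h1 : ((c + ll n * q.2 : ℝ) : T1) - (c : T1) = ((ll n * q.2 : ℝ) : T1) := by
    rw [← AddCircle.coe_sub]
    congr 1
    ring
  have h2 : ‖((ll n * q.2 : ℝ) : T1)‖ = |ll n * q.2| := by
    rw [AddCircle.norm_coe_eq_abs_iff (1:ℝ) one_ne_zero]
    rw [abs_mul, abs_of_pos hl0, abs_one]
    nlinarith [abs_nonneg q.2]
  have h3 : |ll n * q.2| / ll n = |q.2| := by
    rw [abs_mul, abs_of_pos hl0]
    field_simp
  show (q.1 + ((dl (N + 1) * plat N (‖((c + ll n * q.2 : ℝ) : T1) - (c : T1)‖ / ll n) : ℝ) : T1),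
      ((c + ll n * q.2 : ℝ) : T1)) =
    (q.1 + ((dl (N + 1) * plat N |q.2| : ℝ) : T1), ((c + ll n * q.2 : ℝ) : T1))
  rw [h1, h2, h3]

theorem Hs_aux_el (N n : ℕ) (hN : 2 ≤ N) (c : ℝ) (p : A1) (hp : |p.2| ≤ 1 / 2) :
    el (sinF (ll n * amp N) N) (bump N n) (c : T1) (Sn c n p) = Sn c n (me N p) := by
  have h0 : el (sinF (ll n * amp N) N) (bump N n) (c : T1) (Sn c n p) =
      (vsh (sinF (ll n * amp N) N))⁻¹ (hsh (bump N n) (c : T1)
        (vsh (sinF (ll n * amp N) N) (Sn c n p))) := rfl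
  have h1 : me N p = (mv N)⁻¹ (mh N (mv N p)) := rfl
  obtain ⟨ha0, ha1⟩ := Hs_aux_amp N hN
  have h2 : |(mv N p).2| ≤ 3 / 4 := by
    show |p.2 + sinF (amp N) N p.1| ≤ 3 / 4
    have h3 := Hs_aux_sin (amp N) N p.1
    rw [abs_of_nonneg ha0] at h3
    calc |p.2 + sinF (amp N) N p.1| ≤ |p.2| + |sinF (amp N) N p.1| := abs_add_le _ _
      _ ≤ 3 / 4 := by linarith
  rw [h0, h1, Hs_aux_vsh, Hs_aux_hsh N n c _ h2, Hs_aux_vsh_inv]

theorem Hs_aux_el_fix (N m : ℕ) (hN : 2 ≤ N) (c : T1) (p : T2)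
    (hp : ll m / 2 ≤ ‖p.2 - c‖) :
    el (sinF (ll m * amp N) N) (bump N m) c p = p := by
  have h0 : el (sinF (ll m * amp N) N) (bump N m) c p =
      (vsh (sinF (ll m * amp N) N))⁻¹ (hsh (bump N m) c
        (vsh (sinF (ll m * amp N) N) p)) := rfl
  obtain ⟨ha0, ha1⟩ := Hs_aux_amp N hN
  obtain ⟨hl0, hl1⟩ := Hs_aux_ll m
  obtain ⟨hd0, hd1⟩ := Hs_aux_dl N hN
  have h1 : hsh (bump N m) c (vsh (sinF (ll m * amp N) N) p) = vsh (sinF (ll m * amp N) N) p := by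
    have hs := Hs_aux_sin (ll m * amp N) N p.1
    rw [abs_of_nonneg (mul_nonneg hl0.le ha0)] at hs
    have h2 : ll m * (1 / 4 + dl N / 2) ≤
        ‖p.2 + ((sinF (ll m * amp N) N p.1 : ℝ) : T1) - c‖ := by
      have h3 : ‖((sinF (ll m * amp N) N p.1 : ℝ) : T1)‖ ≤ |sinF (ll m * amp N) N p.1| := by
        have := QuotientAddGroup.norm_mk_le_norm (S := AddSubgroup.zmultiples (1:ℝ))
          (m := sinF (ll m * amp N) N p.1)
        rw [Real.norm_eq_abs] at this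
        exact this
      have h4 : p.2 - c = (p.2 + ((sinF (ll m * amp N) N p.1 : ℝ) : T1) - c)
          - ((sinF (ll m * amp N) N p.1 : ℝ) : T1) := by abel
      have h5 : ‖p.2 - c‖ ≤ ‖p.2 + ((sinF (ll m * amp N) N p.1 : ℝ) : T1) - c‖
          + ‖((sinF (ll m * amp N) N p.1 : ℝ) : T1)‖ := by
        conv_lhs => rw [h4]
        exact norm_sub_le _ _
      have h6 : ll m * amp N = ll m * (1 / 4 - dl N / 2) := rfl
      nlinarith
    have h7 : plat N (‖p.2 + ((sinF (ll m * amp N) N p.1 : ℝ) : T1) - c‖ / ll m) = 0 := by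
      unfold plat
      apply max_eq_left
      apply (min_le_right _ _).trans
      apply div_nonpos_of_nonpos_of_nonneg _ hd0.le
      have h8 : 1 / 4 + dl N / 2 ≤ ‖p.2 + ((sinF (ll m * amp N) N p.1 : ℝ) : T1) - c‖ / ll m := by
        rw [le_div_iff₀ hl0]
        linarith
      linarith
    show (p.1 + ((dl (N + 1) * plat N (‖p.2 + ((sinF (ll m * amp N) N p.1 : ℝ) : T1) - c‖ / ll m)
      : ℝ) : T1), p.2 + ((sinF (ll m * amp N) N p.1 : ℝ) : T1)) =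
      (p.1, p.2 + ((sinF (ll m * amp N) N p.1 : ℝ) : T1))
    rw [h7, mul_zero, AddCircle.coe_zero, add_zero]
  rw [h0, h1]
  exact (vsh (sinF (ll m * amp N) N)).symm_apply_apply p

theorem Hs_aux_pr (N : ℕ) (hN : 2 ≤ N) (c : ℕ → ℝ) (hc : Disj c) (n j : ℕ) (p : A1)
    (hp : |p.2| ≤ 1 / 2) :
    pr N (fun m => bump N m) (cc c) j (Sn (c n) n p) =
      Sn (c n) n ((if n < j then me N else 1 : A1 ≃ₜ A1) p) := by
  induction j generalizing p with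
  | zero => rfl
  | succ j ih =>
    have h0 : pr N (fun m => bump N m) (cc c) (j + 1) (Sn (c n) n p) =
        pr N (fun m => bump N m) (cc c) j
          (el (sinF (ll j * amp N) N) (bump N j) ((c j : ℝ) : T1) (Sn (c n) n p)) := rfl
    rw [h0]
    by_cases hj : j = n
    · subst hj
      rw [Hs_aux_el N j hN (c j) p hp]
      have h1 : |(me N p).2| ≤ 1 / 2 := ((strip_me N hN).1 p).1 hp
      rw [ih (me N p) h1, if_neg (lt_irrefl j), if_pos (Nat.lt_succ_self j)]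
      rfl
    · have h1 : ll j / 2 ≤ ‖(Sn (c n) n p).2 - ((c j : ℝ) : T1)‖ := by
        have h2 := hc n j (fun h => hj h.symm) p.2 hp
        have h3 : (Sn (c n) n p).2 - ((c j : ℝ) : T1) = ((c n + ll n * p.2 - c j : ℝ) : T1) := by
          rw [AddCircle.coe_sub]
          rfl
        rw [h3]
        exact h2
      rw [Hs_aux_el_fix N j hN _ _ h1, ih p hp]
      have h4 : (n < j + 1) ↔ n < j := by omega
      simp only [h4]

theorem Hs_aux_fwd (N : ℕ → ℕ) (hN : ∀ k, 2 ≤ N k) (c : ℕ → ℝ) (hc : Disj c) (n k : ℕ) (p : A1)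
    (hp : |p.2| ≤ 1 / 2) :
    Hs N (idl N) (cc c) k (Sn (c n) n p) = Sn (c n) n (Gm N n k p) := by
  induction k generalizing p with
  | zero => rfl
  | succ k ih =>
    have h0 : Hs N (idl N) (cc c) (k + 1) (Sn (c n) n p) =
        Hs N (idl N) (cc c) k (pr (N k) (fun m => bump (N k) m) (cc c) k (Sn (c n) n p)) := rfl
    rw [h0, Hs_aux_pr (N k) (hN k) c hc n k p hp]
    have h1 : |((if n < k then me (N k) else 1 : A1 ≃ₜ A1) p).2| ≤ 1 / 2 := by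
      split_ifs
      · exact ((strip_me (N k) (hN k)).1 p).1 hp
      · exact hp
    rw [ih _ h1]
    rfl

theorem Hs_aux_pr_off (N : ℕ) (hN : 2 ≤ N) (c : ℕ → ℝ) (j : ℕ) (p : T2)
    (hp : ∀ n, ll n / 2 ≤ ‖p.2 - (c n : T1)‖) :
    pr N (fun m => bump N m) (cc c) j p = p := by
  induction j with
  | zero => rfl
  | succ j ih =>
    have h0 : pr N (fun m => bump N m) (cc c) (j + 1) p =
        pr N (fun m => bump N m) (cc c) j
          (el (sinF (ll j * amp N) N) (bump N j) ((c j : ℝ) : T1) p) := rfl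
    rw [h0, Hs_aux_el_fix N j hN _ _ (hp j), ih]

-- intertwining
theorem Hs_Sn (N : ℕ → ℕ) (hN : ∀ k, 2 ≤ N k) (c : ℕ → ℝ) (hc : Disj c) (n k : ℕ) (p : A1)
    (hp : |p.2| ≤ 1 / 2) :
    Hs N (idl N) (cc c) k (Sn (c n) n p) = Sn (c n) n (Gm N n k p) ∧
    (Hs N (idl N) (cc c) k)⁻¹ (Sn (c n) n p) = Sn (c n) n ((Gm N n k)⁻¹ p) := by
  refine ⟨Hs_aux_fwd N hN c hc n k p hp, ?_⟩
  have h1 : Gm N n k ((Gm N n k)⁻¹ p) = p := (Gm N n k).apply_symm_apply p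
  have h2 : |((Gm N n k)⁻¹ p).2| ≤ 1 / 2 := by
    rw [(strip_Gm N n k (fun i _ => hN i)).1, h1]
    exact hp
  have h3 := Hs_aux_fwd N hN c hc n k _ h2
  rw [h1] at h3
  rw [← h3]
  exact (Hs N (idl N) (cc c) k).symm_apply_apply _

theorem Hs_off (N : ℕ → ℕ) (hN : ∀ k, 2 ≤ N k) (c : ℕ → ℝ) (k : ℕ) (p : T2)
    (hp : ∀ n, p ∉ Wo c n) :
    Hs N (idl N) (cc c) k p = p ∧ (Hs N (idl N) (cc c) k)⁻¹ p = p := by
  have hp' : ∀ n, ll n / 2 ≤ ‖p.2 - (c n : T1)‖ := by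
    intro n
    have h := hp n
    rw [mem_Wo] at h
    exact not_lt.mp h
  have h1 : Hs N (idl N) (cc c) k p = p := by
    induction k with
    | zero => rfl
    | succ k ih =>
      have h0 : Hs N (idl N) (cc c) (k + 1) p =
          Hs N (idl N) (cc c) k (pr (N k) (fun m => bump (N k) m) (cc c) k p) := rfl
      rw [h0, Hs_aux_pr_off (N k) (hN k) c k p hp', ih]
  refine ⟨h1, ?_⟩
  conv_lhs => rw [← h1]
  exact (Hs N (idl N) (cc c) k).symm_apply_apply p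

end

section

theorem fs_Sn (N M : ℕ → ℕ) (hN : ∀ k, 2 ≤ N k) (c : ℕ → ℝ) (hc : Disj c) (n k j : ℕ) (p : A1)
    (hp : |p.2| ≤ 1 / 2) :
    (⇑(fs N M (idl N) (cc c) k))^[j] (Sn (c n) n p) =
      Sn (c n) n (Gm N n k (((Gm N n k)⁻¹ p).1 + ((j * al M k : ℝ) : T1), ((Gm N n k)⁻¹ p).2)) := by
  have hS := strip_Gm N n k (fun i _ => hN i)
  have hgi : ∀ q : A1, (Gm N n k)⁻¹ (Gm N n k q) = q := fun q => (Gm N n k).symm_apply_apply q
  have hig : ∀ q : A1, Gm N n k ((Gm N n k)⁻¹ q) = q := fun q => (Gm N n k).apply_symm_apply q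
  induction j with
  | zero =>
    rw [Function.iterate_zero_apply]
    have e : (((Gm N n k)⁻¹ p).1 + (((0 : ℕ) * al M k : ℝ) : T1), ((Gm N n k)⁻¹ p).2) =
        (Gm N n k)⁻¹ p := by
      simp
    rw [e, hig]
  | succ j ih =>
    rw [Function.iterate_succ_apply', ih]
    set r : A1 := (((Gm N n k)⁻¹ p).1 + ((j * al M k : ℝ) : T1), ((Gm N n k)⁻¹ p).2) with hr
    have hr2 : |r.2| ≤ 1 / 2 := by
      show |((Gm N n k)⁻¹ p).2| ≤ 1 / 2
      rw [hS.1, hig]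
      exact hp
    have hq : |(Gm N n k r).2| ≤ 1 / 2 := (hS.1 r).1 hr2
    have h1 := (Hs_Sn N hN c hc n k (Gm N n k r) hq).2
    rw [hgi] at h1
    have h2 := (Hs_Sn N hN c hc n k (r.1 + ((al M k : ℝ) : T1), r.2) hr2).1
    have h3 : fs N M (idl N) (cc c) k (Sn (c n) n (Gm N n k r)) =
        Hs N (idl N) (cc c) k (rot (al M k) ((Hs N (idl N) (cc c) k)⁻¹
          (Sn (c n) n (Gm N n k r)))) := rfl
    have h4 : rot (al M k) (Sn (c n) n r) = Sn (c n) n (r.1 + ((al M k : ℝ) : T1), r.2) := rfl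
    rw [h3, h1, h4, h2]
    congr 2
    rw [hr]
    refine Prod.ext ?_ rfl
    show ((Gm N n k)⁻¹ p).1 + ((j * al M k : ℝ) : T1) + ((al M k : ℝ) : T1) =
      ((Gm N n k)⁻¹ p).1 + (((j + 1 : ℕ) * al M k : ℝ) : T1)
    rw [add_assoc]
    congr 1
    rw [← AddCircle.coe_add]
    congr 1
    push_cast
    ring

theorem fs_off (N M : ℕ → ℕ) (hN : ∀ k, 2 ≤ N k) (c : ℕ → ℝ) (k : ℕ) (p : T2)
    (hp : ∀ n, p ∉ Wo c n) :
    fs N M (idl N) (cc c) k p = (p.1 + ((al M k : ℝ) : T1), p.2) := by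
  have h1 : fs N M (idl N) (cc c) k p =
      Hs N (idl N) (cc c) k (rot (al M k) ((Hs N (idl N) (cc c) k)⁻¹ p)) := rfl
  rw [h1, (Hs_off N hN c k p hp).2]
  have h2 : rot (al M k) p = (p.1 + ((al M k : ℝ) : T1), p.2) := rfl
  rw [h2]
  refine (Hs_off N hN c k _ fun n hn => hp n ?_).1
  rw [mem_Wo] at hn ⊢
  exact hn

end

section

theorem iter_close_mrot_pow (t : ℝ) (j : ℕ) : (mrot t) ^ j = mrot (j * t) := by
  induction j with
  | zero =>
    rw [pow_zero]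
    apply Homeomorph.ext
    intro p
    show p = (p.1 + (((0 : ℕ) * t : ℝ) : T1), p.2)
    simp
  | succ j ih =>
    rw [pow_succ, ih]
    apply Homeomorph.ext
    intro p
    show (p.1 + (t : T1) + ((j * t : ℝ) : T1), p.2) = (p.1 + ((((j + 1 : ℕ) : ℝ) * t : ℝ) : T1), p.2)
    have : ((((j + 1 : ℕ) : ℝ) * t : ℝ) : T1) = (t : T1) + ((j * t : ℝ) : T1) := by
      rw [← AddCircle.coe_add]
      congr 1
      push_cast
      ring
    rw [this, add_assoc]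

theorem iter_close_norm (x : ℝ) : ‖(x : T1)‖ ≤ |x| := by
  have h := UnitAddCircle.norm_eq (x := x)
  rw [h]
  have := round_le x 0
  simpa using this

theorem iter_close_Sn (c : ℝ) (n : ℕ) (a b : A1) : dist (Sn c n a) (Sn c n b) ≤ dist a b := by
  rw [Prod.dist_eq, Prod.dist_eq]
  apply max_le_max le_rfl
  show dist ((c + ll n * a.2 : ℝ) : T1) ((c + ll n * b.2 : ℝ) : T1) ≤ dist a.2 b.2
  rw [dist_eq_norm, ← AddCircle.coe_sub, Real.dist_eq]
  refine (iter_close_norm _).trans ?_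
  have h1 : c + ll n * a.2 - (c + ll n * b.2) = ll n * (a.2 - b.2) := by ring
  rw [h1, abs_mul]
  have h2 : |ll n| ≤ 1 := by
    unfold ll
    rw [abs_of_nonneg (by positivity)]
    exact pow_le_one₀ (by norm_num) (by norm_num)
  exact mul_le_of_le_one_left (abs_nonneg _) h2

theorem iter_close_Mp {N M : ℕ → ℕ} (h : Expo N M) : Monotone (Mp M) := by
  apply monotone_nat_of_le_succ
  intro k
  exact (h.c0 k).trans (h.c0'' k).le

theorem iter_close_step {N M : ℕ → ℕ} {c : ℕ → ℝ} {Fh : T2 ≃ₜ T2} (h : Ideal N M c Fh) (n k : ℕ)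
    (hk : n ≤ k) (j : ℕ) (hj : j ≤ 2 ^ (Mp M k)) (q : A1) (hq : |q.2| ≤ 1 / 2) (i : ℕ)
    (hi : k ≤ i) :
    dist ((⇑(fs N M (idl N) (cc c) (i + 1)))^[j] (Sn (c n) n q))
      ((⇑(fs N M (idl N) (cc c) i))^[j] (Sn (c n) n q)) ≤ (1 / 2) ^ i := by
  have hN : ∀ k, 2 ≤ N k := fun k => by
    have := h.expo.c0' k
    omega
  have hlt : ExpoLt N M i := ⟨fun i _ => h.expo.c0 i, fun i _ => h.expo.c0'' i⟩
  have hfm := fm_eq hlt (h.expo.c0 i) n
  rw [fs_Sn N M hN c h.disj n (i + 1) j q hq, fs_Sn N M hN c h.disj n i j q hq]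
  set G := Gm N n (i + 1) with hG
  -- rewrite the second point with `G`
  have hpow : Gm N n i * mrot (j * al M i) * (Gm N n i)⁻¹ = G * mrot (j * al M i) * G⁻¹ := by
    rw [← iter_close_mrot_pow, ← conj_pow, ← conj_pow, ← hfm]
    rfl
  have h2 : Gm N n i (((Gm N n i)⁻¹ q).1 + ((j * al M i : ℝ) : T1), ((Gm N n i)⁻¹ q).2) =
      G ((G⁻¹ q).1 + ((j * al M i : ℝ) : T1), (G⁻¹ q).2) := by
    have h3 := congrArg (fun g : A1 ≃ₜ A1 => g q) hpow
    exact h3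
  rw [h2]
  refine (iter_close_Sn _ _ _ _).trans ?_
  have hs : |(G⁻¹ q).2| ≤ 1 / 2 := by
    have h4 := ((strip_Gm N n (i + 1) (fun i _ => hN i)).1 (G⁻¹ q)).2
    apply h4
    have h5 : Gm N n (i + 1) (G⁻¹ q) = q := G.apply_symm_apply q
    rw [h5]
    exact hq
  have ht : |(j : ℝ) * dl (M i)| ≤ 2 ^ (Mp M i) * dl (M i) := by
    have h6 : 0 ≤ dl (M i) := by
      unfold dl
      positivity
    rw [abs_mul, abs_of_nonneg h6, Nat.abs_cast]
    apply mul_le_mul_of_nonneg_right _ h6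
    have h7 : j ≤ 2 ^ (Mp M i) :=
      hj.trans (Nat.pow_le_pow_right (by norm_num) (iter_close_Mp h.expo hi))
    exact_mod_cast h7
  have h8 := h.c3 i n (hk.trans hi) ((G⁻¹ q).1 + ((j * al M i : ℝ) : T1), (G⁻¹ q).2) hs
    ((j : ℝ) * dl (M i)) ht
  have h9 : (G⁻¹ q).1 + ((j * al M (i + 1) : ℝ) : T1) =
      (G⁻¹ q).1 + ((j * al M i : ℝ) : T1) + (((j : ℝ) * dl (M i) : ℝ) : T1) := by
    rw [add_assoc, ← AddCircle.coe_add]
    congr 2
    show (j : ℝ) * (al M i + dl (M i)) = _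
    ring
  rw [h9]
  exact h8

theorem iter_close_lim {F : ℕ → T2 → T2} {f : T2 → T2} (hf : Continuous f)
    (h : TendstoUniformly F f atTop) (p : T2) (j : ℕ) :
    Tendsto (fun m => (F m)^[j] p) atTop (𝓝 (f^[j] p)) := by
  induction j with
  | zero => exact tendsto_const_nhds
  | succ j ih =>
    simp only [Function.iterate_succ_apply']
    exact h.tendsto_comp hf.continuousAt ih

theorem iter_close {N M : ℕ → ℕ} {c : ℕ → ℝ} {Fh : T2 ≃ₜ T2} (h : Ideal N M c Fh) (n k : ℕ)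
    (hk : n ≤ k) (j : ℕ) (hj : j ≤ 2 ^ (Mp M k)) (p : T2) (hp : p ∈ Wc c n) :
    dist ((⇑Fh)^[j] p) ((⇑(fs N M (idl N) (cc c) k))^[j] p) ≤ 2 * (1 / 2) ^ k := by
  obtain ⟨q, hq, rfl⟩ := hp
  have hq' : |q.2| ≤ 1 / 2 := hq
  have htel : ∀ m, k ≤ m → dist ((⇑(fs N M (idl N) (cc c) m))^[j] (Sn (c n) n q))
      ((⇑(fs N M (idl N) (cc c) k))^[j] (Sn (c n) n q)) ≤ 2 * (1 / 2) ^ k - 2 * (1 / 2) ^ m := by
    intro m hm
    induction m, hm using Nat.le_induction with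
    | base => rw [dist_self, sub_self]
    | succ m hm ih =>
      have h1 := iter_close_step h n k hk j hj q hq' m hm
      have h2 := dist_triangle ((⇑(fs N M (idl N) (cc c) (m + 1)))^[j] (Sn (c n) n q))
        ((⇑(fs N M (idl N) (cc c) m))^[j] (Sn (c n) n q))
        ((⇑(fs N M (idl N) (cc c) k))^[j] (Sn (c n) n q))
      have h3 : (1 / 2 : ℝ) ^ (m + 1) = (1 / 2) ^ m / 2 := by
        rw [pow_succ]
        ring
      rw [h3]
      linarith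
  have hlim := iter_close_lim Fh.continuous h.lim (Sn (c n) n q) j
  have hd := hlim.dist (tendsto_const_nhds
    (x := (⇑(fs N M (idl N) (cc c) k))^[j] (Sn (c n) n q)))
  refine le_of_tendsto hd ?_
  filter_upwards [eventually_ge_atTop k] with m hm
  have h1 := htel m hm
  have h2 : (0 : ℝ) ≤ 2 * (1 / 2) ^ m := by positivity
  linarith

end

section

theorem tr_coe_dist (x y : ℝ) : dist ((x : ℝ) : T1) ((y : ℝ) : T1) ≤ |x - y| := by
  rw [dist_eq_norm, ← AddCircle.coe_sub, UnitAddCircle.norm_eq]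
  simpa using round_le (x - y) 0

theorem tr_Sn_dist (c : ℝ) (n : ℕ) (a b : A1) : dist (Sn c n a) (Sn c n b) ≤ dist a b := by
  rw [Prod.dist_eq, Prod.dist_eq]
  refine max_le_max le_rfl ?_
  show dist (((c + ll n * a.2 : ℝ) : T1)) (((c + ll n * b.2 : ℝ) : T1)) ≤ dist a.2 b.2
  refine (tr_coe_dist _ _).trans ?_
  rw [Real.dist_eq]
  have h1 : c + ll n * a.2 - (c + ll n * b.2) = ll n * (a.2 - b.2) := by ring
  have h2 : 0 ≤ ll n := by unfold ll; positivity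
  have h3 : ll n ≤ 1 := by
    unfold ll
    exact pow_le_one₀ (by norm_num) (by norm_num)
  rw [h1, abs_mul, abs_of_nonneg h2]
  exact mul_le_of_le_one_left (abs_nonneg _) h3

theorem tr_arith (m : ℤ) (Dd : ℕ) (θ0 θ1 : T1) :
    ∃ (j : ℕ) (t : ℝ), j ≤ 2 ^ Dd ∧ |t| ≤ dl Dd ∧
      θ0 + (((j : ℝ) * ((2 * (m : ℝ) + 1) * dl Dd) : ℝ) : T1) = θ1 + (t : T1) := by
  obtain ⟨x, hx⟩ := QuotientAddGroup.mk_surjective (θ1 - θ0)
  have hx' : ((x : ℝ) : T1) = θ1 - θ0 := hx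
  have hq : (0:ℝ) < 2 ^ Dd := by positivity
  have hdl : dl Dd = 1 / 2 ^ Dd := by unfold dl; rw [one_div_pow]
  set f : ℤ := ⌊x * 2 ^ Dd⌋ with hf
  have hcop : IsCoprime (2 * m + 1) ((2:ℤ) ^ Dd) := by
    apply IsCoprime.pow_right
    exact ⟨1, -m, by ring⟩
  obtain ⟨a, b, hab⟩ := hcop
  have hqz : (0:ℤ) < 2 ^ Dd := by positivity
  set j0 : ℤ := (f * a) % 2 ^ Dd with hj0
  have hj1 : 0 ≤ j0 := Int.emod_nonneg _ hqz.ne'
  have hj2 : j0 < 2 ^ Dd := Int.emod_lt_of_pos _ hqz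
  obtain ⟨l, hl⟩ : ∃ l : ℤ, j0 * (2 * m + 1) = f + 2 ^ Dd * l := by
    have h1 : j0 = f * a - 2 ^ Dd * (f * a / 2 ^ Dd) := by
      rw [hj0]
      have := Int.emod_add_mul_ediv (f * a) (2 ^ Dd)
      linarith
    refine ⟨-(f * b) - (f * a / 2 ^ Dd) * (2 * m + 1), ?_⟩
    rw [h1]
    linear_combination f * hab
  refine ⟨j0.toNat, -(x - f / 2 ^ Dd), ?_, ?_, ?_⟩
  · have : ((j0.toNat : ℕ) : ℤ) ≤ 2 ^ Dd := by
      rw [Int.toNat_of_nonneg hj1]; exact hj2.le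
    exact_mod_cast this
  · rw [abs_neg, hdl]
    have h1 : (f : ℝ) ≤ x * 2 ^ Dd := Int.floor_le _
    have h2 : x * 2 ^ Dd < f + 1 := Int.lt_floor_add_one _
    have h3 : x - f / 2 ^ Dd = (x * 2 ^ Dd - f) / 2 ^ Dd := by field_simp
    rw [h3, abs_of_nonneg (div_nonneg (by linarith) hq.le)]
    exact div_le_div_of_nonneg_right (by linarith) hq.le
  · have h1 : ((j0.toNat : ℕ) : ℝ) = (j0 : ℝ) := by
      have : ((j0.toNat : ℕ) : ℤ) = j0 := Int.toNat_of_nonneg hj1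
      exact_mod_cast congrArg (fun z : ℤ => (z : ℝ)) this
    have h2 : (j0 : ℝ) * (2 * (m : ℝ) + 1) = f + 2 ^ Dd * l := by exact_mod_cast hl
    have h3 : ((j0.toNat : ℕ) : ℝ) * ((2 * (m : ℝ) + 1) * dl Dd) = f / 2 ^ Dd + l := by
      rw [h1, hdl, ← mul_assoc, h2]
      field_simp
    have h4 : ((l : ℝ) : T1) = 0 := by
      rw [AddCircle.coe_eq_zero_iff]
      exact ⟨l, by simp⟩
    have h5 : θ1 = θ0 + ((x : ℝ) : T1) := by rw [hx']; abel
    rw [h3, AddCircle.coe_add, h4, add_zero, h5, add_assoc, ← AddCircle.coe_add]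
    congr 2
    ring

theorem trans {N M : ℕ → ℕ} {c : ℕ → ℝ} {Fh : T2 ≃ₜ T2} (h : Ideal N M c Fh) (n : ℕ)
    (U V : Set T2) (hU : IsOpen U) (hV : IsOpen V) (hUn : (U ∩ Wo c n).Nonempty)
    (hVn : (V ∩ Wo c n).Nonempty) : ∃ p ∈ U ∩ Wo c n, ∃ j : ℕ, (⇑Fh)^[j] p ∈ V := by
  obtain ⟨u, huU, u0, hu0, hu⟩ := hUn
  obtain ⟨v, hvV, v0, hv0, hv⟩ := hVn
  have hu0' : |u0.2| ≤ 1 / 2 := le_of_lt hu0
  have hv0' : |v0.2| ≤ 1 / 2 := le_of_lt hv0
  have hUo : IsOpen (U ∩ Wo c n) := hU.inter (isOpen_Wo c n)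
  obtain ⟨e1, he1, hb1⟩ := Metric.isOpen_iff.1 hUo u ⟨huU, u0, hu0, hu⟩
  obtain ⟨e2, he2, hb2⟩ := Metric.isOpen_iff.1 hV v hvV
  obtain ⟨k0, hk0⟩ := exists_pow_lt_of_lt_one (show (0:ℝ) < min e1 e2 / 10 by positivity)
    (show (1 / 2 : ℝ) < 1 by norm_num)
  set k' : ℕ := max k0 (n + 1) with hk'
  have hnk : n < k' := lt_of_lt_of_le (Nat.lt_succ_self n) (le_max_right _ _)
  have hpow : (1 / 2 : ℝ) ^ k' < min e1 e2 / 10 :=
    lt_of_le_of_lt (pow_le_pow_of_le_one (by norm_num) (by norm_num) (le_max_left _ _)) hk0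
  have hpp : (0:ℝ) < (1 / 2) ^ k' := by positivity
  have hm1 : min e1 e2 ≤ e1 := min_le_left _ _
  have hm2 : min e1 e2 ≤ e2 := min_le_right _ _
  obtain ⟨θ0, hθ0⟩ := h.c4 k' n hnk u0 hu0'
  obtain ⟨θ1, hθ1⟩ := h.c4 k' n hnk v0 hv0'
  set G := Gm N n (k' + 1) with hG
  have hN2 : ∀ k, 2 ≤ N k := fun k => le_trans (Nat.le_add_left 2 k) (h.expo.c0' k)
  have hstrip : Strip G := strip_Gm N n (k' + 1) (fun i _ => hN2 i)
  have h00 : |((θ0, (0:ℝ)) : A1).2| ≤ 1 / 2 := by simp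
  have hG0 : |(G (θ0, 0)).2| ≤ 1 / 2 := (hstrip.1 _).1 h00
  set p : T2 := Sn (c n) n (G (θ0, 0)) with hp
  have hpu : dist p u ≤ (1 / 2) ^ k' := by
    rw [← hu]
    exact (tr_Sn_dist _ _ _ _).trans hθ0
  have hpU : p ∈ U ∩ Wo c n := by
    apply hb1
    rw [Metric.mem_ball]
    linarith
  have hpW : p ∈ Wc c n := ⟨_, hG0, rfl⟩
  obtain ⟨m, hm⟩ := al_odd h.expo k'
  obtain ⟨j, t, hj, ht, hjt⟩ := tr_arith m (M k') θ0 θ1
  refine ⟨p, hpU, j, ?_⟩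
  have hfs := fs_Sn N M hN2 c h.disj n (k' + 1) j (G (θ0, 0)) hG0
  have hinv : (Gm N n (k' + 1))⁻¹ (G (θ0, 0)) = (θ0, 0) := G.symm_apply_apply _
  rw [hinv] at hfs
  have hfs2 : (⇑(fs N M (idl N) (cc c) (k' + 1)))^[j] p = Sn (c n) n (G (θ1 + (t : T1), 0)) := by
    rw [hp, hfs, ← hjt, ← hm]
  have hclose := iter_close h n (k' + 1) (by omega) j hj p hpW
  have hc3 := h.c3 k' n hnk.le (θ1, 0) (by simp) t (by
    refine ht.trans ?_
    have h1 : (1:ℝ) ≤ 2 ^ Mp M k' := one_le_pow₀ (by norm_num)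
    have h2 : 0 ≤ dl (M k') := by unfold dl; positivity
    nlinarith)
  have hd1 : dist (Sn (c n) n (G (θ1 + (t : T1), 0))) (Sn (c n) n (G (θ1, 0))) ≤ (1 / 2) ^ k' :=
    (tr_Sn_dist _ _ _ _).trans hc3
  have hd2 : dist (Sn (c n) n (G (θ1, 0))) v ≤ (1 / 2) ^ k' := by
    rw [← hv]
    exact (tr_Sn_dist _ _ _ _).trans hθ1
  apply hb2
  rw [Metric.mem_ball]
  rw [hfs2] at hclose
  have ht1 := dist_triangle ((⇑Fh)^[j] p) (Sn (c n) n (G (θ1 + (t : T1), 0))) v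
  have ht2 := dist_triangle (Sn (c n) n (G (θ1 + (t : T1), 0))) (Sn (c n) n (G (θ1, 0))) v
  have hk1 : 2 * (1 / 2 : ℝ) ^ (k' + 1) = (1 / 2) ^ k' := by rw [pow_succ]; ring
  rw [hk1] at hclose
  linarith

end

section

theorem inv_Wo_two {N M : ℕ → ℕ} (h : Expo N M) (k : ℕ) : 2 ≤ N k := by
  have := h.c0' k
  omega

theorem inv_Wo_fs (N M : ℕ → ℕ) (hN : ∀ k, 2 ≤ N k) (c : ℕ → ℝ) (hc : Disj c) (n k : ℕ) (p : T2)
    (hp : p ∈ Wc c n) : fs N M (idl N) (cc c) k p ∈ Wc c n := by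
  obtain ⟨q, hq, rfl⟩ := hp
  have hq' : |q.2| ≤ 1 / 2 := hq
  have h1 := fs_Sn N M hN c hc n k 1 q hq'
  rw [Function.iterate_one] at h1
  rw [h1]
  refine ⟨_, ?_, rfl⟩
  have hs := strip_Gm N n k (fun i _ => hN i)
  have e : Gm N n k ((Gm N n k)⁻¹ q) = q := (Gm N n k).apply_symm_apply q
  have h2 : |((Gm N n k)⁻¹ q).2| ≤ 1 / 2 := (hs.1 _).2 (by rw [e]; exact hq')
  exact (hs.1 _).1 h2

theorem inv_Wo_fsinv (N M : ℕ → ℕ) (hN : ∀ k, 2 ≤ N k) (c : ℕ → ℝ) (hc : Disj c) (n k : ℕ) (p : T2)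
    (hp : p ∈ Wc c n) : (fs N M (idl N) (cc c) k)⁻¹ p ∈ Wc c n := by
  obtain ⟨q, hq, rfl⟩ := hp
  have hq' : |q.2| ≤ 1 / 2 := hq
  have hs := strip_Gm N n k (fun i _ => hN i)
  have e : Gm N n k ((Gm N n k)⁻¹ q) = q := (Gm N n k).apply_symm_apply q
  have h2 : |((Gm N n k)⁻¹ q).2| ≤ 1 / 2 := (hs.1 _).2 (by rw [e]; exact hq')
  have e1 := (Hs_Sn N hN c hc n k q hq').2
  obtain ⟨q', hq'def⟩ : ∃ q' : A1, q' = (((Gm N n k)⁻¹ q).1 - ((al M k : ℝ) : T1), ((Gm N n k)⁻¹ q).2) :=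
    ⟨_, rfl⟩
  have hq'2 : |q'.2| ≤ 1 / 2 := by rw [hq'def]; exact h2
  have e2 := (Hs_Sn N hN c hc n k q' hq'2).1
  have e3 : (fs N M (idl N) (cc c) k)⁻¹ (Sn (c n) n q) = Sn (c n) n (Gm N n k q') := by
    rw [← e2]
    show Hs N (idl N) (cc c) k ((rot (al M k)).symm ((Hs N (idl N) (cc c) k)⁻¹ (Sn (c n) n q))) = _
    rw [e1]
    congr 1
    rw [hq'def]
    rfl
  rw [e3]
  exact ⟨_, (hs.1 _).1 hq'2, rfl⟩

theorem inv_Wo {N M : ℕ → ℕ} {c : ℕ → ℝ} {Fh : T2 ≃ₜ T2} (h : Ideal N M c Fh) (n : ℕ) (p : T2) :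
    Fh p ∈ Wo c n ↔ p ∈ Wo c n := by
  have hN := inv_Wo_two h.expo
  have hcl := isClosed_Wc c n
  have h1 : ∀ q, q ∈ Wc c n → Fh q ∈ Wc c n := by
    intro q hq
    exact hcl.mem_of_tendsto (h.lim.tendsto_at q)
      (Filter.Eventually.of_forall fun k => inv_Wo_fs N M hN c h.disj n k q hq)
  have h2 : ∀ q, q ∈ Wc c n → Fh⁻¹ q ∈ Wc c n := by
    intro q hq
    exact hcl.mem_of_tendsto ((inv_lim _ Fh h.lim).tendsto_at q)
      (Filter.Eventually.of_forall fun k => inv_Wo_fsinv N M hN c h.disj n k q hq)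
  have h3 : Fh ⁻¹' (Wc c n) = Wc c n := by
    ext q
    constructor
    · intro hq
      have := h2 _ hq
      have e : Fh⁻¹ (Fh q) = q := Fh.symm_apply_apply q
      rwa [e] at this
    · intro hq
      exact h1 q hq
  have h4 : Fh ⁻¹' (interior (Wc c n)) = interior (Wc c n) := by
    rw [Fh.preimage_interior, h3]
  rw [interior_Wc] at h4
  exact Set.ext_iff.1 h4 p

theorem off_Wo {N M : ℕ → ℕ} {c : ℕ → ℝ} {Fh : T2 ≃ₜ T2} (h : Ideal N M c Fh) (p : T2)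
    (hp : ∀ n, p ∉ Wo c n) : (Fh p).2 = p.2 := by
  have hN := inv_Wo_two h.expo
  have h1 : Tendsto (fun k => (fs N M (idl N) (cc c) k p).2) atTop (𝓝 (Fh p).2) :=
    (continuous_snd.tendsto _).comp (h.lim.tendsto_at p)
  have h2 : (fun k => (fs N M (idl N) (cc c) k p).2) = fun _ => p.2 := by
    funext k
    rw [fs_off N M hN c k p hp]
  rw [h2] at h1
  exact tendsto_nhds_unique tendsto_const_nhds h1 |>.symm

end

section

theorem tr_Wo {N M : ℕ → ℕ} {c : ℕ → ℝ} {Fh : T2 ≃ₜ T2} (h : Ideal N M c Fh) (n : ℕ) :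
    Tr Fh (Wo c n) := by
  refine ⟨isOpen_Wo c n, ⟨Sn (c n) n (0, 0), ⟨(0, 0), ?_, rfl⟩⟩, inv_Wo h n, ?_⟩
  · simp
  · intro U V hUA hVA hU hV hUn hVn
    have hU' : U ∩ Wo c n = U := Set.inter_eq_left.2 hUA
    have hV' : V ∩ Wo c n = V := Set.inter_eq_left.2 hVA
    obtain ⟨p, hp, j, hj⟩ := trans h n U V hU hV (by rw [hU']; exact hUn) (by rw [hV']; exact hVn)
    exact ⟨p, hp.1, j, hj⟩

end

section

theorem tr_max {N M : ℕ → ℕ} {c : ℕ → ℝ} {Fh : T2 ≃ₜ T2} (h : Ideal N M c Fh) (A : Set T2)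
    (hA : Tr Fh A) : ∃ n, A ⊆ Wo c n := by
  obtain ⟨hAo, hAne, hAinv, hAtr⟩ := hA
  by_cases hex : ∃ n, (A ∩ Wo c n).Nonempty
  · obtain ⟨n, hn⟩ := hex
    refine ⟨n, ?_⟩
    have hsub : A ⊆ Wc c n := by
      by_contra hcon
      rw [Set.not_subset] at hcon
      obtain ⟨q, hqA, hq⟩ := hcon
      obtain ⟨p, hp, j, hj⟩ := hAtr (A ∩ Wo c n) (A \ Wc c n) Set.inter_subset_left
        Set.sdiff_subset (hAo.inter (isOpen_Wo c n)) (hAo.sdiff (isClosed_Wc c n)) hn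
        ⟨q, hqA, hq⟩
      apply hj.2
      have hit : ∀ i : ℕ, (⇑Fh)^[i] p ∈ Wo c n := by
        intro i
        induction i with
        | zero => exact hp.2
        | succ i ih =>
          rw [Function.iterate_succ_apply']
          exact (inv_Wo h n _).mpr ih
      have h1 := hit j
      rw [mem_Wo] at h1
      rw [mem_Wc]
      exact h1.le
    rw [← interior_Wc]
    exact interior_maximal hsub hAo
  · exfalso
    have hoff : ∀ p ∈ A, ∀ n, p ∉ Wo c n := by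
      intro p hp n hpn
      exact hex ⟨n, p, hp, hpn⟩
    obtain ⟨⟨x1, x2⟩, hx⟩ := hAne
    obtain ⟨U1, V1, hU1, hV1, hx1, hx2, hUV⟩ := isOpen_prod_iff.mp hAo x1 x2 hx
    have hsurj : Function.Surjective (fun x : ℝ => (x : T1)) := QuotientAddGroup.mk_surjective
    have hconn : ConnectedSpace T1 := hsurj.connectedSpace (AddCircle.continuous_mk' 1)
    have hnt : Nontrivial T1 := by
      refine ⟨⟨((1 / 2 : ℝ) : T1), 0, ?_⟩⟩
      intro e
      obtain ⟨n, hn⟩ := (AddCircle.coe_eq_zero_iff (1 : ℝ)).mp e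
      rw [zsmul_eq_mul, mul_one] at hn
      have h2 : (2 * n : ℝ) = 1 := by rw [hn]; norm_num
      have h3 : 2 * n = 1 := by exact_mod_cast h2
      omega
    have hne : (𝓝[≠] x2).NeBot := inferInstance
    have hV1n : V1 ∈ 𝓝[≠] x2 := mem_nhdsWithin_of_mem_nhds (hV1.mem_nhds hx2)
    obtain ⟨y, hy⟩ := hne.nonempty_of_mem (Filter.inter_mem hV1n self_mem_nhdsWithin)
    have hyne : x2 ≠ y := fun e => hy.2 (by simp [e])
    obtain ⟨V2, V3, hV2, hV3, hxV2, hyV3, hdis⟩ := t2_separation hyne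
    obtain ⟨p, hp, j, hj⟩ := hAtr (U1 ×ˢ (V2 ∩ V1)) (U1 ×ˢ (V3 ∩ V1))
      (fun q hq => hUV ⟨hq.1, hq.2.2⟩) (fun q hq => hUV ⟨hq.1, hq.2.2⟩)
      (hU1.prod (hV2.inter hV1)) (hU1.prod (hV3.inter hV1))
      ⟨(x1, x2), hx1, hxV2, hx2⟩ ⟨(x1, y), hx1, hyV3, hy.1⟩
    have hpA : p ∈ A := hUV ⟨hp.1, hp.2.2⟩
    have hit : ∀ i : ℕ, (⇑Fh)^[i] p ∈ A ∧ ((⇑Fh)^[i] p).2 = p.2 := by
      intro i
      induction i with
      | zero => exact ⟨hpA, rfl⟩
      | succ i ih =>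
        rw [Function.iterate_succ_apply']
        refine ⟨(hAinv _).mpr ih.1, ?_⟩
        rw [off_Wo h _ (hoff _ ih.1), ih.2]
    have h1 := (hit j).2
    have h2 : p.2 ∈ V3 := by
      rw [← h1]
      exact hj.2.1
    exact Set.disjoint_left.mp hdis hp.2.1 h2

end

section

theorem disj_Wo {c : ℕ → ℝ} (h : Disj c) (m n : ℕ) (hmn : m ≠ n) :
    Disjoint (Wo c m) (Wo c n) := by
  rw [Set.disjoint_left]
  rintro p ⟨q, hq, rfl⟩ hp
  rw [mem_Wo] at hp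
  have h1 := h m n hmn q.2 (le_of_lt hq)
  have e : (Sn (c m) m q).2 - (c n : T1) = ((c m + ll m * q.2 - c n : ℝ) : T1) := by
    simp [Sn]
  rw [e] at hp
  linarith

end

section

theorem tr_conj_aux {F F' K : T2 ≃ₜ T2} (hK : ∀ p, K (F p) = F' (K p)) {A : Set T2}
    (hA : Tr F A) : Tr F' (K '' A) := by
  obtain ⟨ho, hne, hinv, htr⟩ := hA
  refine ⟨K.isOpenMap A ho, hne.image _, ?_, ?_⟩
  · intro q
    obtain ⟨p, rfl⟩ := K.surjective q
    rw [← hK p, K.injective.mem_set_image, K.injective.mem_set_image]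
    exact hinv p
  · intro U V hU hV hUo hVo hUn hVn
    have key : ∀ W : Set T2, W ⊆ K '' A → (K ⁻¹' W) ⊆ A := by
      intro W hW p hp
      have := hW hp
      rwa [K.injective.mem_set_image] at this
    have hne' : ∀ W : Set T2, W.Nonempty → (K ⁻¹' W).Nonempty := by
      rintro W ⟨q, hq⟩
      obtain ⟨p, rfl⟩ := K.surjective q
      exact ⟨p, hq⟩
    obtain ⟨p, hp, j, hj⟩ := htr (K ⁻¹' U) (K ⁻¹' V) (key U hU) (key V hV)
      (hUo.preimage K.continuous) (hVo.preimage K.continuous) (hne' U hUn) (hne' V hVn)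
    refine ⟨K p, hp, j, ?_⟩
    have hs : Function.Semiconj K F F' := hK
    have h1 := (hs.iterate_right j) p
    rw [← h1]
    exact hj

theorem conj_Wo {N M : ℕ → ℕ} {c c' : ℕ → ℝ} {F F' : T2 ≃ₜ T2} (h : Ideal N M c F)
    (h' : Ideal N M c' F') (K : T2 ≃ₜ T2) (hK : ∀ p, K (F p) = F' (K p)) (m : ℕ) :
    ∃ n, K '' (Wo c n) = Wo c' m := by
  have hK' : ∀ q, K.symm (F' q) = F (K.symm q) := by
    intro q
    apply K.injective
    rw [K.apply_symm_apply, hK, K.apply_symm_apply]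
  have h1 : Tr F (K.symm '' Wo c' m) := tr_conj_aux hK' (tr_Wo h' m)
  obtain ⟨n, hn⟩ := tr_max h _ h1
  have h2 : Tr F' (K '' Wo c n) := tr_conj_aux hK (tr_Wo h n)
  obtain ⟨m', hm'⟩ := tr_max h' _ h2
  have h3 : Wo c' m ⊆ K '' Wo c n := by
    intro q hq
    refine ⟨K.symm q, hn ⟨q, hq, rfl⟩, K.apply_symm_apply q⟩
  have hmm : m = m' := by
    by_contra hne
    obtain ⟨q, hq⟩ := (tr_Wo h' m).2.1
    exact Set.disjoint_left.1 (disj_Wo h'.disj m m' hne) hq (hm' (h3 hq))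
  subst hmm
  exact ⟨n, Set.Subset.antisymm hm' h3⟩

end

end Pool.Agent.Helper114.AB
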