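import Pool.Agent.Helper114.AB.E

/-!
# MP_aef7b4_an: part F
-/

open Set Filter Topology

namespace Pool.Agent.Helper114.AB

section

theorem sum_w306 : Summable w := by
  have h1 : Summable fun m : ℕ => (1 / 2 : ℝ) ^ m := summable_geometric_two
  have h2 : w = fun m : ℕ => (1 / 2 : ℝ) ^ m * (1 / 2) ^ 2 := by
    funext m
    unfold w
    ring
  rw [h2]
  exact h1.mul_right _

theorem meas_aL306 {r : (ℕ → ℕ) → ℕ → ℕ → Prop} (h : ∀ m n, MeasurableSet {y | r y m n}) (n : ℕ) :
    Measurable (fun y => aL (r y) n) := by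
  classical
  have hw0 : ∀ m, 0 ≤ w m := fun m => by unfold w; positivity
  have h1 : ∀ y, Summable fun m => if r y m n then w m else 0 := by
    intro y
    refine Summable.of_nonneg_of_le (fun m => ?_) (fun m => ?_) sum_w306
    · split_ifs
      · exact hw0 m
      · exact le_rfl
    · split_ifs
      · exact le_rfl
      · exact hw0 m
  have h2 : Measurable fun y => ∑' m, if r y m n then w m else 0 := by
    refine measurable_of_tendsto_metrizable
      (f := fun k y => ∑ m ∈ Finset.range k, if r y m n then w m else 0) ?_ ?_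
    · intro k
      refine Finset.measurable_fun_sum _ fun m _ => ?_
      exact Measurable.ite (h m n) measurable_const measurable_const
    · rw [tendsto_pi_nhds]
      intro y
      exact (h1 y).hasSum.tendsto_sum_nat
  convert h2 using 2 with y
  unfold aL
  refine tsum_congr fun m => ?_
  congr

theorem meas_cen {r : (ℕ → ℕ) → ℕ → ℕ → Prop} (h : ∀ m n, MeasurableSet {y | r y m n}) (n : ℕ) :
    Measurable (fun y => cen (r y) n) := by
  unfold cen
  exact (meas_aL306 h n).add_const _

end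

section

theorem w_summable' : Summable w := by
  have h := summable_geometric_two.mul_right ((1 : ℝ) / 4)
  refine h.congr ?_
  intro n
  unfold w
  rw [pow_add]
  norm_num

theorem w_nonneg' (n : ℕ) : 0 ≤ w n := by unfold w; positivity

theorem tsum_w' : ∑' n, w n = 1 / 2 := by
  have h : (fun n => w n) = fun n => ((1 : ℝ) / 2) ^ n * (1 / 4) := by
    funext n
    unfold w
    rw [pow_add]
    norm_num
  rw [h, tsum_mul_right, tsum_geometric_two]
  norm_num

theorem ind_summable' (p : ℕ → Prop) [DecidablePred p] :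
    Summable (fun m => if p m then w m else 0) := by
  refine Summable.of_nonneg_of_le (fun m => ?_) (fun m => ?_) w_summable'
  · split_ifs
    · exact w_nonneg' m
    · exact le_rfl
  · split_ifs
    · exact le_rfl
    · exact w_nonneg' m

theorem aL_nonneg (r : ℕ → ℕ → Prop) (n : ℕ) : 0 ≤ aL r n := by
  unfold aL
  refine tsum_nonneg (fun m => ?_)
  split_ifs
  · exact w_nonneg' m
  · exact le_rfl

theorem aL_add_le {r : ℕ → ℕ → Prop} (hr : STO r) {m n : ℕ} (h : r m n) :
    aL r m + w m ≤ aL r n := by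
  classical
  have e : w m = ∑' l, (if l = m then w l else 0) := by
    rw [tsum_eq_single m]
    · simp
    · intro b hb
      simp [hb]
  have hs1 := ind_summable' (fun l => r l m)
  have hs2 := ind_summable' (fun l => l = m)
  have hs3 := ind_summable' (fun l => r l n)
  have e1 : aL r m = ∑' l, (if r l m then w l else 0) := by
    unfold aL
    congr 1
  have e3 : aL r n = ∑' l, (if r l n then w l else 0) := by
    unfold aL
    congr 1
  rw [e1, e3, e, ← hs1.tsum_add hs2]
  refine (hs1.add hs2).tsum_le_tsum (fun l => ?_) hs3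
  have hw := w_nonneg' l
  by_cases h1 : r l m
  · have h2 : l ≠ m := fun h => hr.irr m (h ▸ h1)
    have h3 : r l n := hr.tr _ _ _ h1 h
    simp [h1, h2, h3]
  · by_cases h2 : l = m
    · subst h2
      simp [h1, h]
    · simp only [h1, h2, if_false, add_zero]
      split_ifs
      · exact hw
      · exact le_rfl

theorem aL_le_half {r : ℕ → ℕ → Prop} (hr : STO r) (n : ℕ) : aL r n + w n ≤ 1 / 2 := by
  classical
  have e : w n = ∑' l, (if l = n then w l else 0) := by
    rw [tsum_eq_single n]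
    · simp
    · intro b hb
      simp [hb]
  have hs1 := ind_summable' (fun l => r l n)
  have hs2 := ind_summable' (fun l => l = n)
  have e1 : aL r n = ∑' l, (if r l n then w l else 0) := by
    unfold aL
    congr 1
  rw [e1, e, ← hs1.tsum_add hs2, ← tsum_w']
  refine (hs1.add hs2).tsum_le_tsum (fun l => ?_) w_summable'
  have hw := w_nonneg' l
  by_cases h1 : r l n
  · have h2 : l ≠ n := fun h => hr.irr n (h ▸ h1)
    simp [h1, h2]
  · by_cases h2 : l = n
    · subst h2
      simp [h1]
    · simp only [h1, h2, if_false, add_zero]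
      exact hw

theorem cen_mem {r : ℕ → ℕ → Prop} (hr : STO r) (n : ℕ) : cen r n ∈ Set.Icc (0 : ℝ) 1 := by
  have h1 := aL_nonneg r n
  have h2 := aL_le_half hr n
  have h3 : 0 ≤ ll n := by unfold ll; positivity
  have h4 : ll n / 2 ≤ w n := by
    unfold ll w
    rw [show n + 3 = (n + 2) + 1 by ring, pow_succ]
    have : (0 : ℝ) ≤ (1 / 2) ^ (n + 2) := by positivity
    linarith
  unfold cen
  constructor
  · linarith
  · linarith

end

section

theorem disj_cen {r : ℕ → ℕ → Prop} (hr : STO r) : Disj (cen r) := by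
  intro m n hmn t ht
  have hwm : w m = 2 * ll m := by unfold w ll; ring
  have hwn : w n = 2 * ll n := by unfold w ll; ring
  have hm0 : 0 < ll m := by unfold ll; positivity
  have hn0 : 0 < ll n := by unfold ll; positivity
  have h1 := aL_nonneg r m
  have h2 := aL_nonneg r n
  have h3 := aL_le_half hr m
  have h4 := aL_le_half hr n
  obtain ⟨ht1, ht2⟩ := abs_le.mp ht
  set y : ℝ := cen r m + ll m * t - cen r n with hy
  have hy1 : y = aL r m + ll m / 2 + ll m * t - (aL r n + ll n / 2) := rfl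
  have e1 : -(ll m / 2) ≤ ll m * t := by nlinarith
  have e2 : ll m * t ≤ ll m / 2 := by nlinarith
  have hyu : |y| ≤ 1 / 2 := by
    rw [abs_le]
    constructor <;> · rw [hy1]; linarith
  have hyl : ll n / 2 ≤ |y| := by
    rcases hr.tot m n with h | h | h
    · exact absurd h hmn
    · have h5 := aL_add_le hr h
      rw [le_abs]
      right
      rw [hy1]; linarith
    · have h5 := aL_add_le hr h
      rw [le_abs]
      left
      rw [hy1]; linarith
  have hn : ‖((y : ℝ) : T1)‖ = |y| := by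
    rw [AddCircle.norm_coe_eq_abs_iff _ one_ne_zero]
    simpa using hyu
  rw [hn]
  exact hyl

end

section

theorem tdl_norm_le (x : ℝ) : ‖((x : ℝ) : T1)‖ ≤ |x| := by
  rw [UnitAddCircle.norm_eq]
  have := round_le x 0
  simpa using this

theorem tdl_summable_w : Summable w := (summable_nat_add_iff 2).2 summable_geometric_two

theorem tdl_w_pos (n : ℕ) : 0 < w n := by unfold w; positivity

theorem tdl_summable (P : ℕ → Prop) [DecidablePred P] :
    Summable (fun m => if P m then w m else 0) := by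
  refine Summable.of_nonneg_of_le (fun m => ?_) (fun m => ?_) tdl_summable_w
  · split_ifs
    · exact (tdl_w_pos m).le
    · exact le_rfl
  · split_ifs
    · exact le_rfl
    · exact (tdl_w_pos m).le

theorem tdl_max {r : ℕ → ℕ → Prop} (hr : STO r) {s : ℕ} (h1 : ∃ m, r m s) (F : Finset ℕ)
    (hF : ∀ m ∈ F, r m s) : ∃ m0, r m0 s ∧ ∀ m ∈ F, m = m0 ∨ r m m0 := by
  induction F using Finset.induction_on with
  | empty =>
    obtain ⟨m, hm⟩ := h1
    exact ⟨m, hm, by simp⟩
  | insert a F _ ih =>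
    obtain ⟨m0, h2, h3⟩ := ih (fun m hm => hF m (Finset.mem_insert_of_mem hm))
    rcases hr.tot a m0 with h | h | h
    · refine ⟨m0, h2, fun m hm => ?_⟩
      rcases Finset.mem_insert.1 hm with h4 | h4
      · exact Or.inl (h4.trans h)
      · exact h3 m h4
    · refine ⟨m0, h2, fun m hm => ?_⟩
      rcases Finset.mem_insert.1 hm with h4 | h4
      · exact Or.inr (h4 ▸ h)
      · exact h3 m h4
    · refine ⟨a, hF a (Finset.mem_insert_self _ _), fun m hm => ?_⟩
      rcases Finset.mem_insert.1 hm with h4 | h4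
      · exact Or.inl h4
      · rcases h3 m h4 with h5 | h5
        · exact Or.inr (h5 ▸ h)
        · exact Or.inr (hr.tr _ _ _ h5 h)

theorem tdl_exists {r : ℕ → ℕ → Prop} (hr : STO r) {S : Set ℕ} (hS : DL r S) (s : ℕ) (hs : s ∈ S)
    {ε : ℝ} (hε : 0 < ε) : ∃ s' ∈ S, r s' s ∧ aL r s - ε < aL r s' := by
  classical
  have hsum := tdl_summable (fun m => r m s)
  have h1 : ∃ F : Finset ℕ, aL r s - ε < ∑ m ∈ F, if r m s then w m else 0 := by
    by_contra hc
    push Not at hc
    have h2 : aL r s ≤ aL r s - ε := by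
      have := hsum.tsum_le_of_sum_le hc
      unfold aL at this ⊢
      convert this
    linarith
  obtain ⟨F, hF⟩ := h1
  rw [← Finset.sum_filter] at hF
  obtain ⟨m0, h3, h4⟩ := tdl_max hr (hS.2 s hs).1 (F.filter (fun m => r m s))
    (fun m hm => (Finset.mem_filter.1 hm).2)
  obtain ⟨s', h5, h6, h7⟩ := (hS.2 s hs).2 m0 h3
  refine ⟨s', h5, h7, hF.trans_le ?_⟩
  have h8 : ∀ m ∈ F.filter (fun m => r m s), r m s' := by
    intro m hm
    rcases h4 m hm with h | h
    · exact h ▸ h6
    · exact hr.tr _ _ _ h h6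
  have h9 : ∑ m ∈ F.filter (fun m => r m s), w m =
      ∑ m ∈ F.filter (fun m => r m s), if r m s' then w m else 0 :=
    Finset.sum_congr rfl fun m hm => by rw [if_pos (h8 m hm)]
  rw [h9]
  have h10 := (tdl_summable (fun m => r m s')).sum_le_tsum (F.filter (fun m => r m s))
    (fun m _ => by
      split_ifs
      · exact (tdl_w_pos m).le
      · exact le_rfl)
  unfold aL
  convert h10

theorem touch_DL {r : ℕ → ℕ → Prop} (hr : STO r) {S : Set ℕ} (hS : DL r S) (s : ℕ) (hs : s ∈ S) :
    (closure (⋃ s' ∈ S \ {s}, Wo (cen r) s') ∩ closure (Wo (cen r) s)).Nonempty := by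
  refine ⟨((0 : T1), ((aL r s : ℝ) : T1)), ?_, ?_⟩
  · rw [Metric.mem_closure_iff]
    intro ε hε
    obtain ⟨s', h1, h2, h3⟩ := tdl_exists hr hS s hs hε
    have h4 := aL_add_le hr h2
    have hl : ll s' / 2 ≤ w s' := by
      unfold ll w
      rw [pow_succ _ (s' + 2)]
      have : (0 : ℝ) < (1 / 2) ^ (s' + 2) := by positivity
      linarith
    have hl0 : 0 < ll s' := by unfold ll; positivity
    refine ⟨((0 : T1), ((cen r s' : ℝ) : T1)), ?_, ?_⟩
    · simp only [Set.mem_iUnion]
      refine ⟨s', ⟨h1, ?_⟩, ?_⟩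
      · intro h
        rw [Set.mem_singleton_iff] at h
        exact hr.irr s (h ▸ h2)
      · rw [mem_Wo]
        simp only [sub_self, norm_zero]
        positivity
    · rw [dist_eq_norm]
      have e1 : (((0 : T1), ((aL r s : ℝ) : T1)) - ((0 : T1), ((cen r s' : ℝ) : T1)) : T2) =
          ((0 : T1), (((aL r s - cen r s' : ℝ)) : T1)) := by
        ext <;> simp
      rw [e1, Prod.norm_def]
      simp only [norm_zero]
      refine max_lt hε (lt_of_le_of_lt (tdl_norm_le _) ?_)
      rw [abs_lt]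
      unfold cen
      constructor <;> linarith
  · rw [Metric.mem_closure_iff]
    intro ε hε
    have hl0 : 0 < ll s := by unfold ll; positivity
    set δ : ℝ := min (ε / 2) (ll s / 2) with hδ
    have hd0 : 0 < δ := lt_min (by positivity) (by positivity)
    have hd1 : δ ≤ ε / 2 := min_le_left _ _
    have hd2 : δ ≤ ll s / 2 := min_le_right _ _
    refine ⟨((0 : T1), ((aL r s + δ : ℝ) : T1)), ?_, ?_⟩
    · rw [mem_Wo]
      have e1 : (((0 : T1), ((aL r s + δ : ℝ) : T1)) : T2).2 - ((cen r s : ℝ) : T1) =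
          ((δ - ll s / 2 : ℝ) : T1) := by
        rw [← AddCircle.coe_sub]
        congr 1
        unfold cen
        ring
      rw [e1]
      refine lt_of_le_of_lt (tdl_norm_le _) ?_
      rw [abs_lt]
      constructor <;> linarith
    · rw [dist_eq_norm]
      have e1 : (((0 : T1), ((aL r s : ℝ) : T1)) - ((0 : T1), ((aL r s + δ : ℝ) : T1)) : T2) =
          ((0 : T1), (((-δ : ℝ)) : T1)) := by
        ext
        · simp
        · show ((aL r s : ℝ) : T1) - ((aL r s + δ : ℝ) : T1) = _
          rw [← AddCircle.coe_sub]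
          congr 1
          ring
      rw [e1, Prod.norm_def]
      simp only [norm_zero]
      refine max_lt hε (lt_of_le_of_lt (tdl_norm_le _) ?_)
      rw [abs_neg, abs_of_pos hd0]
      linarith

end

section

theorem no_touch_closed (a b : ℝ) :
    IsClosed {p : T2 | p.2 ∈ (fun x : ℝ => (x : T1)) '' Icc a b} := by
  have h1 : IsCompact ((fun x : ℝ => (x : T1)) '' Icc a b) :=
    isCompact_Icc.image (AddCircle.continuous_mk' 1)
  exact h1.isClosed.preimage continuous_snd

theorem no_touch_ll_lt (n : ℕ) : ll n < w n := by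
  unfold ll w
  rw [show n + 3 = (n + 2) + 1 from rfl, pow_succ]
  have : (0 : ℝ) < (1 / 2) ^ (n + 2) := by positivity
  linarith

theorem no_touch_ll_pos (n : ℕ) : 0 < ll n := by
  unfold ll
  positivity

theorem no_touch_Wo_sub (r : ℕ → ℕ → Prop) (n : ℕ) (a b : ℝ) (ha : a ≤ aL r n)
    (hb : aL r n + ll n ≤ b) :
    Wo (cen r) n ⊆ {p : T2 | p.2 ∈ (fun x : ℝ => (x : T1)) '' Icc a b} := by
  rintro _ ⟨p, hp, rfl⟩
  have hp' : |p.2| < 1 / 2 := hp
  rw [abs_lt] at hp'
  have hll := no_touch_ll_pos n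
  refine ⟨cen r n + ll n * p.2, ⟨?_, ?_⟩, rfl⟩
  · unfold cen
    nlinarith
  · unfold cen
    nlinarith

theorem no_touch {r : ℕ → ℕ → Prop} (hr : STO r) (T : Set ℕ) (l : ℕ) (hl : ∀ t ∈ T, r l t) :
    closure (⋃ t ∈ T, Wo (cen r) t) ∩ closure (Wo (cen r) l) = ∅ := by
  have hA : closure (⋃ t ∈ T, Wo (cen r) t) ⊆
      {p : T2 | p.2 ∈ (fun x : ℝ => (x : T1)) '' Icc (aL r l + w l) (1 / 2)} := by
    refine closure_minimal ?_ (no_touch_closed _ _)
    refine iUnion₂_subset fun t ht => ?_
    refine no_touch_Wo_sub r t _ _ (aL_add_le hr (hl t ht)) ?_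
    have h1 := aL_le_half hr t
    have h2 := no_touch_ll_lt t
    linarith
  have hB : closure (Wo (cen r) l) ⊆
      {p : T2 | p.2 ∈ (fun x : ℝ => (x : T1)) '' Icc (aL r l) (aL r l + ll l)} :=
    closure_minimal (no_touch_Wo_sub r l _ _ le_rfl le_rfl) (no_touch_closed _ _)
  rw [Set.eq_empty_iff_forall_notMem]
  rintro p ⟨hp1, hp2⟩
  obtain ⟨x, hx, hxe⟩ := hA hp1
  obtain ⟨y, hy, hye⟩ := hB hp2
  have h1 := no_touch_ll_lt l
  have h2 := aL_nonneg r l
  have h3 := no_touch_ll_pos l
  have h4 : ((x : ℝ) : T1) = ((y : ℝ) : T1) := hxe.trans hye.symm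
  have h5 : x = y := by
    have hx' : x ∈ Ico (0 : ℝ) (0 + 1) := ⟨by linarith [hx.1], by linarith [hx.2]⟩
    have hy' : y ∈ Ico (0 : ℝ) (0 + 1) := ⟨by linarith [hy.1], by linarith [hy.2, hx.1, hx.2]⟩
    exact (AddCircle.coe_eq_coe_iff_of_mem_Ico hx' hy').mp h4
  linarith [hx.1, hy.2]

end

section

theorem backward {N M : ℕ → ℕ} {r r' : ℕ → ℕ → Prop} (hr : STO r) (hr' : STO r')
    (hwf : WellFounded r) {S : Set ℕ} (hS : DL r' S) {F F' : T2 ≃ₜ T2}
    (h : Ideal N M (cen r) F) (h' : Ideal N M (cen r') F') (K : T2 ≃ₜ T2)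
    (hK : ∀ p, K (F p) = F' (K p)) : False := by
  classical
  have hne : ∀ (c : ℕ → ℝ) n, (Wo c n).Nonempty := by
    intro c n
    refine ⟨Sn (c n) n (0, 0), (0, 0), ?_, rfl⟩
    show |(0:ℝ)| < 1 / 2
    norm_num
  choose sig hsig using fun m => conj_Wo h h' K hK m
  have hinj : ∀ m m', sig m = sig m' → m = m' := by
    intro m m' hmm
    by_contra hcon
    have h1 := disj_Wo (disj_cen hr') m m' hcon
    rw [← hsig m, ← hsig m', hmm] at h1
    exact ((hne (cen r) (sig m')).image K).ne_empty (disjoint_self.1 h1)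
  obtain ⟨l, ⟨s, hs, hsl⟩, hmin⟩ := hwf.has_min (sig '' S) (hS.1.image sig)
  have hrl : ∀ t ∈ sig '' S \ {l}, r l t := by
    rintro t ⟨ht, htl⟩
    rcases hr.tot t l with h1 | h1 | h1
    · exact absurd h1 htl
    · exact absurd h1 (hmin t ht)
    · exact h1
  have h1 := touch_DL hr' hS s hs
  have h2 := no_touch hr (sig '' S \ {l}) l hrl
  obtain ⟨p, hp1, hp2⟩ := h1
  have hA : K.symm p ∈ closure (⋃ t ∈ sig '' S \ {l}, Wo (cen r) t) := by
    have h3 : K.symm p ∈ K.symm '' closure (⋃ s' ∈ S \ {s}, Wo (cen r') s') := ⟨p, hp1, rfl⟩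
    rw [K.symm.image_closure] at h3
    refine closure_mono ?_ h3
    rintro _ ⟨x, hx, rfl⟩
    rw [Set.mem_iUnion₂] at hx
    obtain ⟨s', hs', hx⟩ := hx
    rw [← hsig s'] at hx
    obtain ⟨y, hy, rfl⟩ := hx
    rw [Set.mem_iUnion₂]
    refine ⟨sig s', ⟨⟨s', hs'.1, rfl⟩, ?_⟩, ?_⟩
    · intro hcon
      have h4 : sig s' = l := hcon
      exact hs'.2 (hinj _ _ (h4.trans hsl.symm))
    · rw [K.symm_apply_apply]
      exact hy
  have hB : K.symm p ∈ closure (Wo (cen r) l) := by
    have h3 : K.symm p ∈ K.symm '' closure (Wo (cen r') s) := ⟨p, hp2, rfl⟩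
    rw [K.symm.image_closure] at h3
    refine closure_mono ?_ h3
    rintro _ ⟨x, hx, rfl⟩
    rw [← hsig s] at hx
    obtain ⟨y, hy, rfl⟩ := hx
    rw [K.symm_apply_apply, ← hsl]
    exact hy
  have h3 : K.symm p ∈ (∅ : Set T2) := h2 ▸ ⟨hA, hB⟩
  exact h3

end

end Pool.Agent.Helper114.AB
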