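import Pool.Agent.Helper114.AB.F

/-!
# MP_aef7b4_an: part G
-/

open Set Filter Topology

namespace Pool.Agent.Helper114.AB

section

/-- clamping to `[0,1]` -/
noncomputable def kaCl (s : ℝ) : ℝ := max 0 (min 1 s)

theorem kaCl_mono {a b : ℝ} (h : a ≤ b) : kaCl a ≤ kaCl b :=
  max_le_max le_rfl (min_le_min le_rfl h)

theorem kaCl_nonneg (s : ℝ) : 0 ≤ kaCl s := le_max_left _ _

theorem kaCl_le_one (s : ℝ) : kaCl s ≤ 1 := max_le zero_le_one (min_le_left _ _)

theorem kaCl_of_le {s : ℝ} (h : s ≤ 0) : kaCl s = 0 := by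
  unfold kaCl
  exact max_eq_left ((min_le_right _ _).trans h)

theorem kaCl_of_ge {s : ℝ} (h : 1 ≤ s) : kaCl s = 1 := by
  unfold kaCl
  rw [min_eq_left h]
  exact max_eq_right zero_le_one

theorem kaCl_id {s : ℝ} (h0 : 0 ≤ s) (h1 : s ≤ 1) : kaCl s = s := by
  unfold kaCl
  rw [min_eq_right h1]
  exact max_eq_right h0

theorem kaCl_lt {s s' : ℝ} (h : s < s') (h1 : s < 1) (h2 : 0 < s') : kaCl s < kaCl s' := by
  unfold kaCl
  rw [min_eq_right h1.le, max_eq_right (le_min zero_le_one h2.le)]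
  exact max_lt (lt_min zero_lt_one h2) (lt_min h1 h)

theorem kaCl_continuous : Continuous kaCl := by
  unfold kaCl
  fun_prop

theorem ka_w_pos (n : ℕ) : 0 < w n := by unfold w; positivity

theorem ka_w_hasSum : HasSum w (1 / 2) := by
  have h := hasSum_geometric_two.mul_left (1 / 4 : ℝ)
  have h2 : (fun n : ℕ => (1 / 4 : ℝ) * (1 / 2) ^ n) = w := by
    funext n
    unfold w
    rw [pow_add]
    ring
  rw [h2] at h
  norm_num at h ⊢
  exact h

theorem ka_w_summable (π : ℕ ≃ ℕ) : Summable (fun n => w (π n)) :=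
  (π.summable_iff (f := w)).mpr ka_w_hasSum.summable

theorem ka_dense {r : ℕ → ℕ → Prop} (hr : STO r) {x y : ℝ} (hx : 0 ≤ x) (hxy : x < y)
    (hy : y ≤ 1 / 2) : ∃ n, aL r n < y ∧ x < aL r n + w n := by
  by_contra hcon
  push Not at hcon
  set I : ℕ → Set ℝ := fun n => Ioo (aL r n) (aL r n + w n) with hI
  have hdisj : Pairwise (Function.onFun Disjoint I) := by
    intro m n hmn
    refine Set.disjoint_left.mpr (fun z hz hz' => ?_)
    have h1 := hz.1
    have h2 := hz.2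
    have h3 := hz'.1
    have h4 := hz'.2
    rcases hr.tot m n with h | h | h
    · exact hmn h
    · have := aL_add_le hr h
      linarith
    · have := aL_add_le hr h
      linarith
  have hvol : MeasureTheory.volume (⋃ n, I n) = ENNReal.ofReal (1 / 2) := by
    rw [MeasureTheory.measure_iUnion hdisj (fun n => measurableSet_Ioo)]
    simp only [hI, Real.volume_Ioo, add_sub_cancel_left]
    rw [← ENNReal.ofReal_tsum_of_nonneg (fun n => (ka_w_pos n).le) ka_w_hasSum.summable,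
      ka_w_hasSum.tsum_eq]
  have hd2 : Disjoint (⋃ n, I n) (Ioo x y) := by
    rw [Set.disjoint_iUnion_left]
    intro n
    refine Set.disjoint_left.mpr (fun z hz hz' => ?_)
    have h1 := hz.1
    have h2 := hz.2
    have h3 := hz'.1
    have h4 := hz'.2
    have h5 := hcon n (h1.trans h4)
    linarith
  have hsub : (⋃ n, I n) ∪ Ioo x y ⊆ Icc 0 (1 / 2) := by
    refine Set.union_subset (Set.iUnion_subset (fun n z hz => ?_)) (fun z hz => ?_)
    · have h1 := hz.1
      have h2 := hz.2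
      have h3 := aL_nonneg r n
      have h4 := aL_le_half hr n
      exact ⟨by linarith, by linarith⟩
    · exact ⟨by linarith [hz.1], by linarith [hz.2]⟩
  have h1 := MeasureTheory.measure_mono (μ := MeasureTheory.volume) hsub
  rw [MeasureTheory.measure_union hd2 measurableSet_Ioo, hvol, Real.volume_Ioo, Real.volume_Icc,
    ← ENNReal.ofReal_add (by norm_num) (by linarith),
    ENNReal.ofReal_le_ofReal_iff (by norm_num)] at h1
  linarith

/-- the piecewise affine map -/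
noncomputable def kaK (r : ℕ → ℕ → Prop) (π : ℕ ≃ ℕ) (x : ℝ) : ℝ :=
  (∑' n, w (π n) * kaCl ((x - aL r n) / w n)) + max (x - 1 / 2) 0

theorem kaK_term_le (r : ℕ → ℕ → Prop) (π : ℕ ≃ ℕ) (x : ℝ) (n : ℕ) :
    w (π n) * kaCl ((x - aL r n) / w n) ≤ w (π n) :=
  mul_le_of_le_one_right (ka_w_pos _).le (kaCl_le_one _)

theorem kaK_term_nonneg (r : ℕ → ℕ → Prop) (π : ℕ ≃ ℕ) (x : ℝ) (n : ℕ) :
    0 ≤ w (π n) * kaCl ((x - aL r n) / w n) :=
  mul_nonneg (ka_w_pos _).le (kaCl_nonneg _)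

theorem kaK_summable (r : ℕ → ℕ → Prop) (π : ℕ ≃ ℕ) (x : ℝ) :
    Summable (fun n => w (π n) * kaCl ((x - aL r n) / w n)) :=
  Summable.of_nonneg_of_le (kaK_term_nonneg r π x) (kaK_term_le r π x) (ka_w_summable π)

theorem kaK_continuous (r : ℕ → ℕ → Prop) (π : ℕ ≃ ℕ) : Continuous (kaK r π) := by
  unfold kaK
  refine Continuous.add ?_ (by fun_prop)
  refine continuous_tsum (u := fun n => w (π n)) (fun n => ?_) (ka_w_summable π) (fun n x => ?_)
  · exact continuous_const.mul (kaCl_continuous.comp (by fun_prop))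
  · rw [Real.norm_eq_abs, abs_of_nonneg (kaK_term_nonneg r π x n)]
    exact kaK_term_le r π x n

theorem kaK_zero (r : ℕ → ℕ → Prop) (π : ℕ ≃ ℕ) : kaK r π 0 = 0 := by
  unfold kaK
  have h : ∀ n, w (π n) * kaCl ((0 - aL r n) / w n) = 0 := by
    intro n
    rw [kaCl_of_le, mul_zero]
    exact div_nonpos_of_nonpos_of_nonneg (by linarith [aL_nonneg r n]) (ka_w_pos n).le
  simp only [h, tsum_zero]
  norm_num

theorem kaK_one {r : ℕ → ℕ → Prop} (hr : STO r) (π : ℕ ≃ ℕ) : kaK r π 1 = 1 := by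
  unfold kaK
  have h : ∀ n, w (π n) * kaCl ((1 - aL r n) / w n) = w (π n) := by
    intro n
    rw [kaCl_of_ge, mul_one]
    rw [le_div_iff₀ (ka_w_pos n)]
    linarith [aL_le_half hr n]
  simp only [h]
  rw [π.tsum_eq w, ka_w_hasSum.tsum_eq]
  norm_num

theorem kaK_strict {r : ℕ → ℕ → Prop} (hr : STO r) (π : ℕ ≃ ℕ) :
    StrictMonoOn (kaK r π) (Icc 0 1) := by
  intro x hx y hy hxy
  unfold kaK
  have hle : ∀ n, w (π n) * kaCl ((x - aL r n) / w n) ≤ w (π n) * kaCl ((y - aL r n) / w n) := by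
    intro n
    refine mul_le_mul_of_nonneg_left (kaCl_mono ?_) (ka_w_pos _).le
    exact div_le_div_of_nonneg_right (by linarith) (ka_w_pos n).le
  rcases le_or_gt y (1 / 2) with h | h
  · obtain ⟨n, h1, h2⟩ := ka_dense hr hx.1 hxy h
    have hlt : w (π n) * kaCl ((x - aL r n) / w n) < w (π n) * kaCl ((y - aL r n) / w n) := by
      refine mul_lt_mul_of_pos_left (kaCl_lt ?_ ?_ ?_) (ka_w_pos _)
      · exact div_lt_div_of_pos_right (by linarith) (ka_w_pos n)
      · rw [div_lt_one (ka_w_pos n)]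
        linarith
      · exact div_pos (by linarith) (ka_w_pos n)
    exact add_lt_add_of_lt_of_le
      (Summable.tsum_lt_tsum hle hlt (kaK_summable r π x) (kaK_summable r π y))
      (max_le_max (by linarith) le_rfl)
  · refine add_lt_add_of_le_of_lt
      ((kaK_summable r π x).tsum_le_tsum hle (kaK_summable r π y)) ?_
    rw [max_eq_left (by linarith : (0:ℝ) ≤ y - 1 / 2)]
    exact max_lt (by linarith) (by linarith)

theorem kaK_val {r r' : ℕ → ℕ → Prop} (hr : STO r) (π : ℕ ≃ ℕ)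
    (hπ : ∀ m n, r m n ↔ r' (π m) (π n)) (n : ℕ) (t : ℝ) (h0 : 0 ≤ t) (h1 : t ≤ 1) :
    kaK r π (aL r n + w n * t) = aL r' (π n) + w (π n) * t := by
  classical
  have hwn := ka_w_pos n
  have hwt : w n * t ≤ w n := mul_le_of_le_one_right hwn.le h1
  have hwt0 : 0 ≤ w n * t := mul_nonneg hwn.le h0
  have hterm : ∀ m, w (π m) * kaCl ((aL r n + w n * t - aL r m) / w m)
      = (if r' (π m) (π n) then w (π m) else 0) + (if m = n then w (π n) * t else 0) := by
    intro m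
    rcases hr.tot m n with h | h | h
    · subst h
      have h2 : ¬ r' (π m) (π m) := fun h' => hr.irr m ((hπ m m).mpr h')
      rw [if_neg h2, if_pos rfl, zero_add]
      congr 1
      have h3 : (aL r m + w m * t - aL r m) / w m = t := by
        field_simp
        ring
      rw [h3, kaCl_id h0 h1]
    · have hne : m ≠ n := fun h' => by subst h'; exact hr.irr m h
      rw [if_pos ((hπ m n).mp h), if_neg hne, add_zero, kaCl_of_ge, mul_one]
      rw [le_div_iff₀ (ka_w_pos m)]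
      linarith [aL_add_le hr h]
    · have hne : m ≠ n := fun h' => by subst h'; exact hr.irr m h
      have h2 : ¬ r' (π m) (π n) := fun h' =>
        hr.irr m (hr.tr _ _ _ ((hπ m n).mpr h') h)
      rw [if_neg h2, if_neg hne, add_zero, kaCl_of_le, mul_zero]
      refine div_nonpos_of_nonpos_of_nonneg ?_ (ka_w_pos m).le
      linarith [aL_add_le hr h]
  unfold kaK
  simp only [hterm]
  have hs1 : Summable (fun m => if r' (π m) (π n) then w (π m) else 0) := by
    refine Summable.of_nonneg_of_le (fun m => ?_) (fun m => ?_) (ka_w_summable π)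
    · split_ifs
      · exact (ka_w_pos _).le
      · exact le_rfl
    · split_ifs
      · exact le_rfl
      · exact (ka_w_pos _).le
  have hs2 : Summable (fun m => if m = n then w (π n) * t else 0) :=
    (hasSum_ite_eq n (w (π n) * t)).summable
  rw [hs1.tsum_add hs2, tsum_ite_eq, max_eq_right (by linarith [aL_le_half hr n]), add_zero]
  congr 1
  unfold aL
  exact π.tsum_eq (fun m => if r' m (π n) then w m else 0)

theorem kappa {r r' : ℕ → ℕ → Prop} (hr : STO r) (hr' : STO r') (π : ℕ ≃ ℕ)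
    (hπ : ∀ m n, r m n ↔ r' (π m) (π n)) :
    ∃ κ : T1 ≃ₜ T1, ∀ (n : ℕ) (t : ℝ), 0 ≤ t → t ≤ 1 →
      κ ((aL r n + w n * t : ℝ) : T1) = ((aL r' (π n) + w (π n) * t : ℝ) : T1) := by
  classical
  have hcont : Continuous (fun x : ℝ => ((kaK r π x : ℝ) : T1)) :=
    (AddCircle.continuous_mk' 1).comp (kaK_continuous r π)
  set κ : T1 → T1 := AddCircle.liftIco 1 0 (fun x : ℝ => ((kaK r π x : ℝ) : T1)) with hκ
  have hκc : Continuous κ := by
    refine AddCircle.liftIco_continuous ?_ hcont.continuousOn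
    rw [zero_add, kaK_zero, kaK_one hr]
    simp [AddCircle.coe_period]
  have hval : ∀ x ∈ Ico (0 : ℝ) 1, κ (x : T1) = ((kaK r π x : ℝ) : T1) := by
    intro x hx
    exact AddCircle.liftIco_coe_apply (by simpa using hx)
  have hmem : ∀ x ∈ Ico (0 : ℝ) 1, kaK r π x ∈ Ico (0 : ℝ) 1 := by
    intro x hx
    have hm := (kaK_strict hr π).monotoneOn
    constructor
    · have := hm (left_mem_Icc.mpr zero_le_one) (Ico_subset_Icc_self hx) hx.1
      rwa [kaK_zero] at this
    · have := kaK_strict hr π (Ico_subset_Icc_self hx) (right_mem_Icc.mpr zero_le_one) hx.2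
      rwa [kaK_one hr] at this
  have hrep : ∀ z : T1, ∃ x ∈ Ico (0 : ℝ) 1, (x : T1) = z := by
    intro z
    refine ⟨(AddCircle.equivIco 1 0 z : ℝ), ?_, AddCircle.coe_equivIco⟩
    have := (AddCircle.equivIco 1 0 z).2
    simpa using this
  have hinj : Function.Injective κ := by
    intro z z' hz
    obtain ⟨x, hx, rfl⟩ := hrep z
    obtain ⟨y, hy, rfl⟩ := hrep z'
    rw [hval x hx, hval y hy] at hz
    have h1 := (AddCircle.coe_eq_coe_iff_of_mem_Ico (p := (1:ℝ)) (a := 0)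
      (by simpa using hmem x hx) (by simpa using hmem y hy)).mp hz
    rw [(kaK_strict hr π).injOn (Ico_subset_Icc_self hx) (Ico_subset_Icc_self hy) h1]
  have hsurj : Function.Surjective κ := by
    intro z
    obtain ⟨y, hy, rfl⟩ := hrep z
    have h1 : y ∈ Icc (kaK r π 0) (kaK r π 1) := by
      rw [kaK_zero, kaK_one hr]
      exact Ico_subset_Icc_self hy
    obtain ⟨x, hx, hxy⟩ := intermediate_value_Icc zero_le_one
      (kaK_continuous r π).continuousOn h1
    have hx1 : x ≠ 1 := by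
      intro h
      rw [h, kaK_one hr] at hxy
      exact hy.2.ne hxy.symm
    have hx' : x ∈ Ico (0 : ℝ) 1 := ⟨hx.1, lt_of_le_of_ne hx.2 hx1⟩
    exact ⟨(x : T1), by rw [hval x hx', hxy]⟩
  have hκc' : Continuous (Equiv.ofBijective κ ⟨hinj, hsurj⟩) := hκc
  refine ⟨hκc'.homeoOfEquivCompactToT2, fun n t h0 h1 => ?_⟩
  show κ _ = _
  have hwn := ka_w_pos n
  have hwt : w n * t ≤ w n := mul_le_of_le_one_right hwn.le h1
  have hwt0 : 0 ≤ w n * t := mul_nonneg hwn.le h0
  have ha0 := aL_nonneg r n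
  have ha1 := aL_le_half hr n
  rw [hval _ ⟨by linarith, by linarith⟩, kaK_val hr π hπ n t h0 h1]

end

section

theorem me_disp_aux (N : ℕ) (x : ℝ) : |dl (N + 1) * plat N x| ≤ dl (N + 1) := by
  have h0 : 0 ≤ dl (N + 1) := by unfold dl; positivity
  have h1 : 0 ≤ plat N x := le_max_left _ _
  have h2 : plat N x ≤ 1 := max_le zero_le_one (min_le_left _ _)
  rw [abs_of_nonneg (mul_nonneg h0 h1)]
  calc dl (N + 1) * plat N x ≤ dl (N + 1) * 1 := mul_le_mul_of_nonneg_left h2 h0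
    _ = dl (N + 1) := mul_one _
theorem me_disp_fst (N : ℕ) (p : A1) :
    (me N p).1 = p.1 + ((dl (N + 1) * plat N |(mv N p).2| : ℝ) : T1) := rfl

/-- displacement in the first coordinate -/
theorem me_disp (N : ℕ) (p : A1) : dist (me N p).1 p.1 ≤ dl (N + 1) := by
  rw [me_disp_fst, dist_eq_norm, add_sub_cancel_left]
  exact (QuotientAddGroup.norm_mk_le_norm).trans (me_disp_aux N _)

theorem Gm_disp {N : ℕ → ℕ} (hN : ∀ k, k + 2 ≤ N k) (n k : ℕ) (p : A1) :
    dist (Gm N n k p).1 p.1 ≤ (1 / 2) ^ (n + 3) := by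
  have key : ∀ k : ℕ, ∀ p : A1, dist (Gm N n k p).1 p.1 ≤
      max 0 ((1 / 2 : ℝ) ^ (n + 3) - (1 / 2) ^ (k + 2)) := by
    intro k
    induction k with
    | zero =>
      intro p
      have : Gm N n 0 p = p := rfl
      rw [this, dist_self]
      exact le_max_left _ _
    | succ k ih =>
      intro p
      by_cases h : n < k
      · have e : Gm N n (k + 1) p = Gm N n k (me (N k) p) := by
          show (Gm N n k * (if n < k then me (N k) else 1)) p = _
          rw [if_pos h]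
          rfl
        rw [e]
        have h1 := ih (me (N k) p)
        have h2 := me_disp (N k) p
        have h3 : (1 / 2 : ℝ) ^ (k + 2) ≤ (1 / 2) ^ (n + 3) :=
          pow_le_pow_of_le_one (by norm_num) (by norm_num) (by omega)
        rw [max_eq_right (by linarith)] at h1
        have h4 : dl (N k + 1) ≤ (1 / 2 : ℝ) ^ (k + 3) := by
          unfold dl
          exact pow_le_pow_of_le_one (by norm_num) (by norm_num) (by have := hN k; omega)
        have h5 : (1 / 2 : ℝ) ^ (k + 2) = 2 * (1 / 2) ^ (k + 3) := by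
          rw [pow_succ _ (k + 2)]; ring
        refine le_trans (dist_triangle _ (me (N k) p).1 _) (le_trans ?_ (le_max_right _ _))
        have h6 : (1 / 2 : ℝ) ^ (k + 1 + 2) = (1 / 2) ^ (k + 3) := by ring_nf
        rw [h6]
        linarith
      · have e : Gm N n (k + 1) p = Gm N n k p := by
          show (Gm N n k * (if n < k then me (N k) else 1)) p = _
          rw [if_neg h, mul_one]
        rw [e]
        refine (ih p).trans (max_le_max le_rfl ?_)
        have h3 : (1 / 2 : ℝ) ^ (k + 1 + 2) ≤ (1 / 2) ^ (k + 2) :=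
          pow_le_pow_of_le_one (by norm_num) (by norm_num) (by omega)
        linarith
  refine (key k p).trans (max_le (by positivity) ?_)
  have : (0 : ℝ) ≤ (1 / 2) ^ (k + 2) := by positivity
  linarith

end

section

theorem E_close_tail {N : ℕ → ℕ} (hN : ∀ k, k + 2 ≤ N k) (n k k' : ℕ) (hk : k ≤ k') :
    ∃ R : A1 ≃ₜ A1, Gm N n k' = Gm N n k * R ∧
      ∀ p : A1, dist (R p).1 p.1 ≤ (1 / 2) ^ (k + 2) - (1 / 2) ^ (k' + 2) := by
  induction k', hk using Nat.le_induction with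
  | base => exact ⟨1, (mul_one _).symm, fun p => by simp⟩
  | succ j hj ih =>
    obtain ⟨R, hR, hd⟩ := ih
    refine ⟨R * (if n < j then me (N j) else 1), ?_, ?_⟩
    · rw [← mul_assoc, ← hR]
      rfl
    · intro p
      have h1 : dist ((if n < j then me (N j) else 1 : A1 ≃ₜ A1) p).1 p.1 ≤ (1 / 2) ^ (j + 3) := by
        split_ifs
        · refine (me_disp (N j) p).trans ?_
          unfold dl
          exact pow_le_pow_of_le_one (by norm_num) (by norm_num) (by have := hN j; omega)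
        · simp
      have h2 := hd ((if n < j then me (N j) else 1 : A1 ≃ₜ A1) p)
      have h3 := dist_triangle (R ((if n < j then me (N j) else 1 : A1 ≃ₜ A1) p)).1
        ((if n < j then me (N j) else 1 : A1 ≃ₜ A1) p).1 p.1
      have h4 : ((1:ℝ) / 2) ^ (j + 2) = 2 * (1 / 2) ^ (j + 3) := by ring
      have h5 : ((1:ℝ) / 2) ^ (j + 1 + 2) = (1 / 2) ^ (j + 3) := by ring
      rw [h5]
      rw [h4] at h2
      change dist (R ((if n < j then me (N j) else 1 : A1 ≃ₜ A1) p)).1 p.1 ≤ _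
      linarith

theorem E_close {N : ℕ → ℕ} (hN : ∀ k, k + 2 ≤ N k) (n m k k' : ℕ) (hk : k ≤ k') (p : A1) :
    dist (Gm N m k ((Gm N n k)⁻¹ p)).1 (Gm N m k' ((Gm N n k')⁻¹ p)).1
      ≤ (1 / 2) ^ (m + 2) + (1 / 2) ^ (k + 1) := by
  obtain ⟨A', hA, hdA⟩ := E_close_tail hN m k k' hk
  obtain ⟨B', hB, hdB⟩ := E_close_tail hN n k k' hk
  rw [hA, hB, mul_inv_rev]
  set y : A1 := (Gm N n k)⁻¹ p with hy
  set x : A1 := B'⁻¹ y with hx
  have hBx : B' x = y := B'.apply_symm_apply y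
  have e1 : (Gm N m k * A') ((B'⁻¹ * (Gm N n k)⁻¹) p) = Gm N m k (A' x) := rfl
  rw [e1]
  have hp : (0:ℝ) < (1 / 2) ^ (k' + 2) := by positivity
  have d1 := Gm_disp hN m k y
  have d2 := Gm_disp hN m k (A' x)
  have d3 := hdA x
  have d4 := hdB x
  rw [hBx] at d4
  have t1 := dist_triangle (Gm N m k y).1 y.1 (Gm N m k (A' x)).1
  have t2 := dist_triangle y.1 x.1 (Gm N m k (A' x)).1
  have t3 := dist_triangle x.1 (A' x).1 (Gm N m k (A' x)).1
  have s1 := dist_comm x.1 (A' x).1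
  have s2 := dist_comm (A' x).1 (Gm N m k (A' x)).1
  have h4 : ((1:ℝ) / 2) ^ (m + 2) = 2 * (1 / 2) ^ (m + 3) := by ring
  have h5 : ((1:ℝ) / 2) ^ (k + 1) = 2 * (1 / 2) ^ (k + 2) := by ring
  rw [h4, h5]
  linarith

end

section

theorem E_const {N : ℕ → ℕ} (n m k k' : ℕ) (hn : n < k) (hm : m < k) (hk : k ≤ k') :
    Gm N m k * (Gm N n k)⁻¹ = Gm N m k' * (Gm N n k')⁻¹ := by
  induction k', hk using Nat.le_induction with
  | base => rfl
  | succ j hj ih =>
    have h1 : m < j := hm.trans_le hj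
    have h2 : n < j := hn.trans_le hj
    rw [Gm, Gm, if_pos h1, if_pos h2, ih, mul_inv_rev]
    group

end

section

theorem K_cauchy_dist_Sn (c : ℝ) (m : ℕ) (u v : A1) :
    dist (Sn c m u) (Sn c m v) ≤ max (dist u.1 v.1) (ll m * |u.2 - v.2|) := by
  have hll : 0 ≤ ll m := by unfold ll; positivity
  unfold Sn
  rw [Prod.dist_eq]
  refine max_le_max le_rfl ?_
  show dist (((c + ll m * u.2 : ℝ) : T1)) (((c + ll m * v.2 : ℝ) : T1)) ≤ _
  rw [dist_eq_norm, ← AddCircle.coe_sub]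
  have h : ‖(((c + ll m * u.2) - (c + ll m * v.2) : ℝ) : T1)‖ ≤
      |(c + ll m * u.2) - (c + ll m * v.2)| := by
    rw [UnitAddCircle.norm_eq]
    have h1 := round_le ((c + ll m * u.2) - (c + ll m * v.2)) 0
    simpa using h1
  refine le_trans h ?_
  have e : (c + ll m * u.2) - (c + ll m * v.2) = ll m * (u.2 - v.2) := by ring
  rw [e, abs_mul, abs_of_nonneg hll]

theorem K_cauchy_strip {N : ℕ → ℕ} (hN : ∀ k, k + 2 ≤ N k) (n k : ℕ) (q : A1)
    (hq : |q.2| ≤ 1 / 2) : |((Gm N n k)⁻¹ q).2| ≤ 1 / 2 := by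
  have h := (strip_Gm N n k (fun i _ => le_trans (by omega) (hN i))).1 ((Gm N n k)⁻¹ q)
  rw [h]
  have e : (Gm N n k) ((Gm N n k)⁻¹ q) = q := (Gm N n k).apply_symm_apply q
  rw [e]
  exact hq

theorem K_cauchy_strip' {N : ℕ → ℕ} (hN : ∀ k, k + 2 ≤ N k) (n k : ℕ) (q : A1)
    (hq : |q.2| ≤ 1 / 2) : |(Gm N n k q).2| ≤ 1 / 2 :=
  ((strip_Gm N n k (fun i _ => le_trans (by omega) (hN i))).1 q).1 hq

theorem K_cauchy_val {N : ℕ → ℕ} (hN : ∀ k, k + 2 ≤ N k) {c c' : ℕ → ℝ} (hc : Disj c)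
    (hc' : Disj c') (π : ℕ ≃ ℕ) (κ : T1 ≃ₜ T1)
    (hκ : ∀ (n : ℕ) (p : A1), |p.2| ≤ 1 / 2 → prodK κ (Sn (c n) n p) = Sn (c' (π n)) (π n) p)
    (n k : ℕ) (q : A1) (hq : |q.2| ≤ 1 / 2) :
    (Hs N (idl N) (cc c') k * prodK κ * (Hs N (idl N) (cc c) k)⁻¹) (Sn (c n) n q) =
      Sn (c' (π n)) (π n) (Gm N (π n) k ((Gm N n k)⁻¹ q)) := by
  have hN2 : ∀ k, 2 ≤ N k := fun k => le_trans (by omega) (hN k)
  show (Hs N (idl N) (cc c') k) (prodK κ ((Hs N (idl N) (cc c) k)⁻¹ (Sn (c n) n q))) = _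
  rw [(Hs_Sn N hN2 c hc n k q hq).2]
  have h1 := K_cauchy_strip hN n k q hq
  rw [hκ n _ h1, (Hs_Sn N hN2 c' hc' (π n) k _ h1).1]

theorem K_cauchy {N : ℕ → ℕ} (hN : ∀ k, k + 2 ≤ N k) {c c' : ℕ → ℝ} (hc : Disj c)
    (hc' : Disj c') (π : ℕ ≃ ℕ) (κ : T1 ≃ₜ T1)
    (hκ : ∀ (n : ℕ) (p : A1), |p.2| ≤ 1 / 2 → prodK κ (Sn (c n) n p) = Sn (c' (π n)) (π n) p) :
    ∀ ε > 0, ∃ k0, ∀ k ≥ k0, ∀ k' ≥ k0, ∀ p,
      dist ((Hs N (idl N) (cc c') k * prodK κ * (Hs N (idl N) (cc c) k)⁻¹) p)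
        ((Hs N (idl N) (cc c') k' * prodK κ * (Hs N (idl N) (cc c) k')⁻¹) p) ≤ ε := by
  intro ε hε
  have hN2 : ∀ k, 2 ≤ N k := fun k => le_trans (by omega) (hN k)
  obtain ⟨m0, hm0⟩ := exists_pow_lt_of_lt_one hε (by norm_num : (1 / 2 : ℝ) < 1)
  set k0 : ℕ := m0 + 1 + ∑ m ∈ Finset.range m0, (π.symm m + 1) with hk0
  have hk0a : m0 < k0 := by omega
  have hk0b : ∀ m < m0, π.symm m < k0 := by
    intro m hm
    have h1 : π.symm m + 1 ≤ ∑ m ∈ Finset.range m0, (π.symm m + 1) :=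
      Finset.single_le_sum (f := fun m => π.symm m + 1) (fun _ _ => Nat.zero_le _)
        (Finset.mem_range.2 hm)
    omega
  have key : ∀ k k', k0 ≤ k → k ≤ k' → ∀ p,
      dist ((Hs N (idl N) (cc c') k * prodK κ * (Hs N (idl N) (cc c) k)⁻¹) p)
        ((Hs N (idl N) (cc c') k' * prodK κ * (Hs N (idl N) (cc c) k')⁻¹) p) ≤ ε := by
    intro k k' hk hkk p
    by_cases hp : ∃ n, p ∈ Wo c n
    · obtain ⟨n, q, hq, rfl⟩ := hp
      have hq' : |q.2| ≤ 1 / 2 := le_of_lt hq
      rw [K_cauchy_val hN hc hc' π κ hκ n k q hq', K_cauchy_val hN hc hc' π κ hκ n k' q hq']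
      by_cases hm : π n < m0
      · have hn : n < k := by
          have := hk0b (π n) hm
          rw [Equiv.symm_apply_apply] at this
          omega
        have hm' : π n < k := by omega
        have h := E_const (N := N) n (π n) k k' hn hm' hkk
        have h' : Gm N (π n) k ((Gm N n k)⁻¹ q) = Gm N (π n) k' ((Gm N n k')⁻¹ q) := by
          show (Gm N (π n) k * (Gm N n k)⁻¹) q = (Gm N (π n) k' * (Gm N n k')⁻¹) q
          rw [h]
        rw [h', dist_self]
        exact hε.le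
      · push Not at hm
        refine (K_cauchy_dist_Sn _ _ _ _).trans (max_le ?_ ?_)
        · refine (E_close hN n (π n) k k' hkk q).trans ?_
          have h1 : (1 / 2 : ℝ) ^ (π n + 2) ≤ (1 / 2) ^ (m0 + 1) :=
            pow_le_pow_of_le_one (by norm_num) (by norm_num) (by omega)
          have h2 : (1 / 2 : ℝ) ^ (k + 1) ≤ (1 / 2) ^ (m0 + 1) :=
            pow_le_pow_of_le_one (by norm_num) (by norm_num) (by omega)
          have h3 : (1 / 2 : ℝ) ^ (m0 + 1) = (1 / 2) ^ m0 / 2 := by rw [pow_succ]; ring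
          linarith
        · have h1 : ll (π n) ≤ (1 / 2) ^ m0 := by
            unfold ll
            exact pow_le_pow_of_le_one (by norm_num) (by norm_num) (by omega)
          have hll : 0 ≤ ll (π n) := by unfold ll; positivity
          have h2 := K_cauchy_strip' hN (π n) k _ (K_cauchy_strip hN n k q hq')
          have h3 := K_cauchy_strip' hN (π n) k' _ (K_cauchy_strip hN n k' q hq')
          have h4 : |(Gm N (π n) k ((Gm N n k)⁻¹ q)).2 - (Gm N (π n) k' ((Gm N n k')⁻¹ q)).2| ≤ 1 := by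
            rw [abs_le] at *
            constructor <;> linarith
          calc ll (π n) * |(Gm N (π n) k ((Gm N n k)⁻¹ q)).2 - (Gm N (π n) k' ((Gm N n k')⁻¹ q)).2|
              ≤ ll (π n) * 1 := mul_le_mul_of_nonneg_left h4 hll
            _ ≤ ε := by linarith
    · push Not at hp
      have hp' : ∀ m, prodK κ p ∉ Wo c' m := by
        rintro m ⟨q, hq, hqe⟩
        have h1 := hκ (π.symm m) q (le_of_lt hq)
        rw [Equiv.apply_symm_apply, hqe] at h1
        have h2 := (prodK κ).injective h1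
        exact hp (π.symm m) ⟨q, hq, h2⟩
      have hval : ∀ j, (Hs N (idl N) (cc c') j * prodK κ * (Hs N (idl N) (cc c) j)⁻¹) p =
          prodK κ p := by
        intro j
        show (Hs N (idl N) (cc c') j) (prodK κ ((Hs N (idl N) (cc c) j)⁻¹ p)) = _
        rw [(Hs_off N hN2 c j p hp).2, (Hs_off N hN2 c' j _ hp').1]
      rw [hval, hval, dist_self]
      exact hε.le
  refine ⟨k0, fun k hk k' hk' p => ?_⟩
  rcases le_total k k' with h | h
  · exact key k k' hk h p
  · rw [dist_comm]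
    exact key k' k hk' h p

end

section

theorem forward_w (n : ℕ) : w n = 2 * ll n := by
  unfold w ll
  ring

theorem forward_kap {r r' : ℕ → ℕ → Prop} (π : ℕ ≃ ℕ) (κ : T1 ≃ₜ T1)
    (hκ : ∀ (n : ℕ) (t : ℝ), 0 ≤ t → t ≤ 1 →
      κ ((aL r n + w n * t : ℝ) : T1) = ((aL r' (π n) + w (π n) * t : ℝ) : T1))
    (n : ℕ) (p : A1) (hp : |p.2| ≤ 1 / 2) :
    prodK κ (Sn (cen r n) n p) = Sn (cen r' (π n)) (π n) p := by
  obtain ⟨h1, h2⟩ := abs_le.1 hp
  have e1 : cen r n + ll n * p.2 = aL r n + w n * ((1 / 2 + p.2) / 2) := by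
    rw [forward_w]; unfold cen; ring
  have e2 : cen r' (π n) + ll (π n) * p.2 = aL r' (π n) + w (π n) * ((1 / 2 + p.2) / 2) := by
    rw [forward_w]; unfold cen; ring
  show (p.1, κ ((cen r n + ll n * p.2 : ℝ) : T1)) = (p.1, ((cen r' (π n) + ll (π n) * p.2 : ℝ) : T1))
  rw [e1, e2, hκ n _ (by linarith) (by linarith)]

theorem forward_comm (κ : T1 ≃ₜ T1) (t : ℝ) : prodK κ * rot t = rot t * prodK κ := by
  ext p
  · rfl
  · rfl

theorem forward {N M : ℕ → ℕ} {r r' : ℕ → ℕ → Prop} (hr : STO r) (hr' : STO r') (π : ℕ ≃ ℕ)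
    (hπ : ∀ m n, r m n ↔ r' (π m) (π n)) {F F' : T2 ≃ₜ T2}
    (h : Ideal N M (cen r) F) (h' : Ideal N M (cen r') F') :
    ∃ K : T2 ≃ₜ T2, ∀ p, K (F p) = F' (K p) := by
  obtain ⟨κ, hκ⟩ := kappa hr hr' π hπ
  have hκ1 : ∀ (n : ℕ) (p : A1), |p.2| ≤ 1 / 2 →
      prodK κ (Sn (cen r n) n p) = Sn (cen r' (π n)) (π n) p := forward_kap π κ hκ
  have hκ2 : ∀ (n : ℕ) (p : A1), |p.2| ≤ 1 / 2 →
      prodK κ.symm (Sn (cen r' n) n p) = Sn (cen r (π.symm n)) (π.symm n) p := by
    intro n p hp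
    have h1 := hκ1 (π.symm n) p hp
    rw [Equiv.apply_symm_apply] at h1
    rw [← h1]
    exact (prodK κ).symm_apply_apply _
  have hN := h.expo.c0'
  have hinv : ∀ k, (Hs N (idl N) (cc (cen r')) k * prodK κ * (Hs N (idl N) (cc (cen r)) k)⁻¹)⁻¹ =
      Hs N (idl N) (cc (cen r)) k * prodK κ.symm * (Hs N (idl N) (cc (cen r')) k)⁻¹ := by
    intro k
    rw [mul_inv_rev, mul_inv_rev, inv_inv, mul_assoc]
    rfl
  have hC := K_cauchy hN h.disj h'.disj π κ hκ1
  have hC' := K_cauchy hN h'.disj h.disj π.symm κ.symm hκ2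
  obtain ⟨L, hL, -⟩ := homeo_lim
    (fun k => Hs N (idl N) (cc (cen r')) k * prodK κ * (Hs N (idl N) (cc (cen r)) k)⁻¹) hC (by
      intro ε hε
      obtain ⟨k0, hk0⟩ := hC' ε hε
      refine ⟨k0, fun k hk k' hk' p => ?_⟩
      simp only [hinv]
      exact hk0 k hk k' hk' p)
  refine ⟨L, conj_lim (fun k => fs N M (idl N) (cc (cen r)) k)
    (fun k => fs N M (idl N) (cc (cen r')) k)
    (fun k => Hs N (idl N) (cc (cen r')) k * prodK κ * (Hs N (idl N) (cc (cen r)) k)⁻¹)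
    F F' L h.lim h'.lim hL ?_⟩
  intro k
  have hcm := forward_comm κ (al M k)
  show (Hs N (idl N) (cc (cen r')) k * prodK κ * (Hs N (idl N) (cc (cen r)) k)⁻¹) *
    (Hs N (idl N) (cc (cen r)) k * rot (al M k) * (Hs N (idl N) (cc (cen r)) k)⁻¹) =
    (Hs N (idl N) (cc (cen r')) k * rot (al M k) * (Hs N (idl N) (cc (cen r')) k)⁻¹) *
    (Hs N (idl N) (cc (cen r')) k * prodK κ * (Hs N (idl N) (cc (cen r)) k)⁻¹)
  generalize Hs N (idl N) (cc (cen r')) k = A
  generalize Hs N (idl N) (cc (cen r)) k = B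
  calc A * prodK κ * B⁻¹ * (B * rot (al M k) * B⁻¹) = A * (prodK κ * rot (al M k)) * B⁻¹ := by group
    _ = A * (rot (al M k) * prodK κ) * B⁻¹ := by rw [hcm]
    _ = A * rot (al M k) * A⁻¹ * (A * prodK κ * B⁻¹) := by group

end

end Pool.Agent.Helper114.AB
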