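import Pool.Agent.Helper114.AB.Defs2

/-!
# MP_aef7b4_an: part H
-/

open Set Filter Topology

namespace Pool.Agent.Helper114.AB

section

/-- initial segment of a sequence -/
def nb_pre (y : ℕ → ℕ) (n : ℕ) : List ℕ := List.ofFn (fun i : Fin n => y i)

/-- code -/
def nb_c (y : ℕ → ℕ) (a b : List ℕ) : Prop := y (Encodable.encode (a, b)) = 0

theorem nb_pre_length (y : ℕ → ℕ) (n : ℕ) : (nb_pre y n).length = n := by
  simp [nb_pre]

theorem nb_pre_eq {v w : ℕ → ℕ} {n m : ℕ} (h : nb_pre v n = nb_pre w m) :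
    n = m ∧ ∀ i < n, v i = w i := by
  have h1 : n = m := by
    have := congrArg List.length h
    rwa [nb_pre_length, nb_pre_length] at this
  subst h1
  refine ⟨rfl, fun i hi => ?_⟩
  have h2 := List.ofFn_injective h
  exact congrFun h2 ⟨i, hi⟩

theorem nb_pre_take (v : ℕ → ℕ) {n m : ℕ} (h : m ≤ n) : (nb_pre v n).take m = nb_pre v m := by
  apply List.ext_getElem
  · rw [List.length_take, nb_pre_length, nb_pre_length]; omega
  · intro i h1 h2
    simp [nb_pre]

theorem nb_meas_pre (n : ℕ) (a : List ℕ) : MeasurableSet {y : ℕ → ℕ | nb_pre y n = a} := by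
  have h1 : Measurable (fun y : ℕ → ℕ => (fun i : Fin n => y i)) :=
    measurable_pi_lambda _ fun i => measurable_pi_apply _
  have h2 : MeasurableSet {f : Fin n → ℕ | List.ofFn f = a} := (Set.to_countable _).measurableSet
  exact h1 h2

theorem nb_meas_c (n : ℕ) (t : List ℕ) : MeasurableSet {y : ℕ → ℕ | nb_c y (nb_pre y n) t} := by
  have h1 : {y : ℕ → ℕ | nb_c y (nb_pre y n) t} =
      ⋃ a : List ℕ, ({y : ℕ → ℕ | nb_pre y n = a} ∩ {y : ℕ → ℕ | y (Encodable.encode (a, t)) = 0}) := by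
    ext y
    simp only [Set.mem_iUnion, Set.mem_inter_iff]
    constructor
    · intro h
      exact ⟨nb_pre y n, rfl, h⟩
    · rintro ⟨a, ha, hb⟩
      have ha' : nb_pre y n = a := ha
      show nb_c y (nb_pre y n) t
      rw [ha']
      exact hb
  rw [h1]
  refine MeasurableSet.iUnion fun a => (nb_meas_pre n a).inter ?_
  exact (measurable_pi_apply (Encodable.encode (a, t))) (measurableSet_singleton 0)

theorem nb_diag : ¬ MeasurableSet {y : ℕ → ℕ | ∃ v : ℕ → ℕ, ∀ n, nb_c y (nb_pre y n) (nb_pre v n)} := by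
  intro hD
  have hA := hD.compl.analyticSet
  rw [MeasureTheory.AnalyticSet] at hA
  rcases hA with h | ⟨φ, hφ, hr⟩
  · have h1 : (fun _ => 1 : ℕ → ℕ) ∈
        {y : ℕ → ℕ | ∃ v : ℕ → ℕ, ∀ n, nb_c y (nb_pre y n) (nb_pre v n)}ᶜ := by
      rintro ⟨v, hv⟩
      have := hv 0
      exact absurd this (by simp [nb_c])
    rw [h] at h1
    exact h1
  · classical
    set y0 : ℕ → ℕ := fun k => if ∃ (n : ℕ) (v : ℕ → ℕ),
      k = Encodable.encode (nb_pre (φ v) n, nb_pre v n) then 0 else 1 with hy0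
    have hc : ∀ a b, nb_c y0 a b ↔ ∃ (n : ℕ) (v : ℕ → ℕ), a = nb_pre (φ v) n ∧ b = nb_pre v n := by
      intro a b
      unfold nb_c
      rw [hy0]
      simp only
      constructor
      · intro h
        by_contra hcon
        rw [if_neg] at h
        · exact one_ne_zero h
        · rintro ⟨n, v, hnv⟩
          have h1 := Encodable.encode_injective hnv
          rw [Prod.mk.injEq] at h1
          exact hcon ⟨n, v, h1⟩
      · rintro ⟨n, v, rfl, rfl⟩
        rw [if_pos ⟨n, v, rfl⟩]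
    have hiff : (∃ v : ℕ → ℕ, ∀ n, nb_c y0 (nb_pre y0 n) (nb_pre v n)) ↔ y0 ∈ Set.range φ := by
      constructor
      · rintro ⟨v, hv⟩
        have hw : ∀ n, ∃ w : ℕ → ℕ, (∀ i < n, y0 i = φ w i) ∧ ∀ i < n, v i = w i := by
          intro n
          obtain ⟨m, w, h1, h2⟩ := (hc _ _).mp (hv n)
          exact ⟨w, (nb_pre_eq h1).2, (nb_pre_eq h2).2⟩
        choose w hw1 hw2 using hw
        refine ⟨v, ?_⟩
        have t1 : Tendsto w atTop (𝓝 v) := by
          rw [tendsto_pi_nhds]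
          intro i
          refine tendsto_const_nhds.congr' ?_
          filter_upwards [eventually_gt_atTop i] with n hn
          exact hw2 n i hn
        have t2 : Tendsto (fun n => φ (w n)) atTop (𝓝 (φ v)) := (hφ.tendsto v).comp t1
        have t3 : Tendsto (fun n => φ (w n)) atTop (𝓝 y0) := by
          rw [tendsto_pi_nhds]
          intro i
          refine tendsto_const_nhds.congr' ?_
          filter_upwards [eventually_gt_atTop i] with n hn
          exact hw1 n i hn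
        exact tendsto_nhds_unique t2 t3
      · rintro ⟨v, hv⟩
        refine ⟨v, fun n => (hc _ _).mpr ⟨n, v, by rw [hv], rfl⟩⟩
    rw [hr] at hiff
    by_cases h : ∃ v : ℕ → ℕ, ∀ n, nb_c y0 (nb_pre y0 n) (nb_pre v n)
    · exact (hiff.mp h) h
    · exact h (hiff.mpr h)

/-- there is a Borel family of trees such that the set of the ill-founded ones is not Borel -/
theorem nonborel : ∃ T : (ℕ → ℕ) → Set (List ℕ),
    (∀ y s t, s <+: t → t ∈ T y → s ∈ T y) ∧
    (∀ s, MeasurableSet {y | s ∈ T y}) ∧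
    ¬ MeasurableSet {y | ∃ v : ℕ → ℕ, ∀ n, List.ofFn (fun i : Fin n => v i) ∈ T y} := by
  refine ⟨fun y => {s | ∀ n ≤ s.length, nb_c y (nb_pre y n) (s.take n)}, ?_, ?_, ?_⟩
  · rintro y s t ⟨r, rfl⟩ ht n hn
    have h1 := ht n (by rw [List.length_append]; omega)
    rwa [List.take_append_of_le_length hn] at h1
  · intro s
    have h1 : {y : ℕ → ℕ | s ∈ {s : List ℕ | ∀ n ≤ s.length, nb_c y (nb_pre y n) (s.take n)}} =
        ⋂ n : ℕ, ⋂ _ : n ≤ s.length, {y : ℕ → ℕ | nb_c y (nb_pre y n) (s.take n)} := by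
      ext y
      simp only [Set.mem_iInter]
      rfl
    rw [h1]
    exact MeasurableSet.iInter fun n => MeasurableSet.iInter fun _ => nb_meas_c n _
  · intro hm
    apply nb_diag
    convert hm using 1
    ext y
    constructor
    · rintro ⟨v, hv⟩
      refine ⟨v, fun n m hmn => ?_⟩
      have h1 : (List.ofFn (fun i : Fin n => v i)).take m = nb_pre v m := by
        refine nb_pre_take v ?_
        rwa [List.length_ofFn] at hmn
      rw [h1]
      exact hv m
    · rintro ⟨v, hv⟩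
      refine ⟨v, fun n => ?_⟩
      have h1 := hv n n (by rw [List.length_ofFn])
      have h2 : (List.ofFn (fun i : Fin n => v i)).take n = nb_pre v n := nb_pre_take v le_rfl
      rw [h2] at h1
      exact h1

end

section

/-- the Kleene Brouwer relation -/
def kbR : List ℕ → List ℕ → Prop
  | [], _ => False
  | _ :: _, [] => True
  | a :: s, b :: t => a < b ∨ (a = b ∧ kbR s t)

theorem kbR_irr (s : List ℕ) : ¬ kbR s s := by
  induction s with
  | nil => exact fun h => h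
  | cons a s ih =>
    rintro (h | ⟨_, h⟩)
    · exact lt_irrefl a h
    · exact ih h

theorem kbR_tr : ∀ s t u : List ℕ, kbR s t → kbR t u → kbR s u
  | [], _, _, h, _ => h.elim
  | _ :: _, [], _, _, h => h.elim
  | _ :: _, _ :: _, [], _, _ => trivial
  | a :: s, b :: t, c :: u, h1, h2 => by
    rcases h1 with h1 | ⟨h1, h1'⟩
    · rcases h2 with h2 | ⟨h2, _⟩
      · exact Or.inl (h1.trans h2)
      · exact Or.inl (h2 ▸ h1)
    · rcases h2 with h2 | ⟨h2, h2'⟩
      · exact Or.inl (h1 ▸ h2)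
      · exact Or.inr ⟨h1.trans h2, kbR_tr s t u h1' h2'⟩

theorem kbR_tot : ∀ s t : List ℕ, s = t ∨ kbR s t ∨ kbR t s
  | [], [] => Or.inl rfl
  | [], _ :: _ => Or.inr (Or.inr trivial)
  | _ :: _, [] => Or.inr (Or.inl trivial)
  | a :: s, b :: t => by
    rcases lt_trichotomy a b with h | h | h
    · exact Or.inr (Or.inl (Or.inl h))
    · subst h
      rcases kbR_tot s t with h' | h' | h'
      · exact Or.inl (by rw [h'])
      · exact Or.inr (Or.inl (Or.inr ⟨rfl, h'⟩))
      · exact Or.inr (Or.inr (Or.inr ⟨rfl, h'⟩))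
    · exact Or.inr (Or.inr (Or.inl h))

theorem kbR_snoc (s : List ℕ) (n : ℕ) : kbR (s ++ [n]) s := by
  induction s with
  | nil => exact trivial
  | cons a s ih => exact Or.inr ⟨rfl, ih⟩

theorem kbR_left (n : ℕ) : ∀ s t : List ℕ, kbR t (s ++ [n]) → ¬ (s ++ [n]) <+: t →
    (kbR t s ∧ ¬ s <+: t) ∨ ∃ m < n, (s ++ [m]) <+: t
  | [], [], h, _ => h.elim
  | [], b :: r, h, h' => by
    rcases h with h | ⟨h, _⟩
    · exact Or.inr ⟨b, h, List.cons_prefix_cons.2 ⟨rfl, List.nil_prefix⟩⟩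
    · exact (h' (List.cons_prefix_cons.2 ⟨h.symm, List.nil_prefix⟩)).elim
  | a :: s, [], h, _ => h.elim
  | a :: s, b :: r, h, h' => by
    rcases h with h | ⟨h, h2⟩
    · refine Or.inl ⟨Or.inl h, fun h3 => ?_⟩
      have := (List.cons_prefix_cons.1 h3).1
      omega
    · subst h
      have h3 : ¬ (s ++ [n]) <+: r := fun h4 => h' (List.cons_prefix_cons.2 ⟨rfl, h4⟩)
      rcases kbR_left n s r h2 h3 with ⟨h4, h5⟩ | ⟨m, hm, h4⟩
      · exact Or.inl ⟨Or.inr ⟨rfl, h4⟩, fun h6 => h5 (List.cons_prefix_cons.1 h6).2⟩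
      · exact Or.inr ⟨m, hm, List.cons_prefix_cons.2 ⟨rfl, h4⟩⟩

/-- the Kleene Brouwer order of `T`, followed by the complement of `T` -/
def kbL (T : Set (List ℕ)) (a b : List ℕ) : Prop :=
  (a ∈ T ∧ b ∈ T ∧ kbR a b) ∨ (a ∈ T ∧ b ∉ T) ∨
    (a ∉ T ∧ b ∉ T ∧ Encodable.encode a < Encodable.encode b)

theorem kbL_sto (T : Set (List ℕ)) : STO (kbL T) where
  irr n := by
    rintro (⟨_, _, h⟩ | ⟨h, h'⟩ | ⟨_, _, h⟩)
    · exact kbR_irr n h
    · exact h' h
    · exact lt_irrefl _ h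
  tr l m n := by
    rintro (⟨h1, h2, h3⟩ | ⟨h1, h2⟩ | ⟨h1, h2, h3⟩) (⟨h4, h5, h6⟩ | ⟨h4, h5⟩ | ⟨h4, h5, h6⟩)
    · exact Or.inl ⟨h1, h5, kbR_tr _ _ _ h3 h6⟩
    · exact Or.inr (Or.inl ⟨h1, h5⟩)
    · exact (h4 h2).elim
    · exact (h2 h4).elim
    · exact (h2 h4).elim
    · exact Or.inr (Or.inl ⟨h1, h5⟩)
    · exact (h2 h4).elim
    · exact (h2 h4).elim
    · exact Or.inr (Or.inr ⟨h1, h5, h3.trans h6⟩)
  tot m n := by
    by_cases hm : m ∈ T
    · by_cases hn : n ∈ T
      · rcases kbR_tot m n with h | h | h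
        · exact Or.inl h
        · exact Or.inr (Or.inl (Or.inl ⟨hm, hn, h⟩))
        · exact Or.inr (Or.inr (Or.inl ⟨hn, hm, h⟩))
      · exact Or.inr (Or.inl (Or.inr (Or.inl ⟨hm, hn⟩)))
    · by_cases hn : n ∈ T
      · exact Or.inr (Or.inr (Or.inr (Or.inl ⟨hn, hm⟩)))
      · rcases lt_trichotomy (Encodable.encode m) (Encodable.encode n) with h | h | h
        · exact Or.inr (Or.inl (Or.inr (Or.inr ⟨hm, hn, h⟩)))
        · exact Or.inl (Encodable.encode_injective h)
        · exact Or.inr (Or.inr (Or.inr (Or.inr ⟨hn, hm, h⟩)))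

theorem kbL_branch (T : Set (List ℕ)) (v : ℕ → ℕ)
    (hv : ∀ n, List.ofFn (fun i : Fin n => v i) ∈ T) : ¬ WellFounded (kbL T) := by
  intro hwf
  obtain ⟨x, ⟨n, rfl⟩, hx⟩ := hwf.has_min (Set.range fun n => List.ofFn (fun i : Fin n => v i))
    ⟨_, 0, rfl⟩
  refine hx _ ⟨n + 1, rfl⟩ (Or.inl ⟨hv _, hv _, ?_⟩)
  have : List.ofFn (fun i : Fin (n + 1) => v i) = List.ofFn (fun i : Fin n => v i) ++ [v n] := by
    rw [List.ofFn_succ', List.concat_eq_append]
    rfl
  change kbR (List.ofFn (fun i : Fin (n + 1) => v i)) (List.ofFn (fun i : Fin n => v i))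
  rw [this]
  exact kbR_snoc _ _

/-- one-step extensions inside `T` -/
def kbE (T : Set (List ℕ)) (t s : List ℕ) : Prop := t ∈ T ∧ ∃ n, t = s ++ [n]

theorem kbE_wf (T : Set (List ℕ)) (hT : ∀ s t, s <+: t → t ∈ T → s ∈ T)
    (h : ¬ ∃ v : ℕ → ℕ, ∀ n, List.ofFn (fun i : Fin n => v i) ∈ T) : WellFounded (kbE T) := by
  rw [wellFounded_iff_isEmpty_descending_chain]
  refine ⟨?_⟩
  rintro ⟨f, hf⟩
  apply h
  have hlen : ∀ n, n ≤ (f n).length := by
    intro n
    induction n with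
    | zero => exact Nat.zero_le _
    | succ n ih =>
      obtain ⟨_, a, ha⟩ := hf n
      rw [ha, List.length_append, List.length_singleton]
      omega
  have hmem : ∀ n, f n ∈ T := by
    intro n
    obtain ⟨h1, a, ha⟩ := hf n
    refine hT _ _ ?_ h1
    rw [ha]
    exact List.prefix_append _ _
  refine ⟨fun i => (f (i + 1))[i]'(hlen (i + 1)), fun n => ?_⟩
  have key : List.ofFn (fun i : Fin n => (f ((i : ℕ) + 1))[(i : ℕ)]'(hlen ((i : ℕ) + 1))) =
      (f n).take n := by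
    induction n with
    | zero => simp
    | succ n ih =>
      rw [List.ofFn_succ', List.concat_eq_append]
      have h1 : (f n).take n = (f (n + 1)).take n := by
        obtain ⟨_, a, ha⟩ := hf n
        rw [ha, List.take_append_of_le_length (hlen n)]
      have h2 : (f (n + 1)).take n ++ [(f (n + 1))[n]'(hlen (n + 1))] =
          (f (n + 1)).take (n + 1) := List.take_append_getElem (hlen (n + 1))
      rw [← h2, ← h1, ← ih]
      rfl
  rw [key]
  exact hT _ _ (List.take_prefix _ _) (hmem n)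

theorem kbL_acc (T : Set (List ℕ)) (hT : ∀ s t, s <+: t → t ∈ T → s ∈ T)
    (hE : WellFounded (kbE T)) (s : List ℕ) :
    (∀ t ∈ T, kbR t s → ¬ s <+: t → Acc (kbL T) t) → ∀ t ∈ T, s <+: t → Acc (kbL T) t := by
  induction s using hE.induction with
  | h s IH =>
  intro hl
  -- the proper extensions
  have hext : ∀ n, ∀ t ∈ T, (s ++ [n]) <+: t → Acc (kbL T) t := by
    intro n
    induction n using Nat.strong_induction_on with
    | _ n ihn =>
    intro t ht hst
    refine IH (s ++ [n]) ⟨hT _ _ hst ht, n, rfl⟩ ?_ t ht hst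
    intro u hu hu1 hu2
    rcases kbR_left n s u hu1 hu2 with ⟨h1, h2⟩ | ⟨m, hm, h1⟩
    · exact hl u hu h1 h2
    · exact ihn m hm u hu h1
  intro t ht hst
  obtain ⟨r, rfl⟩ := hst
  cases r with
  | cons n r =>
    refine hext n _ ht ?_
    refine ⟨r, ?_⟩
    rw [List.append_assoc]
    rfl
  | nil =>
    rw [List.append_nil] at ht ⊢
    refine ⟨_, fun u hu => ?_⟩
    rcases hu with ⟨h1, _, h3⟩ | ⟨_, h2⟩ | ⟨_, h2, _⟩
    · by_cases hsu : s <+: u
      · obtain ⟨r, rfl⟩ := hsu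
        cases r with
        | nil =>
          rw [List.append_nil] at h3
          exact (kbR_irr _ h3).elim
        | cons n r =>
          refine hext n _ h1 ?_
          refine ⟨r, ?_⟩
          rw [List.append_assoc]
          rfl
      · exact hl u h1 h3 hsu
    · exact (h2 ht).elim
    · exact (h2 ht).elim

theorem kbL_wf (T : Set (List ℕ)) (hT : ∀ s t, s <+: t → t ∈ T → s ∈ T)
    (h : ¬ ∃ v : ℕ → ℕ, ∀ n, List.ofFn (fun i : Fin n => v i) ∈ T) : WellFounded (kbL T) := by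
  have hE := kbE_wf T hT h
  have h1 : ∀ t ∈ T, Acc (kbL T) t := by
    intro t ht
    refine kbL_acc T hT hE [] ?_ t ht List.nil_prefix
    intro u _ _ hu
    exact (hu List.nil_prefix).elim
  refine ⟨fun t => ?_⟩
  by_cases ht : t ∈ T
  · exact h1 t ht
  · have h2 : ∀ n, ∀ u : List ℕ, u ∉ T → Encodable.encode u < n → Acc (kbL T) u := by
      intro n
      induction n with
      | zero => exact fun u _ hu => (Nat.not_lt_zero _ hu).elim
      | succ n ih =>
        intro u hu hun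
        refine ⟨_, fun w hw => ?_⟩
        rcases hw with ⟨h3, _, _⟩ | ⟨h3, _⟩ | ⟨h3, _, h5⟩
        · exact h1 w h3
        · exact h1 w h3
        · exact ih w h3 (by omega)
    exact h2 _ t ht (Nat.lt_succ_self _)

/-- Kleene Brouwer orders -/
theorem kleene_brouwer : ∃ L : Set (List ℕ) → List ℕ → List ℕ → Prop,
    (∀ T, STO (L T)) ∧
    (∀ T : Set (List ℕ), (∀ s t, s <+: t → t ∈ T → s ∈ T) →
      (WellFounded (L T) ↔ ¬ ∃ v : ℕ → ℕ, ∀ n, List.ofFn (fun i : Fin n => v i) ∈ T)) ∧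
    (∀ a b, ∃ Q : Prop → Prop → Prop, ∀ T, L T a b ↔ Q (a ∈ T) (b ∈ T)) := by
  refine ⟨kbL, kbL_sto, fun T hT => ⟨?_, kbL_wf T hT⟩, fun a b => ?_⟩
  · rintro hwf ⟨v, hv⟩
    exact kbL_branch T v hv hwf
  · exact ⟨fun p q => (p ∧ q ∧ kbR a b) ∨ (p ∧ ¬ q) ∨
      (¬ p ∧ ¬ q ∧ Encodable.encode a < Encodable.encode b), fun T => Iff.rfl⟩

end

section

theorem Ex_sto_max {A : Type*} {L : A → A → Prop} (hL : STO L) (s : Finset A) :
    s.Nonempty → ∃ a ∈ s, ∀ b ∈ s, b = a ∨ L b a := by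
  classical
  induction s using Finset.induction_on with
  | empty => intro h; exact absurd h Finset.not_nonempty_empty
  | insert x s hx ih =>
    intro _
    rcases s.eq_empty_or_nonempty with rfl | hs
    · exact ⟨x, by simp, fun b hb => Or.inl (by simpa using hb)⟩
    · obtain ⟨a, ha, hmax⟩ := ih hs
      rcases hL.tot x a with h | h | h
      · subst h
        exact absurd ha hx
      · refine ⟨a, Finset.mem_insert_of_mem ha, fun b hb => ?_⟩
        rcases Finset.mem_insert.1 hb with rfl | hb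
        · exact Or.inr h
        · exact hmax b hb
      · refine ⟨x, Finset.mem_insert_self _ _, fun b hb => ?_⟩
        rcases Finset.mem_insert.1 hb with rfl | hb
        · exact Or.inl rfl
        · rcases hmax b hb with rfl | h'
          · exact Or.inr h
          · exact Or.inr (hL.tr _ _ _ h' h)

theorem Ex_sto {A : Type*} {L : A → A → Prop} (hL : STO L) : STO (Ex L) := by
  classical
  refine ⟨?_, ?_, ?_⟩
  · rintro f ⟨a, h, _⟩
    exact lt_irrefl _ h
  · rintro f g h ⟨a, ha, ha'⟩ ⟨b, hb, hb'⟩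
    rcases hL.tot a b with rfl | hab | hba
    · exact ⟨a, ha.trans hb, fun c hc => (ha' c hc).trans (hb' c hc)⟩
    · refine ⟨b, ?_, fun c hc => (ha' c (hL.tr _ _ _ hab hc)).trans (hb' c hc)⟩
      rw [ha' b hab]
      exact hb
    · refine ⟨a, ?_, fun c hc => (ha' c hc).trans (hb' c (hL.tr _ _ _ hba hc))⟩
      rw [← hb' a hba]
      exact ha
  · intro f g
    by_cases hfg : f = g
    · exact Or.inl hfg
    right
    obtain ⟨x, hx⟩ := Finsupp.ne_iff.1 hfg
    have hmem : ∀ b, f b ≠ g b → b ∈ (f.support ∪ g.support).filter (fun b => f b ≠ g b) := by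
      intro b hb
      rw [Finset.mem_filter]
      refine ⟨?_, hb⟩
      rw [Finset.mem_union, Finsupp.mem_support_iff, Finsupp.mem_support_iff]
      by_contra hcon
      push Not at hcon
      exact hb (hcon.1.trans hcon.2.symm)
    obtain ⟨a, ha, hmax⟩ := Ex_sto_max hL _ ⟨x, hmem x hx⟩
    have hne : f a ≠ g a := (Finset.mem_filter.1 ha).2
    have habove : ∀ b, L a b → f b = g b := by
      intro b hb
      by_contra hcon
      rcases hmax b (hmem b hcon) with rfl | h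
      · exact hL.irr _ hb
      · exact hL.irr _ (hL.tr _ _ _ hb h)
    rcases lt_or_gt_of_ne hne with h | h
    · exact Or.inl ⟨a, h, habove⟩
    · exact Or.inr ⟨a, h, fun b hb => (habove b hb).symm⟩

theorem Ex2_sto {A : Type*} {L : A → A → Prop} (hL : STO L) : STO (Ex2 L) := by
  have hE := Ex_sto hL
  refine ⟨?_, ?_, ?_⟩
  · rintro p (h | ⟨_, h⟩)
    · exact lt_irrefl _ h
    · exact hE.irr _ h
  · rintro p q r (h | ⟨h, h'⟩) (k | ⟨k, k'⟩)
    · exact Or.inl (h.trans k)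
    · exact Or.inl (k ▸ h)
    · exact Or.inl (h ▸ k)
    · exact Or.inr ⟨h.trans k, hE.tr _ _ _ h' k'⟩
  · intro p q
    rcases lt_trichotomy p.1 q.1 with h | h | h
    · exact Or.inr (Or.inl (Or.inl h))
    · rcases hE.tot p.2 q.2 with h' | h' | h'
      · exact Or.inl (Prod.ext h h')
      · exact Or.inr (Or.inl (Or.inr ⟨h, h'⟩))
      · exact Or.inr (Or.inr (Or.inr ⟨h.symm, h'⟩))
    · exact Or.inr (Or.inr (Or.inl h))

end

section

theorem Ex_wf {A : Type*} {L : A → A → Prop} (hL : STO L) (hw : WellFounded L) :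
    WellFounded (Ex L) := by
  have h1 : WellFounded (Finsupp.Lex (fun b a : A => L a b) (fun m n : ℕ => m < n)) := by
    apply Finsupp.Lex.wellFounded
    · intro n hn
      exact absurd hn (Nat.not_lt_zero n)
    · exact wellFounded_lt
    · refine Subrelation.wf ?_ hw
      intro a b hab
      obtain ⟨h2, h3⟩ := hab
      rcases hL.tot a b with h | h | h
      · exact absurd h h3
      · exact h
      · exact absurd h h2
  refine Subrelation.wf ?_ h1
  rintro f g ⟨a, h2, h3⟩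
  exact ⟨a, fun b hb => h3 b hb, h2⟩

end

section

theorem Ex2_dl {A : Type*} {L : A → A → Prop} (hL : STO L) : ∃ S, DL (Ex2 L) S := by
  refine ⟨Set.range (fun q : ℚ => (((q : WithBot ℚ), (0 : A →₀ ℕ)) : WithBot ℚ × (A →₀ ℕ))),
    ⟨_, 0, rfl⟩, ?_⟩
  rintro _ ⟨q, rfl⟩
  refine ⟨⟨(((q - 1 : ℚ) : WithBot ℚ), 0), Or.inl ?_⟩, ?_⟩
  · exact WithBot.coe_lt_coe.2 (by linarith)
  · rintro ⟨x, f⟩ hm
    rcases hm with hx | ⟨-, a, ha, -⟩
    · have hx : x < (q : WithBot ℚ) := hx
      induction x using WithBot.recBotCoe with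
      | bot =>
        refine ⟨_, ⟨q - 1, rfl⟩, Or.inl ?_, Or.inl ?_⟩
        · exact WithBot.bot_lt_coe _
        · exact WithBot.coe_lt_coe.2 (by linarith)
      | coe x =>
        have h1 : x < q := WithBot.coe_lt_coe.1 hx
        obtain ⟨y, hy1, hy2⟩ := exists_between h1
        refine ⟨_, ⟨y, rfl⟩, Or.inl ?_, Or.inl ?_⟩
        · exact WithBot.coe_lt_coe.2 hy1
        · exact WithBot.coe_lt_coe.2 hy2
    · simp at ha

end

section

theorem cantor_bot_key (C : Type*) [LinearOrder C] [DenselyOrdered C] [NoMaxOrder C] [OrderBot C] :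
      DenselyOrdered (Set.Ioi (⊥ : C)) ∧ NoMaxOrder (Set.Ioi (⊥ : C)) ∧
        NoMinOrder (Set.Ioi (⊥ : C)) ∧ Nonempty (Set.Ioi (⊥ : C)) := by
    refine ⟨⟨?_⟩, ⟨?_⟩, ⟨?_⟩, ?_⟩
    · rintro ⟨a, ha⟩ ⟨b, hb⟩ hab
      obtain ⟨c, hc1, hc2⟩ := exists_between (show a < b from hab)
      exact ⟨⟨c, lt_trans ha hc1⟩, hc1, hc2⟩
    · rintro ⟨a, ha⟩
      obtain ⟨b, hb⟩ := exists_gt a
      exact ⟨⟨b, lt_trans ha hb⟩, hb⟩
    · rintro ⟨a, ha⟩
      obtain ⟨c, hc1, hc2⟩ := exists_between (show ⊥ < a from ha)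
      exact ⟨⟨c, hc1⟩, hc2⟩
    · obtain ⟨b, hb⟩ := exists_gt (⊥ : C)
      exact ⟨⟨b, hb⟩⟩

theorem cantor_bot {A B : Type*} [LinearOrder A] [LinearOrder B] [Countable A] [Countable B]
    [DenselyOrdered A] [DenselyOrdered B] [NoMaxOrder A] [NoMaxOrder B] [OrderBot A] [OrderBot B] :
    Nonempty (A ≃o B) := by
  classical
  obtain ⟨hA1, hA2, hA3, hA4⟩ := cantor_bot_key A
  obtain ⟨hB1, hB2, hB3, hB4⟩ := cantor_bot_key B
  obtain ⟨e⟩ := Order.iso_of_countable_dense (Set.Ioi (⊥ : A)) (Set.Ioi (⊥ : B))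
  let f : A → B := fun a => if h : ⊥ < a then (e ⟨a, h⟩ : B) else ⊥
  have hf1 : ∀ (a : A) (h : ⊥ < a), f a = (e ⟨a, h⟩ : B) := fun a h => dif_pos h
  have hf2 : ∀ (a : A), ¬ (⊥ < a) → f a = ⊥ := fun a h => dif_neg h
  have hmono : StrictMono f := by
    intro a b hab
    have hb : ⊥ < b := bot_le.trans_lt hab
    rw [hf1 b hb]
    by_cases ha : ⊥ < a
    · rw [hf1 a ha]
      have : e ⟨a, ha⟩ < e ⟨b, hb⟩ := e.strictMono hab
      exact this
    · rw [hf2 a ha]
      exact (e ⟨b, hb⟩).2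
  have hsurj : Function.Surjective f := by
    intro b
    by_cases hb : ⊥ < b
    · refine ⟨e.symm ⟨b, hb⟩, ?_⟩
      rw [hf1 _ (e.symm ⟨b, hb⟩).2]
      have : (⟨(e.symm ⟨b, hb⟩ : A), (e.symm ⟨b, hb⟩).2⟩ : Set.Ioi (⊥ : A)) = e.symm ⟨b, hb⟩ := rfl
      rw [this, OrderIso.apply_symm_apply]
    · refine ⟨⊥, ?_⟩
      rw [hf2 ⊥ (lt_irrefl _)]
      exact (not_bot_lt_iff.1 hb).symm
  exact ⟨hmono.orderIsoOfSurjective f hsurj⟩

end

section

/-- wrapper carrying the linear order of a strict total order -/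
structure Wr16327 {B : Type*} (r : B → B → Prop) where
  val : B

/-- the linear order of a strict total order -/
@[instance_reducible] noncomputable def lo16327 {B : Type*} {r : B → B → Prop} (h : STO r) :
    LinearOrder (Wr16327 r) where
  le x y := x = y ∨ r x.val y.val
  lt x y := r x.val y.val
  le_refl x := Or.inl rfl
  le_trans x y z := by
    rintro (rfl | h1) (rfl | h2)
    · exact Or.inl rfl
    · exact Or.inr h2
    · exact Or.inr h1
    · exact Or.inr (h.tr _ _ _ h1 h2)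
  lt_iff_le_not_ge x y := by
    constructor
    · intro h1
      refine ⟨Or.inr h1, ?_⟩
      rintro (rfl | h2)
      · exact h.irr _ h1
      · exact h.irr _ (h.tr _ _ _ h1 h2)
    · rintro ⟨rfl | h1, h2⟩
      · exact absurd (Or.inl rfl) h2
      · exact h1
  le_antisymm x y := by
    rintro (rfl | h1) (h2 | h2)
    · rfl
    · rfl
    · exact h2.symm
    · exact absurd (h.tr _ _ _ h1 h2) (h.irr _)
  le_total x y := by
    rcases h.tot x.val y.val with h1 | h1 | h1
    · left; left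
      cases x; cases y
      simp only at h1
      rw [h1]
    · exact Or.inl (Or.inr h1)
    · exact Or.inr (Or.inr h1)
  toDecidableLE := Classical.decRel _

theorem cantor_sto_16327 {B C : Type*} [Countable B] [Countable C] {r : B → B → Prop}
    {s : C → C → Prop} (hr : STO r) (hs : STO s)
    (br : ∃ b, ∀ x, x = b ∨ r b x) (bs : ∃ b, ∀ x, x = b ∨ s b x)
    (nr : ∀ x, ∃ y, r x y) (ns : ∀ x, ∃ y, s x y)
    (dr : ∀ x y, r x y → ∃ z, r x z ∧ r z y) (ds : ∀ x y, s x y → ∃ z, s x z ∧ s z y) :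
    ∃ e : B ≃ C, ∀ x y, r x y ↔ s (e x) (e y) := by
  letI i1 : LinearOrder (Wr16327 r) := lo16327 hr
  letI i2 : LinearOrder (Wr16327 s) := lo16327 hs
  have c1 : Countable (Wr16327 r) := Function.Injective.countable (f := Wr16327.val)
    (by rintro ⟨x⟩ ⟨y⟩ h; simp only at h; rw [h])
  have c2 : Countable (Wr16327 s) := Function.Injective.countable (f := Wr16327.val)
    (by rintro ⟨x⟩ ⟨y⟩ h; simp only at h; rw [h])
  have d1 : DenselyOrdered (Wr16327 r) := ⟨fun x y h => by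
    obtain ⟨z, h1, h2⟩ := dr x.val y.val h
    exact ⟨⟨z⟩, h1, h2⟩⟩
  have d2 : DenselyOrdered (Wr16327 s) := ⟨fun x y h => by
    obtain ⟨z, h1, h2⟩ := ds x.val y.val h
    exact ⟨⟨z⟩, h1, h2⟩⟩
  have n1 : NoMaxOrder (Wr16327 r) := ⟨fun x => by
    obtain ⟨z, h1⟩ := nr x.val
    exact ⟨⟨z⟩, h1⟩⟩
  have n2 : NoMaxOrder (Wr16327 s) := ⟨fun x => by
    obtain ⟨z, h1⟩ := ns x.val
    exact ⟨⟨z⟩, h1⟩⟩
  letI b1 : OrderBot (Wr16327 r) :=
    { bot := ⟨br.choose⟩
      bot_le := by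
        rintro ⟨x⟩
        rcases br.choose_spec x with h | h
        · left
          rw [h]
        · exact Or.inr h }
  letI b2 : OrderBot (Wr16327 s) :=
    { bot := ⟨bs.choose⟩
      bot_le := by
        rintro ⟨x⟩
        rcases bs.choose_spec x with h | h
        · left
          rw [h]
        · exact Or.inr h }
  obtain ⟨φ⟩ := cantor_bot (A := Wr16327 r) (B := Wr16327 s)
  refine ⟨⟨fun x => (φ ⟨x⟩).val, fun y => (φ.symm ⟨y⟩).val, ?_, ?_⟩, ?_⟩
  · intro x
    have : (⟨(φ ⟨x⟩).val⟩ : Wr16327 s) = φ ⟨x⟩ := rfl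
    simp only [this, OrderIso.symm_apply_apply]
  · intro y
    have : (⟨(φ.symm ⟨y⟩).val⟩ : Wr16327 r) = φ.symm ⟨y⟩ := rfl
    simp only [this, OrderIso.apply_symm_apply]
  · intro x y
    exact (φ.lt_iff_lt (x := ⟨x⟩) (y := ⟨y⟩)).symm

/-- splitting the support -/
theorem Ex_split_16327 {A : Type*} {L : A → A → Prop} (P : A → Prop)
    (hup : ∀ a b, P a → L a b → P b) (hab : ∀ a b, ¬ P a → P b → L a b) (f g : A →₀ ℕ) :
    Ex L f g ↔ Ex (fun x y : Subtype P => L x.1 y.1) (f.subtypeDomain P) (g.subtypeDomain P) ∨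
      (f.subtypeDomain P = g.subtypeDomain P ∧
        Ex (fun x y : {a // ¬ P a} => L x.1 y.1) (f.subtypeDomain (fun a => ¬ P a))
          (g.subtypeDomain (fun a => ¬ P a))) := by
  constructor
  · rintro ⟨a, h1, h2⟩
    by_cases ha : P a
    · left
      exact ⟨⟨a, ha⟩, h1, fun b hb => h2 b.1 hb⟩
    · right
      refine ⟨?_, ⟨⟨a, ha⟩, h1, fun b hb => h2 b.1 hb⟩⟩
      ext b
      exact h2 b.1 (hab a b.1 ha b.2)
  · rintro (⟨a, h1, h2⟩ | ⟨h0, a, h1, h2⟩)
    · exact ⟨a.1, h1, fun b hb => h2 ⟨b, hup a.1 b a.2 hb⟩ hb⟩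
    · refine ⟨a.1, h1, fun b hb => ?_⟩
      by_cases hbP : P b
      · exact DFunLike.congr_fun h0 ⟨b, hbP⟩
      · exact h2 ⟨b, hbP⟩ hb

theorem Ex_iso {A : Type*} [Countable A] {L : A → A → Prop} (hL : STO L) (hw : ¬ WellFounded L) :
    ∃ e : (A →₀ ℕ) ≃ (WithBot ℚ × (A →₀ ℕ)), ∀ f g, Ex L f g ↔ Ex2 L (e f) (e g) := by
  classical
  set P : A → Prop := fun a => ¬ Acc L a with hP
  have hup : ∀ a b, P a → L a b → P b := by
    intro a b ha hab hb
    exact ha (hb.inv hab)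
  have hab : ∀ a b, ¬ P a → P b → L a b := by
    intro a b ha hb
    have ha' : Acc L a := not_not.1 ha
    rcases hL.tot a b with h | h | h
    · exact absurd (h ▸ ha') hb
    · exact h
    · exact absurd (ha'.inv h) hb
  have hne : ∃ a, P a := by
    by_contra h
    push Not at h
    apply hw
    exact ⟨fun a => not_not.1 (h a)⟩
  have hmin : ∀ a, P a → ∃ b, P b ∧ L b a := by
    intro a ha
    by_contra h
    push Not at h
    apply ha
    refine ⟨a, fun b hb => ?_⟩
    by_contra hb'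
    exact h b hb' hb
  set L' : Subtype P → Subtype P → Prop := fun x y => L x.1 y.1 with hL'def
  have hL' : STO L' := by
    refine ⟨fun n => hL.irr _, fun l m n => hL.tr _ _ _, fun m n => ?_⟩
    rcases hL.tot m.1 n.1 with h | h | h
    · exact Or.inl (Subtype.ext h)
    · exact Or.inr (Or.inl h)
    · exact Or.inr (Or.inr h)
  have hE := Ex_sto hL'
  have hE2 := Ex2_sto hL'
  -- bottom
  have hbot : ∀ f : Subtype P →₀ ℕ, f = 0 ∨ Ex L' 0 f := by
    intro f
    rcases hE.tot f 0 with h | h | h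
    · exact Or.inl h
    · obtain ⟨a, ha, _⟩ := h
      simp at ha
    · exact Or.inr h
  have hadd : ∀ (f : Subtype P →₀ ℕ) (a : Subtype P), Ex L' f (f + Finsupp.single a 1) := by
    intro f a
    refine ⟨a, by simp, fun b hb => ?_⟩
    have hne : a ≠ b := by
      rintro rfl
      exact hL'.irr _ hb
    simp [Finsupp.single_apply, hne]
  obtain ⟨a0, ha0⟩ := hne
  have hnomax : ∀ f : Subtype P →₀ ℕ, ∃ g, Ex L' f g := fun f => ⟨_, hadd f ⟨a0, ha0⟩⟩
  have hdense : ∀ f g : Subtype P →₀ ℕ, Ex L' f g → ∃ h, Ex L' f h ∧ Ex L' h g := by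
    rintro f g ⟨a, h1, h2⟩
    obtain ⟨b, hb, hba⟩ := hmin a.1 a.2
    refine ⟨f + Finsupp.single ⟨b, hb⟩ 1, hadd f _, a, ?_, fun c hc => ?_⟩
    · have hne : (⟨b, hb⟩ : Subtype P) ≠ a := by
        rintro rfl
        exact hL.irr _ hba
      simpa [Finsupp.single_apply, hne] using h1
    · have hne : (⟨b, hb⟩ : Subtype P) ≠ c := by
        rintro rfl
        exact hL.irr _ (hL.tr _ _ _ hba hc)
      simpa [Finsupp.single_apply, hne] using h2 c hc
  obtain ⟨e0, he0⟩ := cantor_sto_16327 hE hE2 ⟨0, hbot⟩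
    ⟨(⊥, 0), by
      rintro ⟨q, f⟩
      rcases eq_or_ne q ⊥ with hq | hq
      · subst hq
        rcases hbot f with h | h
        · left; rw [h]
        · right
          exact Or.inr ⟨rfl, h⟩
      · right
        exact Or.inl (bot_lt_iff_ne_bot.2 hq)⟩
    hnomax
    (by
      rintro ⟨q, f⟩
      obtain ⟨g, hg⟩ := hnomax f
      exact ⟨(q, g), Or.inr ⟨rfl, hg⟩⟩)
    hdense
    (by
      rintro ⟨q, f⟩ ⟨q', g⟩ h
      rcases h with h | ⟨h, h'⟩
      · obtain ⟨g', hg'⟩ := hnomax f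
        exact ⟨(q, g'), Or.inr ⟨rfl, hg'⟩, Or.inl h⟩
      · obtain ⟨k, hk1, hk2⟩ := hdense f g h'
        exact ⟨(q, k), Or.inr ⟨rfl, hk1⟩, Or.inr ⟨h, hk2⟩⟩)
  -- the equivalence
  let e : (A →₀ ℕ) ≃ (WithBot ℚ × (A →₀ ℕ)) :=
    { toFun := fun f => ((e0 (f.subtypeDomain P)).1,
        Finsupp.piecewise (e0 (f.subtypeDomain P)).2 (f.subtypeDomain (fun a => ¬ P a)))
      invFun := fun p => Finsupp.piecewise (e0.symm (p.1, p.2.subtypeDomain P))
        (p.2.subtypeDomain (fun a => ¬ P a))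
      left_inv := by
        intro f
        simp only [Finsupp.subtypeDomain_piecewise, Finsupp.subtypeDomain_not_piecewise,
          Prod.mk.eta, Equiv.symm_apply_apply]
        ext a
        change dite (P a) (fun h => (f.subtypeDomain P) ⟨a, h⟩)
          (fun h => (f.subtypeDomain (fun a => ¬ P a)) ⟨a, h⟩) = f a
        split_ifs <;> rfl
      right_inv := by
        rintro ⟨q, f⟩
        simp only [Finsupp.subtypeDomain_piecewise, Finsupp.subtypeDomain_not_piecewise,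
          Equiv.apply_symm_apply]
        congr 1
        ext a
        change dite (P a) (fun h => (f.subtypeDomain P) ⟨a, h⟩)
          (fun h => (f.subtypeDomain (fun a => ¬ P a)) ⟨a, h⟩) = f a
        split_ifs <;> rfl }
  refine ⟨e, fun f g => ?_⟩
  have he : ∀ f, e f = ((e0 (f.subtypeDomain P)).1,
        Finsupp.piecewise (e0 (f.subtypeDomain P)).2 (f.subtypeDomain (fun a => ¬ P a))) :=
    fun f => rfl
  rw [Ex_split_16327 P hup hab f g, he, he]
  unfold Ex2
  simp only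
  rw [Ex_split_16327 P hup hab (Finsupp.piecewise _ _) (Finsupp.piecewise _ _),
    Finsupp.subtypeDomain_piecewise, Finsupp.subtypeDomain_piecewise,
    Finsupp.subtypeDomain_not_piecewise, Finsupp.subtypeDomain_not_piecewise]
  have h1 := he0 (f.subtypeDomain P) (g.subtypeDomain P)
  have h2 : f.subtypeDomain P = g.subtypeDomain P ↔
      ((e0 (f.subtypeDomain P)).1 = (e0 (g.subtypeDomain P)).1 ∧
        (e0 (f.subtypeDomain P)).2 = (e0 (g.subtypeDomain P)).2) := by
    rw [← Prod.ext_iff, e0.injective.eq_iff]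
  rw [h2]
  have h3 : Ex (fun x y : Subtype P => L x.1 y.1) (f.subtypeDomain P) (g.subtypeDomain P) ↔
      ((e0 (f.subtypeDomain P)).1 < (e0 (g.subtypeDomain P)).1 ∨
        ((e0 (f.subtypeDomain P)).1 = (e0 (g.subtypeDomain P)).1 ∧
          Ex (fun x y : Subtype P => L x.1 y.1) (e0 (f.subtypeDomain P)).2
            (e0 (g.subtypeDomain P)).2)) := h1
  rw [h3]
  tauto

end

section

theorem ord_sto {A B : Type*} {r : A → A → Prop} (h : STO r) (e : B ≃ A) :
    STO (fun m n => r (e m) (e n)) where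
  irr n := h.irr _
  tr l m n h1 h2 := h.tr _ _ _ h1 h2
  tot m n := by
    rcases h.tot (e m) (e n) with h1 | h1 | h1
    · left; exact e.injective h1
    · right; left; exact h1
    · right; right; exact h1

theorem ord_dl {A B : Type*} {r : A → A → Prop} {S : Set A} (h : DL r S) (e : A ≃ B) :
    DL (fun m n => r (e.symm m) (e.symm n)) (e.symm ⁻¹' S) := by
  obtain ⟨⟨s, hs⟩, h2⟩ := h
  refine ⟨⟨e s, by simpa using hs⟩, ?_⟩
  intro s hs
  obtain ⟨⟨m0, hm0⟩, h3⟩ := h2 (e.symm s) hs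
  refine ⟨⟨e m0, by simpa using hm0⟩, ?_⟩
  intro m hm
  obtain ⟨s0, hs0, h4, h5⟩ := h3 (e.symm m) hm
  exact ⟨e s0, by simpa using hs0, by simpa using h4, by simpa using h5⟩

theorem ord_meas {Y : Type*} [MeasurableSpace Y] (Q : Prop → Prop → Prop) (P R : Y → Prop)
    (hP : Measurable P) (hR : Measurable R) : Measurable (fun y => Q (P y) (R y)) := by
  have h : (fun y => Q (P y) (R y)) = fun y => (P y ∧ R y ∧ Q True True) ∨
      (P y ∧ ¬ R y ∧ Q True False) ∨ (¬ P y ∧ R y ∧ Q False True) ∨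
      (¬ P y ∧ ¬ R y ∧ Q False False) := by
    funext y
    by_cases h1 : P y <;> by_cases h2 : R y <;> simp [h1, h2]
  rw [h]
  exact (hP.and (hR.and measurable_const)).or ((hP.and (hR.not.and measurable_const)).or
    ((hP.not.and (hR.and measurable_const)).or (hP.not.and (hR.not.and measurable_const))))

theorem orders : ∃ (Nb : Set (ℕ → ℕ)) (r1 r2 : (ℕ → ℕ) → ℕ → ℕ → Prop),
    ¬ (MeasurableSet Nb) ∧
    (∀ y, STO (r1 y)) ∧ (∀ y, STO (r2 y)) ∧
    (∀ m n, MeasurableSet {y | r1 y m n}) ∧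
    (∀ m n, MeasurableSet {y | r2 y m n}) ∧
    (∀ y ∈ Nb, ∃ π : ℕ ≃ ℕ, ∀ m n, r1 y m n ↔ r2 y (π m) (π n)) ∧
    (∀ y ∉ Nb, WellFounded (r1 y)) ∧
    (∀ y, ∃ S, DL (r2 y) S) := by
  obtain ⟨T, hT1, hT2, hT3⟩ := nonborel
  obtain ⟨L, hL1, hL2, hL3⟩ := kleene_brouwer
  haveI i1 : Infinite (List ℕ →₀ ℕ) :=
    Infinite.of_injective (fun n => Finsupp.single [] n) (Finsupp.single_injective [])
  haveI i2 : Infinite (WithBot ℚ × (List ℕ →₀ ℕ)) :=
    Infinite.of_injective (fun f => (⊥, f)) (fun f g h => (Prod.mk.inj h).2)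
  haveI i3 : Countable (WithBot ℚ) := inferInstanceAs (Countable (Option ℚ))
  obtain ⟨e1⟩ : Nonempty ((List ℕ →₀ ℕ) ≃ ℕ) := nonempty_equiv_of_countable
  obtain ⟨e2⟩ : Nonempty ((WithBot ℚ × (List ℕ →₀ ℕ)) ≃ ℕ) := nonempty_equiv_of_countable
  have hLm : ∀ a b, Measurable (fun y => L (T y) a b) := by
    intro a b
    obtain ⟨Q, hQ⟩ := hL3 a b
    have h : (fun y => L (T y) a b) = fun y => Q (a ∈ T y) (b ∈ T y) := by
      funext y
      exact propext (hQ (T y))
    rw [h]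
    exact ord_meas Q _ _ (measurableSet_setOf.mp (hT2 a)) (measurableSet_setOf.mp (hT2 b))
  have hEx : ∀ f g, Measurable (fun y => Ex (L (T y)) f g) := by
    intro f g
    exact Measurable.exists fun a => measurable_const.and
      (Measurable.forall fun b => (hLm a b).imp measurable_const)
  have hEx2 : ∀ p q, Measurable (fun y => Ex2 (L (T y)) p q) := by
    intro p q
    exact measurable_const.or (measurable_const.and (hEx _ _))
  refine ⟨{y | ∃ v : ℕ → ℕ, ∀ n, List.ofFn (fun i : Fin n => v i) ∈ T y},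
    fun y m n => Ex (L (T y)) (e1.symm m) (e1.symm n),
    fun y m n => Ex2 (L (T y)) (e2.symm m) (e2.symm n), hT3, ?_, ?_, ?_, ?_, ?_, ?_, ?_⟩
  · intro y
    exact ord_sto (Ex_sto (hL1 (T y))) e1.symm
  · intro y
    exact ord_sto (Ex2_sto (hL1 (T y))) e2.symm
  · intro m n
    exact measurableSet_setOf.mpr (hEx _ _)
  · intro m n
    exact measurableSet_setOf.mpr (hEx2 _ _)
  · intro y hy
    have hw : ¬ WellFounded (L (T y)) := fun h => (hL2 (T y) (hT1 y)).mp h hy
    obtain ⟨e, he⟩ := Ex_iso (hL1 (T y)) hw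
    refine ⟨e1.symm.trans (e.trans e2), fun m n => ?_⟩
    simp only [Equiv.trans_apply, Equiv.symm_apply_apply]
    exact he _ _
  · intro y hy
    have hw : WellFounded (L (T y)) := (hL2 (T y) (hT1 y)).mpr hy
    exact InvImage.wf e1.symm (Ex_wf (hL1 (T y)) hw)
  · intro y
    obtain ⟨S, hS⟩ := Ex2_dl (hL1 (T y))
    exact ⟨_, ord_dl hS e2⟩

end

section

/-- the abstract reduction argument (Lusin Souslin) -/
theorem not_borel {E Cm : Type*} [TopologicalSpace E] [PolishSpace E] [TopologicalSpace Cm]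
    [T2Space Cm] (ι : E → Cm) (hι : Continuous ι) (hi : Function.Injective ι) (A : Set E)
    (R : Set (A × A)) (Φ Ψ : (ℕ → ℕ) → A)
    (hΦ : @Measurable _ _ _ (borel Cm) (fun y => ι (Φ y)))
    (hΨ : @Measurable _ _ _ (borel Cm) (fun y => ι (Ψ y)))
    (Nb : Set (ℕ → ℕ)) (hN : ¬ MeasurableSet Nb) (h : ∀ y, y ∈ Nb ↔ (Φ y, Ψ y) ∈ R) :
    ¬ @MeasurableSet (A × A) (borel (A × A)) R := by
  intro hR
  letI : MeasurableSpace E := borel E
  haveI : BorelSpace E := ⟨rfl⟩
  letI : MeasurableSpace Cm := borel Cm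
  haveI : BorelSpace Cm := ⟨rfl⟩
  have hemb : MeasurableEmbedding ι := hι.measurableEmbedding hi
  have h1 : Measurable (fun y => (Φ y : E)) := hemb.measurable_comp_iff.mp hΦ
  have h2 : Measurable (fun y => (Ψ y : E)) := hemb.measurable_comp_iff.mp hΨ
  have h1' : Measurable Φ := h1.subtype_mk (h := fun y => (Φ y).2)
  have h2' : Measurable Ψ := h2.subtype_mk (h := fun y => (Ψ y).2)
  have hbs : BorelSpace (A × A) := inferInstance
  rw [← hbs.measurable_eq] at hR
  apply hN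
  have h3 : Nb = (fun y => (Φ y, Ψ y)) ⁻¹' R := by
    ext y
    rw [h y]
    rfl
  rw [h3]
  exact (h1'.prodMk h2') hR

end

end Pool.Agent.Helper114.AB
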