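import Pool.Agent.Helper114.AB.Defs2

/-!
# MP_aef7b4_an: part J
-/

open Set Filter Topology

namespace Pool.Agent.Helper114.AB

open scoped Manifold ContDiff

section

namespace Osg16
open BoundedContinuousFunction Complex Metric

/-- the circle as a bounded continuous function -/
noncomputable def cb (c : ℂ) : ℝ →ᵇ ℂ :=
  BoundedContinuousFunction.ofNormedAddCommGroup (circleMap c 1) (continuous_circleMap c 1)
    (‖c‖ + 1) (by
      intro θ
      have h : circleMap c 1 θ = c + circleMap 0 1 θ := by simp [circleMap]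
      rw [h]
      refine (norm_add_le _ _).trans ?_
      rw [norm_circleMap_zero, abs_one])

theorem cb_apply (c : ℂ) (θ : ℝ) : cb c θ = circleMap c 1 θ := rfl

theorem lb (c z : ℂ) (θ : ℝ) : 1 - ‖z - c‖ ≤ ‖circleMap c 1 θ - z‖ := by
  have h : ‖circleMap c 1 θ - c‖ = 1 := by
    rw [circleMap_sub_center, norm_circleMap_zero, abs_one]
  have h2 : circleMap c 1 θ - c = (circleMap c 1 θ - z) + (z - c) := by ring
  have h3 := norm_add_le (circleMap c 1 θ - z) (z - c)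
  rw [← h2, h] at h3
  linarith

theorem sub_ne {c z : ℂ} (hz : ‖z - c‖ < 1) (θ : ℝ) : circleMap c 1 θ - z ≠ 0 := by
  have := lb c z θ
  intro h0
  rw [h0, norm_zero] at this
  linarith

/-- explicit inverse -/
noncomputable def vinv (c z : ℂ) (hz : ‖z - c‖ < 1) : ℝ →ᵇ ℂ :=
  BoundedContinuousFunction.ofNormedAddCommGroup (fun θ => (circleMap c 1 θ - z)⁻¹)
    (((continuous_circleMap c 1).sub continuous_const).inv₀ (sub_ne hz))
    ((1 - ‖z - c‖)⁻¹) (by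
      intro θ
      rw [norm_inv]
      exact inv_anti₀ (by linarith) (lb c z θ))

/-- the Cauchy kernel as an element of a Banach algebra -/
noncomputable def u (c z : ℂ) : ℝ →ᵇ ℂ := Ring.inverse (cb c - algebraMap ℂ (ℝ →ᵇ ℂ) z)

theorem arg_apply (c z : ℂ) (θ : ℝ) :
    (cb c - algebraMap ℂ (ℝ →ᵇ ℂ) z) θ = circleMap c 1 θ - z := rfl

/-- the unit -/
noncomputable def un (c z : ℂ) (hz : ‖z - c‖ < 1) : (ℝ →ᵇ ℂ)ˣ where
  val := cb c - algebraMap ℂ (ℝ →ᵇ ℂ) z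
  inv := vinv c z hz
  val_inv := by
    ext θ
    show (circleMap c 1 θ - z) * (circleMap c 1 θ - z)⁻¹ = 1
    exact mul_inv_cancel₀ (sub_ne hz θ)
  inv_val := by
    ext θ
    show (circleMap c 1 θ - z)⁻¹ * (circleMap c 1 θ - z) = 1
    exact inv_mul_cancel₀ (sub_ne hz θ)

theorem u_apply {c z : ℂ} (hz : ‖z - c‖ < 1) (θ : ℝ) : u c z θ = (circleMap c 1 θ - z)⁻¹ := by
  have : u c z = vinv c z hz := Ring.inverse_unit (un c z hz)
  rw [this]
  rfl

theorem u_an (c : ℂ) : AnalyticAt ℂ (u c) c := by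
  have h1 : AnalyticAt ℂ (Ring.inverse : (ℝ →ᵇ ℂ) → (ℝ →ᵇ ℂ))
      (cb c - algebraMap ℂ (ℝ →ᵇ ℂ) c) :=
    analyticAt_inverse (𝕜 := ℂ) (un c c (by simp))
  have h2 : AnalyticAt ℂ (fun z : ℂ => cb c - algebraMap ℂ (ℝ →ᵇ ℂ) z) c := by
    refine analyticAt_const.sub ?_
    exact (Algebra.linearMap ℂ (ℝ →ᵇ ℂ)).toContinuousLinearMap.analyticAt c
  exact AnalyticAt.comp_of_eq (g := Ring.inverse) (f := fun z : ℂ => cb c - algebraMap ℂ (ℝ →ᵇ ℂ) z) h1 h2 rfl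

section B
variable (k : ℝ → ℝ → ℂ)

/-- the bilinear form -/
noncomputable def Bf (φ ψ : ℝ →ᵇ ℂ) : ℂ :=
  ∫ θ in (0:ℝ)..(2 * Real.pi), ∫ η in (0:ℝ)..(2 * Real.pi), k θ η * (φ θ * ψ η)

variable {k} (hk : Continuous (fun p : ℝ × ℝ => k p.1 p.2))
include hk

theorem cont_in (φ ψ : ℝ →ᵇ ℂ) (θ : ℝ) : Continuous fun η => k θ η * (φ θ * ψ η) := by
  have h1 : Continuous fun η => k θ η := hk.comp (by fun_prop : Continuous fun η : ℝ => (θ, η))
  have h2 := ψ.continuous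
  fun_prop

theorem cont_out (φ ψ : ℝ →ᵇ ℂ) :
    Continuous fun θ => ∫ η in (0:ℝ)..(2 * Real.pi), k θ η * (φ θ * ψ η) := by
  apply intervalIntegral.continuous_parametric_intervalIntegral_of_continuous'
  have h1 := φ.continuous
  have h2 := ψ.continuous
  show Continuous fun p : ℝ × ℝ => k p.1 p.2 * (φ p.1 * ψ p.2)
  fun_prop

theorem exB : ∃ B : (ℝ →ᵇ ℂ) →L[ℂ] (ℝ →ᵇ ℂ) →L[ℂ] ℂ, ∀ φ ψ, B φ ψ = Bf k φ ψ := by
  have hadd1 : ∀ φ φ' ψ, Bf k (φ + φ') ψ = Bf k φ ψ + Bf k φ' ψ := by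
    intro φ φ' ψ
    unfold Bf
    rw [← intervalIntegral.integral_add ((cont_out hk φ ψ).intervalIntegrable _ _)
      ((cont_out hk φ' ψ).intervalIntegrable _ _)]
    congr 1
    funext θ
    rw [← intervalIntegral.integral_add ((cont_in hk φ ψ θ).intervalIntegrable _ _)
      ((cont_in hk φ' ψ θ).intervalIntegrable _ _)]
    congr 1
    funext η
    simp only [BoundedContinuousFunction.coe_add, Pi.add_apply]
    ring
  have hadd2 : ∀ φ ψ ψ', Bf k φ (ψ + ψ') = Bf k φ ψ + Bf k φ ψ' := by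
    intro φ ψ ψ'
    unfold Bf
    rw [← intervalIntegral.integral_add ((cont_out hk φ ψ).intervalIntegrable _ _)
      ((cont_out hk φ ψ').intervalIntegrable _ _)]
    congr 1
    funext θ
    rw [← intervalIntegral.integral_add ((cont_in hk φ ψ θ).intervalIntegrable _ _)
      ((cont_in hk φ ψ' θ).intervalIntegrable _ _)]
    congr 1
    funext η
    simp only [BoundedContinuousFunction.coe_add, Pi.add_apply]
    ring
  have hsm1 : ∀ (c : ℂ) φ ψ, Bf k (c • φ) ψ = c • Bf k φ ψ := by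
    intro c φ ψ
    unfold Bf
    rw [← intervalIntegral.integral_smul]
    congr 1
    funext θ
    rw [← intervalIntegral.integral_smul]
    congr 1
    funext η
    simp only [BoundedContinuousFunction.coe_smul, smul_eq_mul]
    ring
  have hsm2 : ∀ (c : ℂ) φ ψ, Bf k φ (c • ψ) = c • Bf k φ ψ := by
    intro c φ ψ
    unfold Bf
    rw [← intervalIntegral.integral_smul]
    congr 1
    funext θ
    rw [← intervalIntegral.integral_smul]
    congr 1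
    funext η
    simp only [BoundedContinuousFunction.coe_smul, smul_eq_mul]
    ring
  obtain ⟨M, hM⟩ := (isCompact_Icc (a := (0:ℝ)) (b := 2 * Real.pi)).prod
    (isCompact_Icc (a := (0:ℝ)) (b := 2 * Real.pi)) |>.exists_bound_of_continuousOn
      (f := fun p : ℝ × ℝ => k p.1 p.2) hk.continuousOn
  have hM0 : 0 ≤ M := (norm_nonneg _).trans (hM (0, 0) ⟨⟨le_rfl, by positivity⟩,
    ⟨le_rfl, by positivity⟩⟩)
  have hsub : ∀ x ∈ Set.uIoc (0:ℝ) (2 * Real.pi), x ∈ Icc (0:ℝ) (2 * Real.pi) := by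
    intro x hx
    rw [Set.uIoc_of_le (by positivity)] at hx
    exact ⟨hx.1.le, hx.2⟩
  refine ⟨(LinearMap.mk₂ ℂ (Bf k) hadd1 hsm1 hadd2 hsm2).mkContinuous₂
    (M * |2 * Real.pi - 0| * |2 * Real.pi - 0|) ?_, ?_⟩
  · intro φ ψ
    show ‖Bf k φ ψ‖ ≤ _
    unfold Bf
    have h1 : ∀ θ ∈ Set.uIoc (0:ℝ) (2 * Real.pi),
        ‖∫ η in (0:ℝ)..(2 * Real.pi), k θ η * (φ θ * ψ η)‖ ≤
          (M * (‖φ‖ * ‖ψ‖)) * |2 * Real.pi - 0| := by
      intro θ hθ
      apply intervalIntegral.norm_integral_le_of_norm_le_const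
      intro η hη
      rw [norm_mul, norm_mul]
      have := hM (θ, η) ⟨hsub θ hθ, hsub η hη⟩
      have h2 := φ.norm_coe_le_norm θ
      have h3 := ψ.norm_coe_le_norm η
      gcongr
    have h4 := intervalIntegral.norm_integral_le_of_norm_le_const h1
    refine h4.trans (le_of_eq ?_)
    ring
  · intro φ ψ
    rfl

end B

/-- a complex differentiable function of two variables is analytic -/
theorem osgood (g : ℂ × ℂ → ℂ) (hg : Differentiable ℂ g) (p₀ : ℂ × ℂ) : AnalyticAt ℂ g p₀ := by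
  obtain ⟨z₀, w₀⟩ := p₀
  set k : ℝ → ℝ → ℂ := fun θ η => deriv (circleMap z₀ 1) θ * deriv (circleMap w₀ 1) η *
    g (circleMap z₀ 1 θ, circleMap w₀ 1 η) with hkdef
  have hk : Continuous (fun p : ℝ × ℝ => k p.1 p.2) := by
    simp only [hkdef, deriv_circleMap]
    have h1 := continuous_circleMap z₀ 1
    have h2 := continuous_circleMap w₀ 1
    have h3 := continuous_circleMap 0 1
    have h4 := hg.continuous
    fun_prop
  obtain ⟨B, hB⟩ := exB hk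
  have key : ∀ z w : ℂ, ‖z - z₀‖ < 1 → ‖w - w₀‖ < 1 →
      B (u z₀ z) (u w₀ w) = (2 * Real.pi * I : ℂ) * ((2 * Real.pi * I : ℂ) * g (z, w)) := by
    intro z w hz hw
    have hz' : z ∈ ball z₀ 1 := by rwa [mem_ball, dist_eq_norm]
    have hw' : w ∈ ball w₀ 1 := by rwa [mem_ball, dist_eq_norm]
    rw [hB]
    have h1 : ∀ ζ : ℂ, (∮ v in C(w₀, 1), (v - w)⁻¹ • g (ζ, v)) = (2 * Real.pi * I : ℂ) • g (ζ, w) := by
      intro ζ
      have hd : Differentiable ℂ fun v => g (ζ, v) :=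
        hg.comp ((differentiable_const ζ).prodMk differentiable_id)
      exact hd.differentiableOn.circleIntegral_sub_inv_smul hw'
    have h2 : (∮ ζ in C(z₀, 1), (ζ - z)⁻¹ • ((2 * Real.pi * I : ℂ) • g (ζ, w))) =
        (2 * Real.pi * I : ℂ) • ((2 * Real.pi * I : ℂ) • g (z, w)) := by
      have hd : Differentiable ℂ fun ζ => (2 * Real.pi * I : ℂ) • g (ζ, w) :=
        (Differentiable.const_smul (f := fun ζ => g (ζ, w))
          (hg.comp (differentiable_id.prodMk (differentiable_const w))) (2 * Real.pi * I : ℂ) :)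
      exact hd.differentiableOn.circleIntegral_sub_inv_smul hz'
    rw [smul_eq_mul, smul_eq_mul] at h2
    rw [← h2]
    unfold Bf circleIntegral
    congr 1
    funext θ
    have h3 : (2 * Real.pi * I : ℂ) • g (circleMap z₀ 1 θ, w) =
        ∮ v in C(w₀, 1), (v - w)⁻¹ • g (circleMap z₀ 1 θ, v) := (h1 _).symm
    show _ = deriv (circleMap z₀ 1) θ • ((circleMap z₀ 1 θ - z)⁻¹ •
      ((2 * Real.pi * I : ℂ) • g (circleMap z₀ 1 θ, w)))
    rw [h3]
    unfold circleIntegral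
    rw [← intervalIntegral.integral_smul, ← intervalIntegral.integral_smul]
    congr 1
    funext η
    rw [u_apply hz, u_apply hw]
    simp only [hkdef, smul_eq_mul]
    ring
  have han : AnalyticAt ℂ (fun p : ℂ × ℂ => B (u z₀ p.1) (u w₀ p.2)) (z₀, w₀) := by
    have h1 : AnalyticAt ℂ (fun p : ℂ × ℂ => u z₀ p.1) (z₀, w₀) :=
      AnalyticAt.comp_of_eq (g := u z₀) (f := fun p : ℂ × ℂ => p.1) (u_an z₀) analyticAt_fst rfl
    have h2 : AnalyticAt ℂ (fun p : ℂ × ℂ => u w₀ p.2) (z₀, w₀) :=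
      AnalyticAt.comp_of_eq (g := u w₀) (f := fun p : ℂ × ℂ => p.2) (u_an w₀) analyticAt_snd rfl
    have h3 := (B.analyticAt_bilinear (u z₀ z₀, u w₀ w₀))
    exact AnalyticAt.comp_of_eq (g := fun x : (ℝ →ᵇ ℂ) × (ℝ →ᵇ ℂ) => B x.1 x.2)
      (f := fun p : ℂ × ℂ => (u z₀ p.1, u w₀ p.2)) h3 (h1.prod h2) rfl
  have han2 : AnalyticAt ℂ (fun p : ℂ × ℂ => ((2 * Real.pi * I : ℂ) * (2 * Real.pi * I : ℂ))⁻¹ *
      B (u z₀ p.1) (u w₀ p.2)) (z₀, w₀) := analyticAt_const.mul han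
  refine han2.congr ?_
  have hU : ball z₀ 1 ×ˢ ball w₀ 1 ∈ 𝓝 ((z₀, w₀) : ℂ × ℂ) :=
    prod_mem_nhds (ball_mem_nhds _ one_pos) (ball_mem_nhds _ one_pos)
  filter_upwards [hU] with p hp
  have h1 : ‖p.1 - z₀‖ < 1 := by rw [← dist_eq_norm]; exact hp.1
  have h2 : ‖p.2 - w₀‖ < 1 := by rw [← dist_eq_norm]; exact hp.2
  rw [key p.1 p.2 h1 h2]
  have h3 : (2 * Real.pi * I : ℂ) ≠ 0 := by
    simp [Real.pi_ne_zero, I_ne_zero]
  field_simp

end Osg16

/-- holomorphic maps of `ℂ²` are real analytic on `ℝ²` -/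
theorem real_analytic (F : C2 → C2) (hF : Differentiable ℂ F) :
    ContDiff ℝ ω (fun p : ℝ × ℝ => ((F ((p.1 : ℂ), (p.2 : ℂ))).1.re,
      (F ((p.1 : ℂ), (p.2 : ℂ))).2.re)) := by
  have h1 : ContDiff ℂ ω (fun p : ℂ × ℂ => (F p).1) := by
    rw [contDiff_omega_iff_analyticOnNhd]
    intro p _
    exact Osg16.osgood _ hF.fst p
  have h2 : ContDiff ℂ ω (fun p : ℂ × ℂ => (F p).2) := by
    rw [contDiff_omega_iff_analyticOnNhd]
    intro p _
    exact Osg16.osgood _ hF.snd p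
  have hL : ContDiff ℝ ω (fun p : ℝ × ℝ => ((p.1 : ℂ), (p.2 : ℂ))) :=
    (Complex.ofRealCLM.contDiff.comp contDiff_fst).prodMk
      (Complex.ofRealCLM.contDiff.comp contDiff_snd)
  exact (Complex.reCLM.contDiff.comp (h1.restrict_scalars ℝ |>.comp hL)).prodMk
    (Complex.reCLM.contDiff.comp (h2.restrict_scalars ℝ |>.comp hL))

end

section

/-- local lift of the covering -/
noncomputable def lcv (z0 z : Circle) : ℝ :=
  (Complex.arg (z0 : ℂ) + (Complex.log ((z : ℂ) * ((z0⁻¹ : Circle) : ℂ))).im) / (2 * Real.pi)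

theorem exp_lcv (z0 z : Circle) : Circle.exp (2 * Real.pi / 1 * lcv z0 z) = z := by
  have hpi : (2 * Real.pi) ≠ 0 := by positivity
  have e : 2 * Real.pi / 1 * lcv z0 z =
      Complex.arg (z0 : ℂ) + Complex.arg ((z * z0⁻¹ : Circle) : ℂ) := by
    unfold lcv
    rw [Complex.log_im, div_one, mul_div_cancel₀ _ hpi, Circle.coe_mul]
  rw [e, Circle.exp_add, Circle.exp_arg, Circle.exp_arg]
  rw [mul_comm z, mul_inv_cancel_left]

theorem EM_lcv (z0 w0 z w : Circle) :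
    EM.symm (z, w) = (((lcv z0 z : ℝ) : T1), ((lcv w0 w : ℝ) : T1)) := by
  rw [Homeomorph.symm_apply_eq]
  refine Prod.ext ?_ ?_
  · show z = AddCircle.homeomorphCircle (one_ne_zero (α := ℝ)) ((lcv z0 z : ℝ) : T1)
    rw [AddCircle.homeomorphCircle_apply, AddCircle.toCircle_apply_mk, exp_lcv]
  · show w = AddCircle.homeomorphCircle (one_ne_zero (α := ℝ)) ((lcv w0 w : ℝ) : T1)
    rw [AddCircle.homeomorphCircle_apply, AddCircle.toCircle_apply_mk, exp_lcv]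

theorem EM_mk (s t : ℝ) : EM (((s : ℝ) : T1), ((t : ℝ) : T1)) =
    (Circle.exp (2 * Real.pi / 1 * s), Circle.exp (2 * Real.pi / 1 * t)) := by
  refine Prod.ext ?_ ?_
  · show AddCircle.homeomorphCircle (one_ne_zero (α := ℝ)) ((s : ℝ) : T1) = _
    rw [AddCircle.homeomorphCircle_apply, AddCircle.toCircle_apply_mk]
  · show AddCircle.homeomorphCircle (one_ne_zero (α := ℝ)) ((t : ℝ) : T1) = _
    rw [AddCircle.homeomorphCircle_apply, AddCircle.toCircle_apply_mk]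

attribute [local instance] finrank_real_complex_fact'

theorem lcv_contMDiffAt (z0 : Circle) : ContMDiffAt (𝓡 1) 𝓘(ℝ, ℝ) ω (lcv z0) z0 := by
  have h1 : ContDiffAt ℝ ω (fun x : ℂ =>
      (Complex.arg (z0 : ℂ) + (Complex.log (x * ((z0⁻¹ : Circle) : ℂ))).im) / (2 * Real.pi))
      (z0:ℂ) := by
    have hs : (z0:ℂ) * ((z0⁻¹ : Circle):ℂ) ∈ Complex.slitPlane := by
      rw [← Circle.coe_mul]; simp
    have hlog : ContDiffAt ℝ ω Complex.log ((z0:ℂ) * ((z0⁻¹ : Circle):ℂ)) :=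
      (Complex.contDiffAt_log hs).restrict_scalars ℝ
    have hm : ContDiffAt ℝ ω (fun x : ℂ => x * ((z0⁻¹ : Circle):ℂ)) (z0 : ℂ) :=
      contDiffAt_id.mul contDiffAt_const
    have h2 : ContDiffAt ℝ ω (fun x : ℂ => Complex.log (x * ((z0⁻¹ : Circle):ℂ))) (z0 : ℂ) :=
      ContDiffAt.comp (g := Complex.log) (z0 : ℂ) hlog hm
    have h3 : ContDiffAt ℝ ω (fun x : ℂ => (Complex.log (x * ((z0⁻¹ : Circle):ℂ))).im) (z0 : ℂ) :=
      ContDiffAt.comp (z0 : ℂ) (Complex.imCLM.contDiff.contDiffAt) h2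
    exact (contDiffAt_const.add h3).div_const _
  have h2 := h1.contMDiffAt
  have h3 : ContMDiffAt (𝓡 1) 𝓘(ℝ, ℂ) ω (fun z : Circle => (z:ℂ)) z0 :=
    (contMDiff_coe_sphere (E := ℂ) (n := 1) (m := ω)) z0
  exact ContMDiffAt.comp z0 h2 h3

theorem contMDiff_descend (G : ℝ × ℝ → ℝ × ℝ) (hG : ContDiff ℝ ω G) (f : T2 → T2)
    (hf : ∀ p : ℝ × ℝ, f ((p.1 : T1), (p.2 : T1)) = (((G p).1 : T1), ((G p).2 : T1))) :
    ContMDiff ((𝓡 1).prod (𝓡 1)) ((𝓡 1).prod (𝓡 1)) ω (EM ∘ f ∘ EM.symm) := by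
  rintro ⟨z0, w0⟩
  have e : EM ∘ f ∘ EM.symm = fun q : Circle × Circle =>
      (Circle.exp (2 * Real.pi / 1 * (G (lcv z0 q.1, lcv w0 q.2)).1),
        Circle.exp (2 * Real.pi / 1 * (G (lcv z0 q.1, lcv w0 q.2)).2)) := by
    funext q
    obtain ⟨z, w⟩ := q
    show EM (f (EM.symm (z, w))) = _
    rw [EM_lcv z0 w0 z w, hf (lcv z0 z, lcv w0 w), EM_mk]
  rw [e]
  have hS1 : ContMDiffAt ((𝓡 1).prod (𝓡 1)) 𝓘(ℝ, ℝ) ω
      (fun q : Circle × Circle => lcv z0 q.1) (z0, w0) :=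
    ContMDiffAt.comp (z0, w0) (lcv_contMDiffAt z0) contMDiffAt_fst
  have hS2 : ContMDiffAt ((𝓡 1).prod (𝓡 1)) 𝓘(ℝ, ℝ) ω
      (fun q : Circle × Circle => lcv w0 q.2) (z0, w0) :=
    ContMDiffAt.comp (z0, w0) (lcv_contMDiffAt w0) contMDiffAt_snd
  have hS : ContMDiffAt ((𝓡 1).prod (𝓡 1)) 𝓘(ℝ, ℝ × ℝ) ω
      (fun q : Circle × Circle => (lcv z0 q.1, lcv w0 q.2)) (z0, w0) := hS1.prodMk_space hS2
  have hG1 : ContDiff ℝ ω fun p : ℝ × ℝ => 2 * Real.pi / 1 * (G p).1 :=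
    contDiff_const.mul hG.fst
  have hG2 : ContDiff ℝ ω fun p : ℝ × ℝ => 2 * Real.pi / 1 * (G p).2 :=
    contDiff_const.mul hG.snd
  have k1 : ContMDiffAt ((𝓡 1).prod (𝓡 1)) 𝓘(ℝ, ℝ) ω
      (fun q : Circle × Circle => 2 * Real.pi / 1 * (G (lcv z0 q.1, lcv w0 q.2)).1) (z0, w0) :=
    ContMDiffAt.comp (g := fun p : ℝ × ℝ => 2 * Real.pi / 1 * (G p).1) (z0, w0)
      (hG1.contMDiff.contMDiffAt) hS
  have k2 : ContMDiffAt ((𝓡 1).prod (𝓡 1)) 𝓘(ℝ, ℝ) ω
      (fun q : Circle × Circle => 2 * Real.pi / 1 * (G (lcv z0 q.1, lcv w0 q.2)).2) (z0, w0) :=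
    ContMDiffAt.comp (g := fun p : ℝ × ℝ => 2 * Real.pi / 1 * (G p).2) (z0, w0)
      (hG2.contMDiff.contMDiffAt) hS
  have m1 : ContMDiffAt ((𝓡 1).prod (𝓡 1)) (𝓡 1) ω
      (fun q : Circle × Circle =>
        Circle.exp (2 * Real.pi / 1 * (G (lcv z0 q.1, lcv w0 q.2)).1)) (z0, w0) :=
    ContMDiffAt.comp (z0, w0) (contMDiff_circleExp.contMDiffAt) k1
  have m2 : ContMDiffAt ((𝓡 1).prod (𝓡 1)) (𝓡 1) ω
      (fun q : Circle × Circle =>
        Circle.exp (2 * Real.pi / 1 * (G (lcv z0 q.1, lcv w0 q.2)).2)) (z0, w0) :=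
    ContMDiffAt.comp (z0, w0) (contMDiff_circleExp.contMDiffAt) k2
  exact m1.prodMk m2

end

section

theorem contMDiff_toM (F : C2 → C2) (hF : Differentiable ℂ F) (f : T2 → T2) (hf : Rel F f) :
    ContMDiff ((𝓡 1).prod (𝓡 1)) ((𝓡 1).prod (𝓡 1)) ω (EM ∘ f ∘ EM.symm) := by
  refine contMDiff_descend (fun p : ℝ × ℝ => ((F ((p.1 : ℂ), (p.2 : ℂ))).1.re,
      (F ((p.1 : ℂ), (p.2 : ℂ))).2.re)) (real_analytic F hF) f ?_
  intro p
  obtain ⟨θ', x', h1, h2⟩ := hf p.1 p.2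
  rw [h2]
  simp only [h1, Complex.ofReal_re]

end

end Pool.Agent.Helper114.AB
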